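import Pool.Agent.Lib.MP_9fcec4_mp.NBody

open MeasureTheory Filter Topology
open scoped ContDiff

namespace Pool.Agent.Lib.MP_9fcec4_mp

/-- potential of the other unit charges at site `k` -/
noncomputable def Uc (K : ℕ) (y : ℕ → E3) (k : ℕ) : ℝ :=
  ∑ l ∈ (Finset.range K).erase k, 1 / dist (y k) (y l)

/-- classical energy of electrons at the sites `s` -/
noncomputable def Cc (K : ℕ) (y : ℕ → E3) {M : ℕ} (s : Fin M → ℕ) : ℝ :=
  (∑ i, ∑ j ∈ Finset.Ioi i, 1 / dist (y (s i)) (y (s j))) - ∑ i, Uc K y (s i)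

lemma Uc_nonneg (K : ℕ) (y : ℕ → E3) (k : ℕ) : 0 ≤ Uc K y k :=
  Finset.sum_nonneg fun _ _ => by positivity

/-- one-body constants -/
noncomputable def Ac (K : ℕ) (y : ℕ → E3) (t δ : ℝ) (k : ℕ) : ℝ := (Uc K y k + 2 * K * δ) / t

lemma dist_smul_smul {t : ℝ} (ht : 0 < t) (a b : E3) : dist (t • a) (t • b) = t * dist a b := by
  rw [dist_smul₀, Real.norm_of_nonneg ht.le]

/-- attraction estimate -/
lemma inv_dist_le {t δ : ℝ} (ht : 0 < t) (hδ' : δ ≤ 1 / 4) {a b x : E3}
    (hab : 1 ≤ dist a b) (hx : dist x (t • a) < δ * t) :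
    1 / dist x (t • b) ≤ (1 / dist a b + 2 * δ) / t := by
  have hδ : 0 < δ := by
    by_contra h
    push Not at h
    have h1 : δ * t ≤ 0 := mul_nonpos_of_nonpos_of_nonneg h ht.le
    linarith [dist_nonneg (x := x) (y := t • a)]
  have h1 : dist (t • a) (t • b) ≤ dist (t • a) x + dist x (t • b) := dist_triangle _ _ _
  rw [dist_smul_smul ht, dist_comm (t • a) x] at h1
  set d := dist a b
  have h2 : t * (d - δ) ≤ dist x (t • b) := by nlinarith
  have h3 : 0 < t * (d - δ) := by
    apply mul_pos ht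
    linarith
  calc 1 / dist x (t • b) ≤ 1 / (t * (d - δ)) := one_div_le_one_div_of_le h3 h2
    _ = (1 / (d - δ)) / t := by
        have : d - δ ≠ 0 := by linarith
        field_simp
    _ ≤ (1 / d + 2 * δ) / t := by
        apply div_le_div_of_nonneg_right _ ht.le
        have hd : 0 < d - δ := by linarith
        have hd0 : 0 < d := by linarith
        rw [div_le_iff₀ hd, add_mul, div_mul_eq_mul_div, one_mul]
        have e : (d - δ) / d = 1 - δ / d := by field_simp
        rw [e]
        have h4 : δ / d ≤ δ := div_le_self hδ.le hab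
        nlinarith

/-- repulsion estimate from below -/
lemma le_inv_dist {t δ : ℝ} (ht : 0 < t) {a b x z : E3}
    (hab : 1 ≤ dist a b) (hx : dist x (t • a) < δ * t) (hz : dist z (t • b) < δ * t)
    (hne : x ≠ z) :
    (1 / dist a b - 2 * δ) / t ≤ 1 / dist x z := by
  have hδ : 0 < δ := by
    by_contra h
    push Not at h
    have h1 : δ * t ≤ 0 := mul_nonpos_of_nonpos_of_nonneg h ht.le
    linarith [dist_nonneg (x := x) (y := t • a)]
  have h1 : dist x z ≤ dist x (t • a) + dist (t • a) (t • b) + dist (t • b) z :=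
    dist_triangle4 _ _ _ _
  rw [dist_smul_smul ht, dist_comm (t • b) z] at h1
  set d := dist a b
  have h2 : dist x z ≤ t * (d + 2 * δ) := by nlinarith
  have h3 : 0 < dist x z := dist_pos.mpr hne
  calc (1 / d - 2 * δ) / t ≤ (1 / (d + 2 * δ)) / t := by
        apply div_le_div_of_nonneg_right _ ht.le
        rw [le_div_iff₀ (by linarith), sub_mul, div_mul_eq_mul_div, one_mul]
        have e : (d + 2 * δ) / d = 1 + 2 * (δ / d) := by field_simp
        rw [e]
        have h4 : δ / d ≤ δ := div_le_self hδ.le hab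
        nlinarith
    _ = 1 / (t * (d + 2 * δ)) := by
        have : d + 2 * δ ≠ 0 := by linarith
        field_simp
    _ ≤ 1 / dist x z := one_div_le_one_div_of_le h3 h2

/-- repulsion estimate from above -/
lemma inv_dist_le2 {t δ : ℝ} (ht : 0 < t) (hδ' : δ ≤ 1 / 4) {a b x z : E3}
    (hab : 1 ≤ dist a b) (hx : dist x (t • a) < δ * t) (hz : dist z (t • b) < δ * t) :
    1 / dist x z ≤ (1 / dist a b + 4 * δ) / t := by
  have hδ : 0 < δ := by
    by_contra h
    push Not at h
    have h1 : δ * t ≤ 0 := mul_nonpos_of_nonpos_of_nonneg h ht.le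
    linarith [dist_nonneg (x := x) (y := t • a)]
  have h1 : dist (t • a) (t • b) ≤ dist (t • a) x + dist x z + dist z (t • b) :=
    dist_triangle4 _ _ _ _
  rw [dist_smul_smul ht, dist_comm (t • a) x] at h1
  set d := dist a b
  have h2 : t * (d - 2 * δ) ≤ dist x z := by nlinarith
  have h3 : 0 < t * (d - 2 * δ) := by
    apply mul_pos ht
    linarith
  calc 1 / dist x z ≤ 1 / (t * (d - 2 * δ)) := one_div_le_one_div_of_le h3 h2
    _ = (1 / (d - 2 * δ)) / t := by
        have : d - 2 * δ ≠ 0 := by linarith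
        field_simp
    _ ≤ (1 / d + 4 * δ) / t := by
        apply div_le_div_of_nonneg_right _ ht.le
        have hd : 0 < d - 2 * δ := by linarith
        have hd0 : 0 < d := by linarith
        rw [div_le_iff₀ hd, add_mul, div_mul_eq_mul_div, one_mul]
        have e : (d - 2 * δ) / d = 1 - 2 * (δ / d) := by field_simp
        rw [e]
        have h4 : δ / d ≤ δ := div_le_self hδ.le hab
        nlinarith

/-- attraction estimate from below -/
lemma le_inv_dist2 {t δ : ℝ} (ht : 0 < t) (hδ' : δ ≤ 1 / 4) {a b x : E3}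
    (hab : 1 ≤ dist a b) (hx : dist x (t • a) < δ * t) :
    (1 / dist a b - δ) / t ≤ 1 / dist x (t • b) := by
  have hδ : 0 < δ := by
    by_contra h
    push Not at h
    have h1 : δ * t ≤ 0 := mul_nonpos_of_nonpos_of_nonneg h ht.le
    linarith [dist_nonneg (x := x) (y := t • a)]
  have h1 : dist x (t • b) ≤ dist x (t • a) + dist (t • a) (t • b) := dist_triangle _ _ _
  have h0 : dist (t • a) (t • b) ≤ dist (t • a) x + dist x (t • b) := dist_triangle _ _ _
  rw [dist_smul_smul ht] at h1
  rw [dist_smul_smul ht, dist_comm (t • a) x] at h0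
  set d := dist a b
  have h2 : dist x (t • b) ≤ t * (d + δ) := by nlinarith
  have h3 : 0 < dist x (t • b) := by
    have : 0 < t * (d - δ) := by
      apply mul_pos ht
      linarith
    nlinarith
  calc (1 / d - δ) / t ≤ (1 / (d + δ)) / t := by
        apply div_le_div_of_nonneg_right _ ht.le
        rw [le_div_iff₀ (by linarith), sub_mul, div_mul_eq_mul_div, one_mul]
        have e : (d + δ) / d = 1 + (δ / d) := by field_simp
        rw [e]
        have h4 : δ / d ≤ δ := div_le_self hδ.le hab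
        nlinarith
    _ = 1 / (t * (d + δ)) := by
        have : d + δ ≠ 0 := by linarith
        field_simp
    _ ≤ 1 / dist x (t • b) := one_div_le_one_div_of_le h3 h2

lemma Ac_spec {K : ℕ} {y : ℕ → E3} {t δ : ℝ} (ht : 0 < t) (hδ : 0 < δ) (hδ' : δ ≤ 1 / 4)
    (hsep : ∀ k ∈ Finset.range K, ∀ l ∈ Finset.range K, k ≠ l → 1 ≤ dist (y k) (y l)) :
    ∀ k ∈ Finset.range K, ∀ x, dist x (t • y k) < δ * t →
      ∑ l ∈ (Finset.range K).erase k, 1 / dist x (t • y l) ≤ Ac K y t δ k := by
  intro k hk x hx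
  have h1 : ∀ l ∈ (Finset.range K).erase k,
      1 / dist x (t • y l) ≤ (1 / dist (y k) (y l) + 2 * δ) / t := by
    intro l hl
    have hl' := Finset.mem_erase.mp hl
    exact inv_dist_le ht hδ' (hsep k hk l hl'.2 hl'.1.symm) hx
  calc ∑ l ∈ (Finset.range K).erase k, 1 / dist x (t • y l)
      ≤ ∑ l ∈ (Finset.range K).erase k, (1 / dist (y k) (y l) + 2 * δ) / t :=
        Finset.sum_le_sum h1
    _ = (Uc K y k + ((Finset.range K).erase k).card * (2 * δ)) / t := by
        rw [← Finset.sum_div, Finset.sum_add_distrib, Finset.sum_const, nsmul_eq_mul]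
        rfl
    _ ≤ Ac K y t δ k := by
        unfold Ac
        apply div_le_div_of_nonneg_right _ ht.le
        have h2 : ((Finset.range K).erase k).card ≤ K := by
          calc ((Finset.range K).erase k).card ≤ (Finset.range K).card := Finset.card_erase_le
            _ = K := Finset.card_range K
        have h3 : (((Finset.range K).erase k).card : ℝ) ≤ K := by exact_mod_cast h2
        nlinarith

lemma vneg_of_mem {K : ℕ} {R : ℕ → E3} {ρ : ℝ} {A : ℕ → ℝ}
    (hsep : ∀ k ∈ Finset.range K, ∀ l ∈ Finset.range K, k ≠ l → 2 * ρ ≤ dist (R k) (R l))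
    {k : ℕ} (hk : k ∈ Finset.range K) {x : E3} (hx : dist x (R k) < ρ) :
    vneg K R ρ A x = A k - eb ρ + K * (CB / ρ ^ 2) / 2 := by
  unfold vneg
  rw [Finset.sum_eq_single_of_mem k hk]
  · rw [Set.indicator_of_mem (Metric.mem_ball.mpr hx)]
    ring
  · intro l hl hlk
    apply Set.indicator_of_notMem
    intro hxl
    have h1 := hsep l hl k hk hlk
    have h2 := Metric.mem_ball.mp hxl
    have h3 := dist_triangle (R l) x (R k)
    rw [dist_comm (R l) x] at h3
    linarith

lemma vneg_of_notMem {K : ℕ} {R : ℕ → E3} {ρ : ℝ} {A : ℕ → ℝ} {x : E3}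
    (hx : ∀ k ∈ Finset.range K, ¬ dist x (R k) < ρ) :
    vneg K R ρ A x = 2 * K / ρ + K * (CB / ρ ^ 2) / 2 := by
  unfold vneg
  rw [Finset.sum_eq_zero, add_zero]
  intro k hk
  apply Set.indicator_of_notMem
  intro h
  exact hx k hk (Metric.mem_ball.mp h)

theorem classical_lower {K M : ℕ} {y : ℕ → E3} {t δ c0 Um F : ℝ} (ht : 0 < t) (hδ : 0 < δ)
    (hδ' : δ ≤ 1 / 4)
    (hsep : ∀ k ∈ Finset.range K, ∀ l ∈ Finset.range K, k ≠ l → 1 ≤ dist (y k) (y l))
    (hU : ∀ k ∈ Finset.range K, Uc K y k ≤ Um) (hUm : 0 ≤ Um) (hF0 : F ≤ 0)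
    (hF : ∀ s : Fin M → ℕ, (∀ i, s i ∈ Finset.range K) → Function.Injective s → F ≤ Cc K y s)
    (heb : eb (δ * t) ≤ -c0)
    (h1 : 2 * K / (δ * t) + M * ((Um + 2 * K * δ) / t) ≤ c0)
    (h2 : M * (Um + 2 * K * δ) ≤ 1 / (2 * δ))
    (x : Fin M → E3) (hx : ∀ i j, i ≠ j → x i ≠ x j) :
    M * eb (δ * t) + (F - (2 * K * M + 2 * M ^ 2) * δ) / t -
      M * (K * (CB / (δ * t) ^ 2) / 2) ≤
      (∑ i, ∑ j ∈ Finset.Ioi i, 1 / dist (x i) (x j)) -
        ∑ i, vneg K (fun k => t • y k) (δ * t) (Ac K y t δ) (x i) := by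
  set ρ := δ * t with hρ
  have hρ0 : 0 < ρ := mul_pos hδ ht
  set E0 : ℝ := K * (CB / ρ ^ 2) / 2 with hE0
  have hsepR : ∀ k ∈ Finset.range K, ∀ l ∈ Finset.range K, k ≠ l →
      2 * ρ ≤ dist (t • y k) (t • y l) := by
    intro k hk l hl hkl
    rw [dist_smul_smul ht]
    have := hsep k hk l hl hkl
    rw [hρ]
    nlinarith
  have hAm : ∀ k ∈ Finset.range K, Ac K y t δ k ≤ (Um + 2 * K * δ) / t := by
    intro k hk
    apply div_le_div_of_nonneg_right _ ht.le
    linarith [hU k hk]
  have hAn : ∀ k, 0 ≤ Ac K y t δ k := by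
    intro k
    apply div_nonneg _ ht.le
    have := Uc_nonneg K y k
    positivity
  set Am : ℝ := (Um + 2 * K * δ) / t with hAmdef
  have hAm0 : 0 ≤ Am := by positivity
  have hK0 : 0 ≤ 2 * K / ρ := by positivity
  set v : E3 → ℝ := vneg K (fun k => t • y k) ρ (Ac K y t δ) with hv
  have hvle : ∀ z, v z ≤ Am - eb ρ + E0 := by
    intro z
    by_cases hz : ∃ k ∈ Finset.range K, dist z (t • y k) < ρ
    · obtain ⟨k, hk, hzk⟩ := hz
      have := vneg_of_mem (A := Ac K y t δ) hsepR hk hzk
      have h3 := hAm k hk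
      rw [hv, this]
      linarith
    · push Not at hz
      have := vneg_of_notMem (A := Ac K y t δ) (R := fun k => t • y k) (K := K) (x := z) (ρ := ρ)
        (fun k hk => not_lt.mpr (hz k hk))
      rw [hv, this]
      have hM : 0 ≤ M * Am := by positivity
      linarith
  have hrep0 : ∀ i : Fin M, ∀ j ∈ Finset.Ioi i, 0 ≤ 1 / dist (x i) (x j) := fun _ _ _ => by
    positivity
  have hcF : (F - (2 * K * M + 2 * M ^ 2) * δ) / t ≤ 0 := by
    apply div_nonpos_of_nonpos_of_nonneg _ ht.le
    have : 0 ≤ (2 * K * M + 2 * M ^ 2) * δ := by positivity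
    linarith
  have hsumv : ∑ i, v (x i) ≤ M * (Am - eb ρ + E0) := by
    calc ∑ i, v (x i) ≤ ∑ _i : Fin M, (Am - eb ρ + E0) := Finset.sum_le_sum fun i _ => hvle _
      _ = _ := by
        simp
        ring
  by_cases hall : ∀ i, ∃ k ∈ Finset.range K, dist (x i) (t • y k) < ρ
  · choose s hs hxs using hall
    have hvs : ∀ i, v (x i) = Ac K y t δ (s i) - eb ρ + E0 := fun i =>
      vneg_of_mem hsepR (hs i) (hxs i)
    by_cases hinj : Function.Injective s
    · -- distinct balls
      have hCs := hF s hs hinj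
      have hpair : ∑ i, ∑ j ∈ Finset.Ioi i, (1 / dist (y (s i)) (y (s j)) - 2 * δ) / t ≤
          ∑ i, ∑ j ∈ Finset.Ioi i, 1 / dist (x i) (x j) := by
        apply Finset.sum_le_sum
        intro i _
        apply Finset.sum_le_sum
        intro j hj
        have hij : i ≠ j := (Finset.mem_Ioi.mp hj).ne
        exact le_inv_dist ht (hsep _ (hs i) _ (hs j) (fun h => hij (hinj h)))
          (hxs i) (hxs j) (hx i j hij)
      have e1 : ∑ i, ∑ j ∈ Finset.Ioi i, (1 / dist (y (s i)) (y (s j)) - 2 * δ) / t =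
          ((∑ i, ∑ j ∈ Finset.Ioi i, 1 / dist (y (s i)) (y (s j))) -
            (∑ i : Fin M, ∑ j ∈ Finset.Ioi i, 2 * δ)) / t := by
        simp only [← Finset.sum_div, Finset.sum_sub_distrib]
      have e2 : (∑ i : Fin M, ∑ j ∈ Finset.Ioi i, 2 * δ) ≤ M ^ 2 * (2 * δ) := by
        calc (∑ i : Fin M, ∑ j ∈ Finset.Ioi i, 2 * δ) ≤ ∑ i : Fin M, ∑ j : Fin M, 2 * δ := by
              apply Finset.sum_le_sum
              intro i _
              apply Finset.sum_le_sum_of_subset_of_nonneg (Finset.subset_univ _)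
              intro _ _ _
              positivity
          _ = _ := by
              simp
              ring
      have e3 : ∑ i, v (x i) = (∑ i, Uc K y (s i)) / t + M * (2 * K * δ) / t - M * eb ρ +
          M * E0 := by
        simp only [hvs, Ac]
        rw [Finset.sum_add_distrib, Finset.sum_sub_distrib, ← Finset.sum_div,
          Finset.sum_add_distrib]
        simp
        ring
      have hcs : Cc K y s = (∑ i, ∑ j ∈ Finset.Ioi i, 1 / dist (y (s i)) (y (s j))) -
          ∑ i, Uc K y (s i) := rfl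
      have e4 : (F - (2 * K * M + 2 * M ^ 2) * δ) / t ≤
          ((∑ i, ∑ j ∈ Finset.Ioi i, 1 / dist (y (s i)) (y (s j))) -
            (∑ i : Fin M, ∑ j ∈ Finset.Ioi i, 2 * δ)) / t -
            (∑ i, Uc K y (s i)) / t - M * (2 * K * δ) / t := by
        rw [← sub_div, ← sub_div]
        apply div_le_div_of_nonneg_right _ ht.le
        rw [hcs] at hCs
        linarith
      rw [e1] at hpair
      rw [e3]
      linarith
    · -- two in the same ball
      have : ∃ i j, s i = s j ∧ i ≠ j := by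
        unfold Function.Injective at hinj
        push Not at hinj
        exact hinj
      obtain ⟨i, j, hsij, hij⟩ := this
      have key : ∀ i j : Fin M, s i = s j → i < j →
          1 / (2 * ρ) ≤ ∑ i, ∑ j ∈ Finset.Ioi i, 1 / dist (x i) (x j) := by
        intro i j hsij hij
        have hd : dist (x i) (x j) < 2 * ρ := by
          have h3 := dist_triangle (x i) (t • y (s i)) (x j)
          have h4 := hxs i
          have h5 := hxs j
          rw [← hsij, dist_comm] at h5
          linarith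
        have hd0 : 0 < dist (x i) (x j) := dist_pos.mpr (hx i j hij.ne)
        calc 1 / (2 * ρ) ≤ 1 / dist (x i) (x j) := one_div_le_one_div_of_le hd0 hd.le
          _ ≤ ∑ j ∈ Finset.Ioi i, 1 / dist (x i) (x j) :=
              Finset.single_le_sum (f := fun j => 1 / dist (x i) (x j)) (hrep0 i)
                (Finset.mem_Ioi.mpr hij)
          _ ≤ _ := Finset.single_le_sum (f := fun i => ∑ j ∈ Finset.Ioi i, 1 / dist (x i) (x j))
                (fun i _ => Finset.sum_nonneg (hrep0 i)) (Finset.mem_univ i)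
      have hk : 1 / (2 * ρ) ≤ ∑ i, ∑ j ∈ Finset.Ioi i, 1 / dist (x i) (x j) := by
        rcases lt_or_gt_of_ne hij with h | h
        · exact key i j hsij h
        · exact key j i hsij.symm h
      have h3 : M * Am ≤ 1 / (2 * ρ) := by
        have e : 1 / (2 * ρ) = (1 / (2 * δ)) / t := by
          rw [hρ]
          field_simp
        rw [e, hAmdef, ← mul_div_assoc]
        exact div_le_div_of_nonneg_right h2 ht.le
      linarith
  · push Not at hall
    obtain ⟨i, hi⟩ := hall
    have hvi : v (x i) = 2 * K / ρ + E0 :=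
      vneg_of_notMem (R := fun k => t • y k) (fun k hk => not_lt.mpr (hi k hk))
    have h3 : (Am - eb ρ + E0) - v (x i) ≤ ∑ j, ((Am - eb ρ + E0) - v (x j)) :=
      Finset.single_le_sum (f := fun j => (Am - eb ρ + E0) - v (x j))
        (fun j _ => by linarith [hvle (x j)]) (Finset.mem_univ i)
    rw [Finset.sum_sub_distrib] at h3
    simp only [Finset.sum_const, Finset.card_univ, Fintype.card_fin, nsmul_eq_mul] at h3
    rw [hvi] at h3
    have h4 : 0 ≤ ∑ i, ∑ j ∈ Finset.Ioi i, 1 / dist (x i) (x j) :=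
      Finset.sum_nonneg fun i _ => Finset.sum_nonneg (hrep0 i)
    linarith

end Pool.Agent.Lib.MP_9fcec4_mp
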