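import Mathlib

/-!
# Ground-state energies of Coulomb systems

Atomic units. `K` nuclei are fixed at `R 0, …, R (K-1)` in three-dimensional Euclidean space and
carry the charges `Z 0, …, Z (K-1)`. The Hamiltonian of `M` electrons of spin one half is
`H_M = ∑ i, (-(1/2) Δ_i - ∑ k, Z k / |x_i - R k|) + ∑ i<j, 1 / |x_i - x_j|`.

The bottom of its spectrum on antisymmetric functions is, by the variational principle, the
infimum of the energy form over normalised antisymmetric smooth compactly supported functions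
of positions and spins (these functions are a core of `H_M`); this is the definition used here.
-/

open MeasureTheory
open scoped ContDiff

namespace Pool.Agent.Lib.MP_9fcec4_mp

/-- Three-dimensional Euclidean space. -/
abbrev E3 : Type := EuclideanSpace ℝ (Fin 3)

/-- The squared length of the gradient of `f` with respect to the position of particle `i`:
the sum over the three coordinate directions of the squared modulus of the derivative. -/
noncomputable def gradSq {M : ℕ} (f : (Fin M → E3) → ℂ) (i : Fin M) (x : Fin M → E3) : ℝ :=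
  ∑ c : Fin 3, ‖fderiv ℝ f x (Pi.single i (EuclideanSpace.single c (1 : ℝ)))‖ ^ 2

/-- The potential energy of `M` electrons at `x`: attraction by the nuclei at `R` with
charges `Z`, plus the mutual repulsion of the electrons. -/
noncomputable def potential {K : ℕ} (R : Fin K → E3) (Z : Fin K → ℕ) {M : ℕ}
    (x : Fin M → E3) : ℝ :=
  - (∑ i, ∑ k, (Z k : ℝ) / dist (x i) (R k)) + ∑ i, ∑ j ∈ Finset.Ioi i, 1 / dist (x i) (x j)

/-- Wave functions of `M` electrons with spin one half: for each spin assignment a smooth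
compactly supported function of the positions, antisymmetric under simultaneous permutation
of positions and spins. -/
structure IsWave (M : ℕ) (ψ : (Fin M → E3) → (Fin M → Fin 2) → ℂ) : Prop where
  smooth : ∀ σ, ContDiff ℝ ∞ (fun x => ψ x σ)
  compact : ∀ σ, HasCompactSupport (fun x => ψ x σ)
  antisymm : ∀ (π : Equiv.Perm (Fin M)) (x : Fin M → E3) (σ : Fin M → Fin 2),
    ψ (x ∘ π) (σ ∘ π) = ((Equiv.Perm.sign π : ℤ) : ℂ) * ψ x σ

/-- Squared `L²` norm of a wave function (sum over spins, integral over positions). -/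
noncomputable def normSq {M : ℕ} (ψ : (Fin M → E3) → (Fin M → Fin 2) → ℂ) : ℝ :=
  ∑ σ, ∫ x, ‖ψ x σ‖ ^ 2

/-- The energy form `⟨ψ, H_M ψ⟩`. -/
noncomputable def energy {K : ℕ} (R : Fin K → E3) (Z : Fin K → ℕ) {M : ℕ}
    (ψ : (Fin M → E3) → (Fin M → Fin 2) → ℂ) : ℝ :=
  ∑ σ, ∫ x, ((1 / 2) * ∑ i, gradSq (fun y => ψ y σ) i x + potential R Z x * ‖ψ x σ‖ ^ 2)

/-- The set of energies of normalised wave functions of `M` electrons. -/
def energySet {K : ℕ} (R : Fin K → E3) (Z : Fin K → ℕ) (M : ℕ) : Set ℝ :=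
  {e : ℝ | ∃ ψ : (Fin M → E3) → (Fin M → Fin 2) → ℂ,
    IsWave M ψ ∧ normSq ψ = 1 ∧ e = energy R Z ψ}

/-- The ground-state energy `E(M)` of `M` electrons. -/
noncomputable def groundEnergy {K : ℕ} (R : Fin K → E3) (Z : Fin K → ℕ) (M : ℕ) : ℝ :=
  sInf (energySet R Z M)

/-- The ionization energy `I[N] = E(N-1) - E(N)`. -/
noncomputable def ionization {K : ℕ} (R : Fin K → E3) (Z : Fin K → ℕ) (N : ℕ) : ℝ :=
  groundEnergy R Z (N - 1) - groundEnergy R Z N

/-- Ten points of three-dimensional space: `(±15,0,0)`, `(±6,0,0)`, `(0,±7,0)`, `(±21,0,0)`,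
`(0,±16,0)`. -/
noncomputable def tenSites : Fin 10 → E3 :=
  ![!₂[15, 0, 0], !₂[-15, 0, 0], !₂[6, 0, 0], !₂[-6, 0, 0], !₂[0, 7, 0], !₂[0, -7, 0],
    !₂[21, 0, 0], !₂[-21, 0, 0], !₂[0, 16, 0], !₂[0, -16, 0]]

end Pool.Agent.Lib.MP_9fcec4_mp
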