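import Pool.Agent.Lib.MP_9fcec4_mp.Trial

open MeasureTheory Filter Topology
open scoped ContDiff

namespace Pool.Agent.Lib.MP_9fcec4_mp

lemma pair_sum {M : ℕ} (g : Fin M → Fin M → ℝ) (hg : ∀ i j, g i j = g j i) :
    2 * ∑ i, ∑ j ∈ Finset.Ioi i, g i j = ∑ i, ∑ j, (if i = j then 0 else g i j) := by
  have h1 : ∑ i, ∑ j ∈ Finset.Ioi i, g i j = ∑ i, ∑ j, (if i < j then g i j else 0) := by
    refine Finset.sum_congr rfl fun i _ => ?_
    rw [← Finset.sum_filter]
    congr 1
    ext j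
    simp
  have h2 : ∑ i, ∑ j ∈ Finset.Ioi i, g i j = ∑ i, ∑ j, (if j < i then g i j else 0) := by
    rw [h1, Finset.sum_comm]
    refine Finset.sum_congr rfl fun i _ => Finset.sum_congr rfl fun j _ => ?_
    rw [hg]
  rw [two_mul]
  nth_rewrite 1 [h1]
  rw [h2, ← Finset.sum_add_distrib]
  refine Finset.sum_congr rfl fun i _ => ?_
  rw [← Finset.sum_add_distrib]
  refine Finset.sum_congr rfl fun j _ => ?_
  rcases lt_trichotomy i j with h | h | h
  · simp [h, h.ne, h.le]
  · simp [h]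
  · simp [h, h.ne', h.le]

lemma pair_sum_perm {M : ℕ} (g : Fin M → Fin M → ℝ) (hg : ∀ i j, g i j = g j i)
    (p : Equiv.Perm (Fin M)) :
    ∑ i, ∑ j ∈ Finset.Ioi i, g (p i) (p j) = ∑ i, ∑ j ∈ Finset.Ioi i, g i j := by
  have h1 := pair_sum (fun i j => g (p i) (p j)) (fun i j => hg _ _)
  have h2 := pair_sum g hg
  have h3 : ∑ i, ∑ j, (if i = j then 0 else g (p i) (p j)) =
      ∑ i, ∑ j, (if i = j then 0 else g i j) := by
    rw [← Equiv.sum_comp p (fun i => ∑ j, (if i = j then 0 else g i j))]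
    refine Finset.sum_congr rfl fun i _ => ?_
    rw [← Equiv.sum_comp p (fun j => (if p i = j then 0 else g (p i) j))]
    refine Finset.sum_congr rfl fun j _ => ?_
    simp
  linarith

lemma Cc_perm (K : ℕ) (y : ℕ → E3) {M : ℕ} (s : Fin M → ℕ) (p : Equiv.Perm (Fin M)) :
    Cc K y (fun i => s (p i)) = Cc K y s := by
  unfold Cc
  rw [pair_sum_perm (fun i j => 1 / dist (y (s i)) (y (s j))) (fun i j => by rw [dist_comm]) p]
  rw [Equiv.sum_comp p (fun i => Uc K y (s i))]

/-- Slater determinant of the orbitals `w`, all spins up. -/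
noncomputable def slater {M : ℕ} (w : Fin M → E3 → ℂ) (x : Fin M → E3) : ℂ :=
  Matrix.det (Matrix.of fun i j => w i (x j))

lemma slater_eq {M : ℕ} (w : Fin M → E3 → ℂ) (x : Fin M → E3) :
    slater w x = ∑ p : Equiv.Perm (Fin M),
      (((Equiv.Perm.sign p : ℤ) : ℂ)) * Pf (fun i => w (p i)) x := by
  unfold slater
  rw [Matrix.det_apply']
  rfl

lemma slater_perm {M : ℕ} (w : Fin M → E3 → ℂ) (x : Fin M → E3) (p : Equiv.Perm (Fin M)) :
    slater w (x ∘ p) = ((Equiv.Perm.sign p : ℤ) : ℂ) * slater w x := by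
  unfold slater
  exact Matrix.det_permute' p (Matrix.of fun i j => w i (x j))

lemma contDiff_slater {M : ℕ} {w : Fin M → E3 → ℂ} (hw : ∀ i, ContDiff ℝ ∞ (w i)) :
    ContDiff ℝ ∞ (slater w) := by
  have : slater w = fun x => ∑ p : Equiv.Perm (Fin M),
      (((Equiv.Perm.sign p : ℤ) : ℂ)) * Pf (fun i => w (p i)) x := funext fun x => slater_eq w x
  rw [this]
  exact ContDiff.sum fun p _ => contDiff_const.mul (contDiff_Pf fun i => hw (p i))

lemma hasCompactSupport_slater {M : ℕ} {w : Fin M → E3 → ℂ} {a : Fin M → E3} {ρ : ℝ}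
    (hs : ∀ i z, w i z ≠ 0 → dist z (a i) < ρ) : HasCompactSupport (slater w) := by
  apply HasCompactSupport.of_support_subset_isCompact
    (isCompact_univ_pi fun _ : Fin M => isCompact_iUnion fun k => isCompact_closedBall (a k) ρ)
  intro x hx i _
  have h : slater w x ≠ 0 := hx
  rw [slater_eq] at h
  obtain ⟨p, _, hp⟩ := Finset.exists_ne_zero_of_sum_ne_zero h
  have h1 := right_ne_zero_of_mul hp
  have h2 := Finset.prod_ne_zero_iff.mp h1 i (Finset.mem_univ i)
  exact Set.mem_iUnion.mpr ⟨p i, (hs (p i) _ h2).le⟩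

/-- spin-polarised wave function -/
noncomputable def polar {M : ℕ} (f : (Fin M → E3) → ℂ) (x : Fin M → E3) (σ : Fin M → Fin 2) : ℂ :=
  if σ = 0 then f x else 0

lemma isWave_slater {M : ℕ} {w : Fin M → E3 → ℂ} {a : Fin M → E3} {ρ : ℝ}
    (hw : ∀ i, ContDiff ℝ ∞ (w i)) (hs : ∀ i z, w i z ≠ 0 → dist z (a i) < ρ) :
    IsWave M (polar (slater w)) := by
  refine ⟨fun σ => ?_, fun σ => ?_, fun p x σ => ?_⟩
  · by_cases h : σ = 0
    · simpa [polar, h] using contDiff_slater hw
    · simpa [polar, h] using contDiff_const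
  · by_cases h : σ = 0
    · simpa [polar, h] using hasCompactSupport_slater hs
    · simp only [polar, h, if_false]
      exact HasCompactSupport.zero
  · have h1 : σ ∘ p = 0 ↔ σ = 0 := by
      constructor
      · intro h
        funext i
        have := congrFun h (p.symm i)
        simpa using this
      · intro h
        rw [h]
        rfl
    unfold polar
    by_cases h : σ = 0
    · rw [if_pos (h1.mpr h), if_pos h]
      exact slater_perm w x p
    · rw [if_neg (fun h' => h (h1.mp h')), if_neg h, mul_zero]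

lemma normSq_polar {M : ℕ} (f : (Fin M → E3) → ℂ) : normSq (polar f) = ∫ x, ‖f x‖ ^ 2 := by
  unfold normSq
  rw [Finset.sum_eq_single 0]
  · simp [polar]
  · intro σ _ hσ
    simp [polar, hσ]
  · simp

lemma edens_eq {K : ℕ} (R : ℕ → E3) {M : ℕ} (f : (Fin M → E3) → ℂ) (x : Fin M → E3) :
    1 / 2 * ∑ i, gradSq f i x + potential (fun k : Fin K => R k) (fun _ => 1) x * ‖f x‖ ^ 2 =
      edens K R f x := by
  unfold edens potential
  simp only [Finset.sum_range, Nat.cast_one]

lemma energy_eq {K : ℕ} (R : ℕ → E3) {M : ℕ} (ψ : (Fin M → E3) → (Fin M → Fin 2) → ℂ) :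
    energy (fun k : Fin K => R k) (fun _ => 1) ψ = ∑ σ, ∫ x, edens K R (fun y => ψ y σ) x := by
  unfold energy
  refine Finset.sum_congr rfl fun σ _ => ?_
  congr 1
  funext x
  exact edens_eq R (fun y => ψ y σ) x

lemma energy_polar {K : ℕ} (R : ℕ → E3) {M : ℕ} (f : (Fin M → E3) → ℂ) :
    energy (fun k : Fin K => R k) (fun _ => 1) (polar f) = ∫ x, edens K R f x := by
  rw [energy_eq, Finset.sum_eq_single 0]
  · simp [polar]
  · intro σ _ hσ
    simp [polar, hσ, edens, gradSq]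
  · simp

lemma gradSq_const_mul {M : ℕ} (f : (Fin M → E3) → ℂ) (c : ℝ) (i : Fin M) (x : Fin M → E3) :
    gradSq (fun y => (c : ℂ) * f y) i x = c ^ 2 * gradSq f i x := by
  unfold gradSq
  have h : fderiv ℝ (fun y => (c : ℂ) * f y) x = (c : ℂ) • fderiv ℝ f x :=
    congrFun (fderiv_const_smul_field (𝕜 := ℝ) (f := f) (c : ℂ)) x
  rw [h, Finset.mul_sum]
  refine Finset.sum_congr rfl fun j _ => ?_
  simp [mul_pow]

lemma edens_const_mul {K : ℕ} (R : ℕ → E3) {M : ℕ} (f : (Fin M → E3) → ℂ) (c : ℝ)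
    (x : Fin M → E3) : edens K R (fun y => (c : ℂ) * f y) x = c ^ 2 * edens K R f x := by
  unfold edens
  simp only [gradSq_const_mul, norm_mul, mul_pow, Complex.norm_real, Real.norm_eq_abs, sq_abs,
    ← Finset.mul_sum]
  ring

/-- the set of energies -/
def eset (K : ℕ) (R : ℕ → E3) (M : ℕ) : Set ℝ :=
  {e : ℝ | ∃ ψ : (Fin M → E3) → (Fin M → Fin 2) → ℂ,
    IsWave M ψ ∧ normSq ψ = 1 ∧ e = energy (fun k : Fin K => R k) (fun _ => 1) ψ}

lemma groundEnergy_eq (K : ℕ) (R : ℕ → E3) (M : ℕ) :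
    groundEnergy (fun k : Fin K => R k) (fun _ => 1) M = sInf (eset K R M) := rfl

lemma mem_eset_scaled {K : ℕ} {R : ℕ → E3} {M : ℕ} {ψ : (Fin M → E3) → (Fin M → Fin 2) → ℂ}
    (hψ : IsWave M ψ) {n : ℝ} (hn : 0 < n) (hψn : normSq ψ = n) :
    energy (fun k : Fin K => R k) (fun _ => 1) ψ / n ∈ eset K R M := by
  set c : ℝ := (√n)⁻¹ with hc
  have hc2 : c ^ 2 = n⁻¹ := by rw [hc, inv_pow, Real.sq_sqrt hn.le]
  refine ⟨fun x σ => (c : ℂ) * ψ x σ, ⟨fun σ => ?_, fun σ => ?_, fun p x σ => ?_⟩, ?_, ?_⟩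
  · exact contDiff_const.mul (hψ.smooth σ)
  · exact (hψ.compact σ).mul_left
  · rw [hψ.antisymm p x σ]
    ring
  · have : ∀ σ x, ‖(c : ℂ) * ψ x σ‖ ^ 2 = c ^ 2 * ‖ψ x σ‖ ^ 2 := by
      intro σ x
      simp [mul_pow]
    unfold normSq at hψn ⊢
    simp only [this, integral_const_mul]
    rw [← Finset.mul_sum, hψn, hc2]
    exact inv_mul_cancel₀ hn.ne'
  · rw [energy_eq, energy_eq]
    simp only [edens_const_mul, integral_const_mul]
    rw [← Finset.mul_sum, hc2]
    field_simp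

theorem eset_upper {K M : ℕ} {y : ℕ → E3} {t δ η : ℝ} (ht : 0 < t) (hδ : 0 < δ)
    (hδ' : δ ≤ 1 / 4) (hη : 0 < η)
    (hsep : ∀ k ∈ Finset.range K, ∀ l ∈ Finset.range K, k ≠ l → 1 ≤ dist (y k) (y l))
    {s : Fin M → ℕ} (hsK : ∀ i, s i ∈ Finset.range K) (hsi : Function.Injective s)
    (hne : (ballSet (δ * t)).Nonempty) :
    ∃ e ∈ eset K (fun k => t • y k) M,
      e ≤ M * (eb (δ * t) + η) + (Cc K y s + (K * M + 4 * M ^ 2) * δ) / t := by
  obtain ⟨u, hu, hus, hun, hue⟩ := exists_near_eb hne hη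
  set a : Fin M → E3 := fun i => t • y (s i) with ha
  set w : Fin M → E3 → ℂ := fun i z => u (z + -(a i)) with hw
  set B : ℝ := M * (eb (δ * t) + η) + (Cc K y s + (K * M + 4 * M ^ 2) * δ) / t with hB
  have hws : ∀ i, ContDiff ℝ ∞ (w i) := fun i => hu.comp (contDiff_id.add contDiff_const)
  have hwsup : ∀ i z, w i z ≠ 0 → dist z (a i) < δ * t := by
    intro i z hz
    have := hus _ hz
    rwa [dist_zero_right, ← sub_eq_add_neg, ← dist_eq_norm] at this
  have hwn : ∀ i, ∫ z, ‖w i z‖ ^ 2 = 1 := by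
    intro i
    rw [← hun]
    exact integral_add_right_eq_self (fun z => ‖u z‖ ^ 2) (-(a i))
  have hwe : ∀ i, hform (w i) (a i) ≤ eb (δ * t) + η := by
    intro i
    have : hform (w i) (a i) = hform u 0 := by
      rw [hw, hform_comp_add, add_neg_cancel]
    rw [this]
    exact hue
  set P : Equiv.Perm (Fin M) → (Fin M → E3) → ℂ := fun p => Pf (fun i => w (p i)) with hP
  have hPs : ∀ p, ContDiff ℝ ∞ (P p) := fun p => contDiff_Pf fun i => hws (p i)
  have hPc : ∀ p, HasCompactSupport (P p) := fun p =>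
    hasCompactSupport_Pf (a := fun i => a (p i)) fun i z hz => hwsup (p i) z hz
  have hdisj : ∀ p q, p ≠ q → Disjoint (tsupport (P p)) (tsupport (P q)) := by
    intro p q hpq
    have hex : ∃ i, p i ≠ q i := by
      by_contra h
      push Not at h
      exact hpq (Equiv.ext h)
    obtain ⟨i, hi⟩ := hex
    rw [Set.disjoint_left]
    intro x hxp hxq
    have h1 := tsupport_Pf_subset (a := fun i => a (p i)) (fun i z hz => hwsup (p i) z hz) hxp i
      (Set.mem_univ i)
    have h2 := tsupport_Pf_subset (a := fun i => a (q i)) (fun i z hz => hwsup (q i) z hz) hxq i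
      (Set.mem_univ i)
    have h3 : dist (x i) (a (p i)) ≤ δ * t := h1
    have h4 : dist (x i) (a (q i)) ≤ δ * t := h2
    have h5 := dist_triangle (a (p i)) (x i) (a (q i))
    rw [dist_comm (a (p i)) (x i)] at h5
    have h6 : dist (a (p i)) (a (q i)) = t * dist (y (s (p i))) (y (s (q i))) :=
      dist_smul_smul ht _ _
    have h7 := hsep _ (hsK (p i)) _ (hsK (q i)) (fun h => hi (hsi h))
    rw [h6] at h5
    nlinarith
  have hsign : ∀ p : Equiv.Perm (Fin M), ‖(((Equiv.Perm.sign p : ℤ) : ℂ))‖ = 1 := by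
    intro p
    rcases Int.units_eq_one_or (Equiv.Perm.sign p) with h | h <;> simp [h]
  have hds := disjoint_sum (P := P) hsign hdisj
  have hsl : slater w = fun x => ∑ p : Equiv.Perm (Fin M),
      (((Equiv.Perm.sign p : ℤ) : ℂ)) * P p x := funext fun x => slater_eq w x
  have hns : ∀ x, ‖slater w x‖ ^ 2 = ∑ p, ‖P p x‖ ^ 2 := by
    intro x
    rw [hsl]
    exact (hds x).1
  have hgs : ∀ i x, gradSq (slater w) i x = ∑ p, gradSq (P p) i x := by
    intro i x
    rw [hsl]
    exact (hds x).2 i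
  have hed : ∀ x, edens K (fun k => t • y k) (slater w) x =
      ∑ p, edens K (fun k => t • y k) (P p) x := by
    intro x
    unfold edens
    simp only [hns, hgs]
    rw [Finset.sum_add_distrib, ← Finset.mul_sum, ← Finset.mul_sum, Finset.sum_comm]
  have hn : normSq (polar (slater w)) = (Fintype.card (Equiv.Perm (Fin M)) : ℝ) := by
    rw [normSq_polar]
    simp only [hns]
    rw [integral_finsetSum _ fun p _ => integrable_normSqN (hPs p).continuous (hPc p)]
    rw [Finset.sum_congr rfl fun p _ => integral_normSq_Pf fun j => hwn (p j)]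
    simp
  have hcard : (0 : ℝ) < (Fintype.card (Equiv.Perm (Fin M)) : ℝ) := by
    exact_mod_cast Fintype.card_pos
  have hen : energy (fun k : Fin K => t • y k) (fun _ => 1) (polar (slater w)) ≤
      (Fintype.card (Equiv.Perm (Fin M)) : ℝ) * B := by
    have e1 := energy_polar (K := K) (fun k => t • y k) (slater w)
    rw [e1]
    simp only [hed]
    rw [integral_finsetSum _ fun p _ => integrable_edens (hPs p) (hPc p)]
    calc ∑ p, ∫ x, edens K (fun k => t • y k) (P p) x ≤ ∑ _p : Equiv.Perm (Fin M), B := by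
          apply Finset.sum_le_sum
          intro p _
          have := energy_Pf_le (s := fun i => s (p i)) (w := fun i => w (p i)) ht hδ hδ' hsep
            (fun i => hsK (p i)) (fun i j h => p.injective (hsi h)) (fun i => hws (p i))
            (fun i z hz => hwsup (p i) z hz) (fun j => hwn (p j)) (fun i => hwe (p i))
          rw [Cc_perm] at this
          exact this
      _ = _ := by
          simp
  have hmem := mem_eset_scaled (K := K) (R := fun k => t • y k)
    (isWave_slater hws hwsup) hcard hn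
  refine ⟨_, hmem, ?_⟩
  rw [div_le_iff₀ hcard]
  linarith

theorem eset_lower {K M : ℕ} {y : ℕ → E3} {t δ c0 Um F : ℝ} (ht : 0 < t) (hδ : 0 < δ)
    (hδ' : δ ≤ 1 / 4)
    (hsep : ∀ k ∈ Finset.range K, ∀ l ∈ Finset.range K, k ≠ l → 1 ≤ dist (y k) (y l))
    (hU : ∀ k ∈ Finset.range K, Uc K y k ≤ Um) (hUm : 0 ≤ Um) (hF0 : F ≤ 0)
    (hF : ∀ s : Fin M → ℕ, (∀ i, s i ∈ Finset.range K) → Function.Injective s → F ≤ Cc K y s)
    (heb : eb (δ * t) ≤ -c0)
    (h1 : 2 * K / (δ * t) + M * ((Um + 2 * K * δ) / t) ≤ c0)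
    (h2 : M * (Um + 2 * K * δ) ≤ 1 / (2 * δ)) :
    ∀ e ∈ eset K (fun k => t • y k) M,
      M * eb (δ * t) + (F - (2 * K * M + 2 * M ^ 2) * δ) / t -
      M * (K * (CB / (δ * t) ^ 2) / 2) ≤ e := by
  rintro e ⟨ψ, hψ, hn, rfl⟩
  set L : ℝ := M * eb (δ * t) + (F - (2 * K * M + 2 * M ^ 2) * δ) / t -
      M * (K * (CB / (δ * t) ^ 2) / 2) with hL
  have hρ : 0 < δ * t := mul_pos hδ ht
  have hA := Ac_spec (K := K) (y := y) ht hδ hδ' hsep
  have hA0 : ∀ k ∈ Finset.range K, 2 * K / (δ * t) ≤ Ac K y t δ k - eb (δ * t) := by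
    intro k _
    have h3 : 0 ≤ Ac K y t δ k := by
      apply div_nonneg _ ht.le
      have := Uc_nonneg K y k
      positivity
    have h4 : 0 ≤ M * ((Um + 2 * K * δ) / t) := by positivity
    linarith
  have hpt := classical_lower (M := M) ht hδ hδ' hsep hU hUm hF0 hF heb h1 h2
  have key : ∀ σ, L * (∫ x, ‖ψ x σ‖ ^ 2) ≤
      ∫ x, edens K (fun k => t • y k) (fun y => ψ y σ) x := fun σ =>
    manyBody_lower (R := fun k => t • y k) hρ hA hA0 hpt (hψ.smooth σ) (hψ.compact σ)
  have e1 := energy_eq (K := K) (fun k => t • y k) ψ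
  rw [e1]
  calc L = L * normSq ψ := by rw [hn, mul_one]
    _ = ∑ σ, L * (∫ x, ‖ψ x σ‖ ^ 2) := by
        unfold normSq
        rw [Finset.mul_sum]
    _ ≤ _ := Finset.sum_le_sum fun σ _ => key σ

end Pool.Agent.Lib.MP_9fcec4_mp
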