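import Pool.Agent.Lib.MP_9fcec4_mp.OneBody

open MeasureTheory Filter Topology
open scoped ContDiff

namespace Pool.Agent.Lib.MP_9fcec4_mp

/-- squared gradient of a real function -/
noncomputable def rsq (b : E3 → ℝ) (x : E3) : ℝ := ∑ c : Fin 3, (fderiv ℝ b x (ed c)) ^ 2

lemma rotate_sq (s c : ℝ) (h : s ^ 2 + c ^ 2 = 1) (u v : ℂ) :
    ‖(c : ℂ) * u + (s : ℂ) * v‖ ^ 2 + ‖-(s : ℂ) * u + (c : ℂ) * v‖ ^ 2 = ‖u‖ ^ 2 + ‖v‖ ^ 2 := by
  simp only [Complex.sq_norm, Complex.normSq_apply]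
  simp
  linear_combination (u.re ^ 2 + u.im ^ 2 + v.re ^ 2 + v.im ^ 2) * h

lemma ims_two {b : E3 → ℝ} {g : E3 → ℂ} (hb : ContDiff ℝ 1 b) (hg : ContDiff ℝ 1 g) (x : E3) :
    gsq (fun y => ((Real.sin (b y) : ℝ) : ℂ) * g y) x +
      gsq (fun y => ((Real.cos (b y) : ℝ) : ℂ) * g y) x = gsq g x + rsq b x * ‖g x‖ ^ 2 := by
  have hbx := ((hb.differentiable (by norm_num)) x).hasFDerivAt
  have hgx := ((hg.differentiable (by norm_num)) x).hasFDerivAt
  have hs0 : HasFDerivAt (fun y => ((Real.sin (b y) : ℝ) : ℂ))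
      (Complex.ofRealCLM.comp (Real.cos (b x) • fderiv ℝ b x)) x :=
    Complex.ofRealCLM.hasFDerivAt.comp x hbx.sin
  have hc0 : HasFDerivAt (fun y => ((Real.cos (b y) : ℝ) : ℂ))
      (Complex.ofRealCLM.comp (-Real.sin (b x) • fderiv ℝ b x)) x :=
    Complex.ofRealCLM.hasFDerivAt.comp x hbx.cos
  have hs : HasFDerivAt (fun y => ((Real.sin (b y) : ℝ) : ℂ) * g y) _ x := hs0.mul hgx
  have hc : HasFDerivAt (fun y => ((Real.cos (b y) : ℝ) : ℂ) * g y) _ x := hc0.mul hgx
  unfold gsq rsq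
  rw [Finset.sum_mul, ← Finset.sum_add_distrib, ← Finset.sum_add_distrib]
  refine Finset.sum_congr rfl fun i _ => ?_
  have e1 : fderiv ℝ (fun y => ((Real.sin (b y) : ℝ) : ℂ) * g y) x (ed i) =
      (Real.cos (b x) : ℂ) * ((fderiv ℝ b x (ed i) : ℂ) * g x) +
        (Real.sin (b x) : ℂ) * fderiv ℝ g x (ed i) := by
    rw [hs.fderiv]
    simp
    ring
  have e2 : fderiv ℝ (fun y => ((Real.cos (b y) : ℝ) : ℂ) * g y) x (ed i) =
      -(Real.sin (b x) : ℂ) * ((fderiv ℝ b x (ed i) : ℂ) * g x) +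
        (Real.cos (b x) : ℂ) * fderiv ℝ g x (ed i) := by
    rw [hc.fderiv]
    simp
    ring
  rw [e1, e2, rotate_sq _ _ (Real.sin_sq_add_cos_sq (b x))]
  rw [norm_mul, mul_pow, Complex.norm_real]
  simp
  ring

/-- product of the outer cutoffs -/
noncomputable def W (b : ℕ → E3 → ℝ) (n : ℕ) (x : E3) : ℝ :=
  ∏ k ∈ Finset.range n, Real.cos (b k x)

lemma contDiff_W {b : ℕ → E3 → ℝ} (hb : ∀ k, ContDiff ℝ ∞ (b k)) (n : ℕ) :
    ContDiff ℝ ∞ (W b n) :=
  contDiff_prod fun k _ => (hb k).cos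

lemma W_succ (b : ℕ → E3 → ℝ) (n : ℕ) (x : E3) : W b (n + 1) x = W b n x * Real.cos (b n x) := by
  simp [W, Finset.prod_range_succ]

lemma W_sq_le_one (b : ℕ → E3 → ℝ) (n : ℕ) (x : E3) : (W b n x) ^ 2 ≤ 1 := by
  unfold W
  rw [← Finset.prod_pow]
  apply Finset.prod_le_one
  · intro i _
    positivity
  · intro i _
    exact Real.cos_sq_le_one _

lemma sum_cutoff_sq (b : ℕ → E3 → ℝ) (n : ℕ) (x : E3) :
    ∑ k ∈ Finset.range n, (Real.sin (b k x) * W b k x) ^ 2 + (W b n x) ^ 2 = 1 := by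
  induction n with
  | zero => simp [W]
  | succ n ih =>
    rw [Finset.sum_range_succ, W_succ]
    have h := Real.sin_sq_add_cos_sq (b n x)
    linear_combination ih + (W b n x) ^ 2 * h

lemma ims_many {b : ℕ → E3 → ℝ} {g : E3 → ℂ} (hb : ∀ k, ContDiff ℝ ∞ (b k))
    (hg : ContDiff ℝ ∞ g) (n : ℕ) (x : E3) :
    gsq g x = ∑ k ∈ Finset.range n,
        gsq (fun y => ((Real.sin (b k y) * W b k y : ℝ) : ℂ) * g y) x +
      gsq (fun y => ((W b n y : ℝ) : ℂ) * g y) x -
      ∑ k ∈ Finset.range n, rsq (b k) x * ((W b k x) ^ 2 * ‖g x‖ ^ 2) := by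
  induction n with
  | zero => simp [W]
  | succ n ih =>
    rw [Finset.sum_range_succ, Finset.sum_range_succ, ih]
    have hW : ContDiff ℝ 1 (fun y => ((W b n y : ℝ) : ℂ) * g y) := by
      apply ContDiff.of_le _ (show (1 : WithTop ℕ∞) ≤ ∞ by exact_mod_cast le_top)
      exact (Complex.ofRealCLM.contDiff.comp (contDiff_W hb n)).mul hg
    have h := ims_two ((hb n).of_le (by exact_mod_cast le_top)) hW x
    have e1 : (fun y => ((Real.sin (b n y) : ℝ) : ℂ) * (((W b n y : ℝ) : ℂ) * g y)) =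
        (fun y => ((Real.sin (b n y) * W b n y : ℝ) : ℂ) * g y) := by
      funext y
      push_cast
      ring
    have e2 : (fun y => ((Real.cos (b n y) : ℝ) : ℂ) * (((W b n y : ℝ) : ℂ) * g y)) =
        (fun y => ((W b (n + 1) y : ℝ) : ℂ) * g y) := by
      funext y
      rw [W_succ]
      push_cast
      ring
    have e3 : ‖((W b n x : ℝ) : ℂ) * g x‖ ^ 2 = (W b n x) ^ 2 * ‖g x‖ ^ 2 := by
      rw [norm_mul, mul_pow, Complex.norm_real]
      simp
    rw [e1, e2, e3] at h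
    linarith

/-- angle function of the cutoff at `a` on scale `ρ` -/
noncomputable def ang (ρ : ℝ) (a : E3) (x : E3) : ℝ := Real.pi / 2 * bump ((2 / ρ) • (x - a))

lemma contDiff_ang (ρ : ℝ) (a : E3) : ContDiff ℝ ∞ (ang ρ a) := by
  unfold ang
  apply contDiff_const.mul
  apply bump.contDiff.comp
  exact (contDiff_const_smul (2 / ρ)).comp (contDiff_id.sub contDiff_const)

lemma sin_ang_ne {ρ : ℝ} (hρ : 0 < ρ) {a x : E3} (h : Real.sin (ang ρ a x) ≠ 0) :
    dist x a < ρ := by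
  by_contra hd
  push Not at hd
  apply h
  have : bump ((2 / ρ) • (x - a)) = 0 := by
    apply bump.zero_of_le_dist
    rw [dist_zero_right, norm_smul, Real.norm_of_nonneg (by positivity), ← dist_eq_norm]
    have : (2 / ρ) * ρ ≤ 2 / ρ * dist x a := mul_le_mul_of_nonneg_left hd (by positivity)
    have e : (2 / ρ) * ρ = 2 := by field_simp
    rw [e] at this
    simpa [bump] using this
  simp [ang, this]

lemma cos_ang_ne {ρ : ℝ} (hρ : 0 < ρ) {a x : E3} (h : Real.cos (ang ρ a x) ≠ 0) :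
    ρ / 2 < dist x a := by
  by_contra hd
  push Not at hd
  apply h
  have : bump ((2 / ρ) • (x - a)) = 1 := by
    apply bump.one_of_mem_closedBall
    rw [Metric.mem_closedBall, dist_zero_right, norm_smul, Real.norm_of_nonneg (by positivity),
      ← dist_eq_norm]
    have : (2 / ρ) * dist x a ≤ 2 / ρ * (ρ / 2) := mul_le_mul_of_nonneg_left hd (by positivity)
    have e : (2 / ρ) * (ρ / 2) = 1 := by field_simp
    rw [e] at this
    simpa [bump] using this
  simp [ang, this]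

lemma exists_rsq_bump_bound : ∃ C : ℝ, ∀ x, rsq (fun y => bump y) x ≤ C := by
  have h1 : ContDiff ℝ 1 (fun y : E3 => bump y) := bump.contDiff
  have h2 : Continuous (rsq (fun y => bump y)) := by
    unfold rsq
    have h := h1.continuous_fderiv (by norm_num)
    fun_prop
  have h3 : HasCompactSupport (rsq (fun y => bump y)) := by
    have h := bump.hasCompactSupport.fderiv ℝ
    apply h.mono
    intro x hx
    rw [Function.mem_support] at hx ⊢
    intro h0
    apply hx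
    have h0' : fderiv ℝ (fun y => bump y) x = 0 := h0
    simp [rsq, h0']
  obtain ⟨C, hC⟩ := h3.exists_bound_of_continuous h2
  exact ⟨C, fun x => (le_abs_self _).trans (hC x)⟩

/-- constant of the localisation error -/
noncomputable def CB : ℝ := Real.pi ^ 2 * exists_rsq_bump_bound.choose

lemma rsq_nonneg (b : E3 → ℝ) (x : E3) : 0 ≤ rsq b x := Finset.sum_nonneg fun _ _ => sq_nonneg _

lemma CB_nonneg : 0 ≤ CB := by
  have := exists_rsq_bump_bound.choose_spec 0
  have h := rsq_nonneg (fun y => bump y) 0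
  unfold CB
  have : 0 ≤ exists_rsq_bump_bound.choose := h.trans this
  positivity

lemma fderiv_scaled {β : E3 → ℝ} (hβ : Differentiable ℝ β) (c d : ℝ) (a x v : E3) :
    fderiv ℝ (fun y => c * β (d • (y - a))) x v = c * (d * fderiv ℝ β (d • (x - a)) v) := by
  have hx := (hβ (d • (x - a))).hasFDerivAt
  have h2 : HasFDerivAt (fun y : E3 => d • (y - a)) (d • ContinuousLinearMap.id ℝ E3) x :=
    ((hasFDerivAt_id x).sub_const a).const_smul d
  have h3 : HasFDerivAt (fun y : E3 => β (d • (y - a))) _ x := hx.comp x h2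
  have h4 : HasFDerivAt (fun y : E3 => c * β (d • (y - a))) _ x := h3.const_mul c
  rw [h4.fderiv]
  simp

lemma rsq_ang_le {ρ : ℝ} (hρ : 0 < ρ) (a x : E3) : rsq (ang ρ a) x ≤ CB / ρ ^ 2 := by
  have h1 : ContDiff ℝ 1 (fun y : E3 => bump y) := bump.contDiff
  have hd : ∀ v, fderiv ℝ (ang ρ a) x v =
      Real.pi / 2 * ((2 / ρ) * fderiv ℝ (fun y => bump y) ((2 / ρ) • (x - a)) v) := by
    intro v
    exact fderiv_scaled (h1.differentiable (by norm_num)) (Real.pi / 2) (2 / ρ) a x v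
  have hb := exists_rsq_bump_bound.choose_spec ((2 / ρ) • (x - a))
  have e : rsq (ang ρ a) x = Real.pi ^ 2 / ρ ^ 2 * rsq (fun y => bump y) ((2 / ρ) • (x - a)) := by
    unfold rsq
    rw [Finset.mul_sum]
    refine Finset.sum_congr rfl fun i _ => ?_
    rw [hd]
    field_simp
  rw [e, CB]
  have : 0 ≤ Real.pi ^ 2 / ρ ^ 2 := by positivity
  calc Real.pi ^ 2 / ρ ^ 2 * rsq (fun y => bump y) ((2 / ρ) • (x - a))
      ≤ Real.pi ^ 2 / ρ ^ 2 * exists_rsq_bump_bound.choose := mul_le_mul_of_nonneg_left hb this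
    _ = _ := by ring

/-- (minus) the effective one-body potential after localisation -/
noncomputable def vneg (K : ℕ) (R : ℕ → E3) (ρ : ℝ) (A : ℕ → ℝ) (x : E3) : ℝ :=
  2 * K / ρ + K * (CB / ρ ^ 2) / 2 +
    ∑ k ∈ Finset.range K, (Metric.ball (R k) ρ).indicator (fun _ => A k - eb ρ - 2 * K / ρ) x

lemma measurable_vneg (K : ℕ) (R : ℕ → E3) (ρ : ℝ) (A : ℕ → ℝ) : Measurable (vneg K R ρ A) := by
  unfold vneg
  apply Measurable.const_add
  apply Finset.measurable_fun_sum
  intro k _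
  exact measurable_const.indicator measurableSet_ball

lemma hasCompactSupport_normSq {g : E3 → ℂ} (hc : HasCompactSupport g) :
    HasCompactSupport (fun x => ‖g x‖ ^ 2) := by
  apply hc.mono
  intro x hx
  rw [Function.mem_support] at hx ⊢
  intro h0
  apply hx
  simp [h0]

lemma integrable_vneg {K : ℕ} {R : ℕ → E3} {ρ : ℝ} {A : ℕ → ℝ} {g : E3 → ℂ}
    (hg : Continuous g) (hc : HasCompactSupport g) :
    Integrable (fun x => vneg K R ρ A x * ‖g x‖ ^ 2) := by
  have hI := integrable_normSq hg hc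
  unfold vneg
  simp only [add_mul, Finset.sum_mul]
  refine ((hI.const_mul _).add (hI.const_mul _)).add (integrable_finsetSum _ fun k _ => ?_)
  have : (fun x => (Metric.ball (R k) ρ).indicator (fun _ => A k - eb ρ - 2 * K / ρ) x *
      ‖g x‖ ^ 2) = (Metric.ball (R k) ρ).indicator
        (fun x => (A k - eb ρ - 2 * K / ρ) * ‖g x‖ ^ 2) := by
    funext x
    by_cases hx : x ∈ Metric.ball (R k) ρ <;> simp [Set.indicator, hx]
  rw [this]
  exact (hI.const_mul _).indicator measurableSet_ball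

theorem oneBody_lower {K : ℕ} {R : ℕ → E3} {ρ : ℝ} (hρ : 0 < ρ) {A : ℕ → ℝ}
    (hA : ∀ k ∈ Finset.range K, ∀ x, dist x (R k) < ρ →
      ∑ l ∈ (Finset.range K).erase k, 1 / dist x (R l) ≤ A k)
    (hA0 : ∀ k ∈ Finset.range K, 2 * K / ρ ≤ A k - eb ρ)
    {g : E3 → ℂ} (hg : ContDiff ℝ ∞ g) (hc : HasCompactSupport g) :
    ∫ x, ∑ k ∈ Finset.range K, ‖g x‖ ^ 2 / dist x (R k) ≤
      1 / 2 * (∫ x, gsq g x) + ∫ x, vneg K R ρ A x * ‖g x‖ ^ 2 := by
  have h1i : (1 : WithTop ℕ∞) ≤ ∞ := by exact_mod_cast le_top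
  set b : ℕ → E3 → ℝ := fun k => ang ρ (R k) with hb
  have hbs : ∀ k, ContDiff ℝ ∞ (b k) := fun k => contDiff_ang ρ (R k)
  set S : ℕ → E3 → ℝ := fun k y => Real.sin (b k y) * W b k y with hS
  have hSs : ∀ k, ContDiff ℝ ∞ (S k) := fun k => ((hbs k).sin).mul (contDiff_W hbs k)
  have hWs : ContDiff ℝ ∞ (W b K) := contDiff_W hbs K
  set G : ℕ → E3 → ℂ := fun k y => ((S k y : ℝ) : ℂ) * g y with hG
  have hGs : ∀ k, ContDiff ℝ ∞ (G k) := fun k =>
    (Complex.ofRealCLM.contDiff.comp (hSs k)).mul hg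
  have hGc : ∀ k, HasCompactSupport (G k) := fun k => hc.mul_left
  set G' : E3 → ℂ := fun y => ((W b K y : ℝ) : ℂ) * g y with hG'
  have hG's : ContDiff ℝ ∞ G' := (Complex.ofRealCLM.contDiff.comp hWs).mul hg
  have hG'c : HasCompactSupport G' := hc.mul_left
  have hGn : ∀ k x, ‖G k x‖ ^ 2 = (S k x) ^ 2 * ‖g x‖ ^ 2 := by
    intro k x
    simp only [hG, norm_mul, mul_pow, Complex.norm_real, Real.norm_eq_abs, sq_abs]
  have hsum : ∀ x, ∑ k ∈ Finset.range K, (S k x) ^ 2 + (W b K x) ^ 2 = 1 :=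
    fun x => sum_cutoff_sq b K x
  have hSne : ∀ k x, S k x ≠ 0 → dist x (R k) < ρ := fun k x h =>
    sin_ang_ne hρ (left_ne_zero_of_mul h)
  have hSle : ∀ k x, (S k x) ^ 2 ≤ 1 := by
    intro k x
    have h1 := Real.sin_sq_le_one (b k x)
    have h2 := W_sq_le_one b k x
    have h3 : (S k x) ^ 2 = Real.sin (b k x) ^ 2 * (W b k x) ^ 2 := by simp only [hS, mul_pow]
    rw [h3]
    exact mul_le_one₀ h1 (sq_nonneg _) h2
  have hI := integrable_normSq hg.continuous hc
  have hIG : ∀ k, Integrable (fun x => ‖G k x‖ ^ 2) := fun k =>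
    integrable_normSq (hGs k).continuous (hGc k)
  -- kinetic lower bound
  have hkin : ∀ x, ∑ k ∈ Finset.range K, gsq (G k) x - K * (CB / ρ ^ 2) * ‖g x‖ ^ 2 ≤
      gsq g x := by
    intro x
    have h := ims_many hbs hg K x
    have h2 : ∑ k ∈ Finset.range K, rsq (b k) x * ((W b k x) ^ 2 * ‖g x‖ ^ 2) ≤
        K * (CB / ρ ^ 2) * ‖g x‖ ^ 2 := by
      calc ∑ k ∈ Finset.range K, rsq (b k) x * ((W b k x) ^ 2 * ‖g x‖ ^ 2)
          ≤ ∑ k ∈ Finset.range K, (CB / ρ ^ 2) * ‖g x‖ ^ 2 := by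
            apply Finset.sum_le_sum
            intro k _
            apply mul_le_mul (rsq_ang_le hρ (R k) x) _ (by positivity)
              (div_nonneg CB_nonneg (by positivity))
            have := W_sq_le_one b k x
            nlinarith [sq_nonneg ‖g x‖]
        _ = _ := by
            rw [Finset.sum_const, Finset.card_range, nsmul_eq_mul]
            ring
    have h3 : 0 ≤ gsq G' x := gsq_nonneg _ _
    have h4 : gsq g x = ∑ k ∈ Finset.range K, gsq (G k) x + gsq G' x -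
      ∑ k ∈ Finset.range K, rsq (b k) x * ((W b k x) ^ 2 * ‖g x‖ ^ 2) := h
    linarith
  have hIgsq : ∀ k, Integrable (gsq (G k)) := fun k =>
    integrable_gsq ((hGs k).of_le h1i) (hGc k)
  have hkin2 : ∑ k ∈ Finset.range K, (∫ x, gsq (G k) x) -
      K * (CB / ρ ^ 2) * (∫ x, ‖g x‖ ^ 2) ≤ ∫ x, gsq g x := by
    have := integral_mono (((integrable_finsetSum _ fun k _ => hIgsq k)).sub
      (hI.const_mul (K * (CB / ρ ^ 2)))) (integrable_gsq (hg.of_le h1i) hc) hkin
    simp only [Pi.sub_apply] at this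
    rw [integral_sub (integrable_finsetSum _ fun k _ => hIgsq k) (hI.const_mul _),
      integral_finsetSum _ (fun k _ => hIgsq k), integral_const_mul] at this
    exact this
  -- ball energies
  have hball : ∀ k, ∫ x, ‖G k x‖ ^ 2 / dist x (R k) ≤
      1 / 2 * (∫ x, gsq (G k) x) - eb ρ * ∫ x, ‖G k x‖ ^ 2 := by
    intro k
    have := eb_le_hform (hGs k) (R k) (fun x hx => hSne k x (by
      intro h0
      apply hx
      simp [hG, h0]))
    unfold hform at this
    linarith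
  -- the potential
  set P : E3 → ℝ := fun x => ∑ k ∈ Finset.range K, A k * (S k x) ^ 2 +
    (2 * K / ρ) * (W b K x) ^ 2 with hP
  have hPc : Continuous P := by
    have h1 := hWs.continuous
    have h2 := fun k => (hSs k).continuous
    apply Continuous.add
    · exact continuous_finsetSum _ fun k _ => continuous_const.mul ((h2 k).pow 2)
    · exact continuous_const.mul (h1.pow 2)
  have hpot : ∀ x, ∑ k ∈ Finset.range K, ‖g x‖ ^ 2 / dist x (R k) ≤
      ∑ k ∈ Finset.range K, ‖G k x‖ ^ 2 / dist x (R k) + P x * ‖g x‖ ^ 2 := by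
    intro x
    set V : ℝ := ∑ k ∈ Finset.range K, 1 / dist x (R k) with hV
    have e0 : ∑ k ∈ Finset.range K, ‖g x‖ ^ 2 / dist x (R k) = V * ‖g x‖ ^ 2 := by
      rw [hV, Finset.sum_mul]
      refine Finset.sum_congr rfl fun k _ => ?_
      ring
    have e1 : ∑ k ∈ Finset.range K, ‖G k x‖ ^ 2 / dist x (R k) =
        (∑ k ∈ Finset.range K, (S k x) ^ 2 * (1 / dist x (R k))) * ‖g x‖ ^ 2 := by
      rw [Finset.sum_mul]
      refine Finset.sum_congr rfl fun k _ => ?_
      rw [hGn]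
      ring
    rw [e0, e1, ← add_mul]
    apply mul_le_mul_of_nonneg_right _ (by positivity)
    have e2 : V = ∑ k ∈ Finset.range K, V * (S k x) ^ 2 + V * (W b K x) ^ 2 := by
      rw [← Finset.mul_sum, ← mul_add, hsum, mul_one]
    rw [e2, hP, ← add_assoc, ← Finset.sum_add_distrib]
    apply add_le_add
    · apply Finset.sum_le_sum
      intro k hk
      by_cases h0 : S k x = 0
      · simp [h0]
      · have h1 := hA k hk x (hSne k x h0)
        have h2 : V = 1 / dist x (R k) + ∑ l ∈ (Finset.range K).erase k, 1 / dist x (R l) := by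
          rw [hV]
          exact (Finset.add_sum_erase _ (fun k => 1 / dist x (R k)) hk).symm
        have h3 : V ≤ 1 / dist x (R k) + A k := by linarith
        nlinarith [sq_nonneg (S k x)]
    · by_cases h0 : W b K x = 0
      · simp [h0]
      · apply mul_le_mul_of_nonneg_right _ (sq_nonneg _)
        have h1 : ∀ k ∈ Finset.range K, 1 / dist x (R k) ≤ 2 / ρ := by
          intro k hk
          have h2 : Real.cos (b k x) ≠ 0 := by
            have h3 : ∏ k ∈ Finset.range K, Real.cos (b k x) ≠ 0 := h0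
            exact (Finset.prod_ne_zero_iff.mp h3) k hk
          have h3 := cos_ang_ne hρ h2
          rw [div_le_div_iff₀ (by linarith) hρ]
          linarith
        calc V ≤ ∑ k ∈ Finset.range K, 2 / ρ := Finset.sum_le_sum h1
          _ = 2 * K / ρ := by
            rw [Finset.sum_const, Finset.card_range, nsmul_eq_mul]
            ring
  have hIdist : ∀ k, Integrable (fun x => ‖G k x‖ ^ 2 / dist x (R k)) := fun k =>
    integrable_div_dist (hGs k).continuous (hGc k) (R k)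
  have hIP : Integrable (fun x => P x * ‖g x‖ ^ 2) :=
    (hPc.mul (hg.continuous.norm.pow 2)).integrable_of_hasCompactSupport
      (hasCompactSupport_normSq hc).mul_left
  have hpot2 : ∫ x, ∑ k ∈ Finset.range K, ‖g x‖ ^ 2 / dist x (R k) ≤
      ∑ k ∈ Finset.range K, (∫ x, ‖G k x‖ ^ 2 / dist x (R k)) + ∫ x, P x * ‖g x‖ ^ 2 := by
    have := integral_mono (integrable_finsetSum _ fun k _ =>
      integrable_div_dist hg.continuous hc (R k))
      ((integrable_finsetSum _ fun k _ => hIdist k).add hIP) hpot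
    simp only [Pi.add_apply] at this
    rw [integral_add (integrable_finsetSum _ fun k _ => hIdist k) hIP,
      integral_finsetSum _ (fun k _ => hIdist k)] at this
    exact this
  have hsumball : ∑ k ∈ Finset.range K, (∫ x, ‖G k x‖ ^ 2 / dist x (R k)) ≤
      1 / 2 * (∑ k ∈ Finset.range K, ∫ x, gsq (G k) x) -
        ∑ k ∈ Finset.range K, eb ρ * ∫ x, ‖G k x‖ ^ 2 := by
    rw [Finset.mul_sum, ← Finset.sum_sub_distrib]
    exact Finset.sum_le_sum fun k _ => hball k
  have hfin : (∫ x, P x * ‖g x‖ ^ 2) - (∑ k ∈ Finset.range K, eb ρ * (∫ x, ‖G k x‖ ^ 2)) +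
      1 / 2 * (K * (CB / ρ ^ 2) * ∫ x, ‖g x‖ ^ 2) ≤ ∫ x, vneg K R ρ A x * ‖g x‖ ^ 2 := by
    have hIe : ∀ k ∈ Finset.range K, Integrable (fun x => eb ρ * ‖G k x‖ ^ 2) := fun k _ =>
      (hIG k).const_mul _
    have hIc : Integrable (fun x => 1 / 2 * (K * (CB / ρ ^ 2) * ‖g x‖ ^ 2)) :=
      (hI.const_mul _).const_mul _
    have e1 : (∑ k ∈ Finset.range K, eb ρ * (∫ x, ‖G k x‖ ^ 2)) =
        ∫ x, ∑ k ∈ Finset.range K, eb ρ * ‖G k x‖ ^ 2 := by
      rw [integral_finsetSum _ hIe]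
      refine Finset.sum_congr rfl fun k _ => ?_
      rw [integral_const_mul]
    have e2 : 1 / 2 * (K * (CB / ρ ^ 2) * ∫ x, ‖g x‖ ^ 2) =
        ∫ x, 1 / 2 * (K * (CB / ρ ^ 2) * ‖g x‖ ^ 2) := by
      rw [integral_const_mul, integral_const_mul]
    have hIs : Integrable (fun x => ∑ k ∈ Finset.range K, eb ρ * ‖G k x‖ ^ 2) :=
      integrable_finsetSum _ hIe
    have hId : Integrable (fun x => P x * ‖g x‖ ^ 2 -
        ∑ k ∈ Finset.range K, eb ρ * ‖G k x‖ ^ 2) := hIP.sub hIs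
    rw [e1, e2, ← integral_sub hIP hIs, ← integral_add hId hIc]
    apply integral_mono (hId.add hIc) (integrable_vneg hg.continuous hc)
    intro x
    have e3 : ∑ k ∈ Finset.range K, eb ρ * ‖G k x‖ ^ 2 =
        (∑ k ∈ Finset.range K, eb ρ * (S k x) ^ 2) * ‖g x‖ ^ 2 := by
      rw [Finset.sum_mul]
      refine Finset.sum_congr rfl fun k _ => ?_
      rw [hGn]
      ring
    show P x * ‖g x‖ ^ 2 - ∑ k ∈ Finset.range K, eb ρ * ‖G k x‖ ^ 2 +
      1 / 2 * (K * (CB / ρ ^ 2) * ‖g x‖ ^ 2) ≤ vneg K R ρ A x * ‖g x‖ ^ 2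
    rw [e3]
    have e4 : P x * ‖g x‖ ^ 2 - (∑ k ∈ Finset.range K, eb ρ * (S k x) ^ 2) * ‖g x‖ ^ 2 +
        1 / 2 * (K * (CB / ρ ^ 2) * ‖g x‖ ^ 2) =
        (P x - (∑ k ∈ Finset.range K, eb ρ * (S k x) ^ 2) + K * (CB / ρ ^ 2) / 2) *
          ‖g x‖ ^ 2 := by ring
    rw [e4]
    apply mul_le_mul_of_nonneg_right _ (by positivity)
    have e5 : P x = ∑ k ∈ Finset.range K, A k * (S k x) ^ 2 +
        (2 * K / ρ) * (1 - ∑ k ∈ Finset.range K, (S k x) ^ 2) := by
      have := hsum x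
      simp only [hP]
      rw [← this]
      ring
    have e6 : P x - (∑ k ∈ Finset.range K, eb ρ * (S k x) ^ 2) + K * (CB / ρ ^ 2) / 2 =
        2 * K / ρ + K * (CB / ρ ^ 2) / 2 +
          ∑ k ∈ Finset.range K, (A k - eb ρ - 2 * K / ρ) * (S k x) ^ 2 := by
      rw [e5]
      simp only [sub_mul, Finset.sum_sub_distrib, ← Finset.mul_sum]
      ring
    rw [e6]
    unfold vneg
    gcongr with k hk
    by_cases hx : dist x (R k) < ρ
    · rw [Set.indicator_of_mem (Metric.mem_ball.mpr hx)]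
      have h1 := hA0 k hk
      have h2 := hSle k x
      nlinarith
    · have h0 : S k x = 0 := by
        by_contra h
        exact hx (hSne k x h)
      rw [Set.indicator_of_notMem (fun h => hx (Metric.mem_ball.mp h)), h0]
      simp
  linarith

end Pool.Agent.Lib.MP_9fcec4_mp
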