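import Pool.Agent.Lib.MP_9fcec4_mp.Ims

open MeasureTheory Filter Topology
open scoped ContDiff

namespace Pool.Agent.Lib.MP_9fcec4_mp

lemma slice_le {M : ℕ} (i : Fin M) {F G : (Fin M → E3) → ℝ} (hF : Measurable F)
    (hG : Measurable G) (hF0 : ∀ x, 0 ≤ F x) (hG0 : ∀ x, 0 ≤ G x)
    (hFi : ∀ x, Integrable (fun y => F (Function.update x i y)))
    (hGi : ∀ x, Integrable (fun y => G (Function.update x i y)))
    (hle : ∀ x, ∫ y, F (Function.update x i y) ≤ ∫ y, G (Function.update x i y))
    (hGint : Integrable G) : Integrable F ∧ ∫ x, F x ≤ ∫ x, G x := by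
  have hlin : ∫⁻ x, ENNReal.ofReal (F x) ≤ ∫⁻ x, ENNReal.ofReal (G x) := by
    rw [volume_pi]
    apply lintegral_le_of_lmarginal_le {i} hF.ennreal_ofReal hG.ennreal_ofReal
    rw [lmarginal_singleton, lmarginal_singleton]
    intro x
    show ∫⁻ y, ENNReal.ofReal (F (Function.update x i y)) ≤
      ∫⁻ y, ENNReal.ofReal (G (Function.update x i y))
    rw [← ofReal_integral_eq_lintegral_ofReal (hFi x) (ae_of_all _ fun y => hF0 _),
      ← ofReal_integral_eq_lintegral_ofReal (hGi x) (ae_of_all _ fun y => hG0 _)]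
    exact ENNReal.ofReal_le_ofReal (hle x)
  have hGfin : ∫⁻ x, ENNReal.ofReal (G x) ≠ ⊤ := by
    rw [← ofReal_integral_eq_lintegral_ofReal hGint (ae_of_all _ hG0)]
    exact ENNReal.ofReal_ne_top
  have hFint : Integrable F := by
    refine ⟨hF.aestronglyMeasurable, ?_⟩
    rw [hasFiniteIntegral_iff_ofReal (ae_of_all _ hF0)]
    exact hlin.trans_lt hGfin.lt_top
  refine ⟨hFint, ?_⟩
  rw [← ofReal_integral_eq_lintegral_ofReal hFint (ae_of_all _ hF0),
    ← ofReal_integral_eq_lintegral_ofReal hGint (ae_of_all _ hG0)] at hlin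
  exact (ENNReal.ofReal_le_ofReal_iff (integral_nonneg hG0)).mp hlin

/-- one-variable slice -/
noncomputable def slice {M : ℕ} (f : (Fin M → E3) → ℂ) (i : Fin M) (x : Fin M → E3) (y : E3) : ℂ :=
  f (Function.update x i y)

lemma contDiff_slice {M : ℕ} {f : (Fin M → E3) → ℂ} (hf : ContDiff ℝ ∞ f) (i : Fin M)
    (x : Fin M → E3) : ContDiff ℝ ∞ (slice f i x) :=
  hf.comp (contDiff_update ∞ x i)

lemma hasCompactSupport_slice {M : ℕ} {f : (Fin M → E3) → ℂ} (hf : HasCompactSupport f)
    (i : Fin M) (x : Fin M → E3) : HasCompactSupport (slice f i x) := by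
  apply HasCompactSupport.of_support_subset_isCompact
    (K := (fun z : Fin M → E3 => z i) '' (tsupport f))
  · exact hf.isCompact.image (continuous_apply i)
  · intro y hy
    refine ⟨Function.update x i y, subset_tsupport _ hy, by simp⟩

lemma gsq_slice {M : ℕ} {f : (Fin M → E3) → ℂ} (hf : ContDiff ℝ ∞ f) (i : Fin M)
    (x : Fin M → E3) (y : E3) : gsq (slice f i x) y = gradSq f i (Function.update x i y) := by
  unfold gsq gradSq
  refine Finset.sum_congr rfl fun c _ => ?_
  have h1 := (hf.differentiable (by norm_num) (Function.update x i y)).hasFDerivAt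
  have h2 := hasFDerivAt_update (𝕜 := ℝ) x (i := i) y
  have h3 : HasFDerivAt (slice f i x) _ y := h1.comp y h2
  rw [h3.fderiv]
  congr 2
  simp only [ContinuousLinearMap.comp_apply]
  congr 1
  ext j
  by_cases hj : j = i
  · subst hj
    simp
  · simp [hj]

lemma gradSq_nonneg {M : ℕ} (f : (Fin M → E3) → ℂ) (i : Fin M) (x : Fin M → E3) :
    0 ≤ gradSq f i x := Finset.sum_nonneg fun _ _ => by positivity

lemma continuous_gradSq {M : ℕ} {f : (Fin M → E3) → ℂ} (hf : ContDiff ℝ ∞ f) (i : Fin M) :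
    Continuous (gradSq f i) := by
  unfold gradSq
  have h := hf.continuous_fderiv (by norm_num)
  fun_prop

lemma hasCompactSupport_gradSq {M : ℕ} {f : (Fin M → E3) → ℂ} (hc : HasCompactSupport f)
    (i : Fin M) : HasCompactSupport (gradSq f i) := by
  have h := hc.fderiv ℝ
  apply h.mono
  intro x hx
  rw [Function.mem_support] at hx ⊢
  intro h0
  apply hx
  simp [gradSq, h0]

lemma integrable_gradSq {M : ℕ} {f : (Fin M → E3) → ℂ} (hf : ContDiff ℝ ∞ f)
    (hc : HasCompactSupport f) (i : Fin M) : Integrable (gradSq f i) :=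
  (continuous_gradSq hf i).integrable_of_hasCompactSupport (hasCompactSupport_gradSq hc i)

lemma hasCompactSupport_normSqN {M : ℕ} {f : (Fin M → E3) → ℂ} (hc : HasCompactSupport f) :
    HasCompactSupport (fun x => ‖f x‖ ^ 2) := by
  apply hc.mono
  intro x hx
  rw [Function.mem_support] at hx ⊢
  intro h0
  apply hx
  simp [h0]

lemma integrable_normSqN {M : ℕ} {f : (Fin M → E3) → ℂ} (hf : Continuous f)
    (hc : HasCompactSupport f) : Integrable (fun x => ‖f x‖ ^ 2) :=
  (hf.norm.pow 2).integrable_of_hasCompactSupport (hasCompactSupport_normSqN hc)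

/-- Coulomb singularities are integrable against smooth functions: electron repulsion. -/
lemma integrable_rep {M : ℕ} {f : (Fin M → E3) → ℂ} (hf : ContDiff ℝ ∞ f)
    (hc : HasCompactSupport f) {i j : Fin M} (hij : i ≠ j) :
    Integrable (fun x => ‖f x‖ ^ 2 / dist (x i) (x j)) := by
  have hfc := hf.continuous
  have h1i : (1 : WithTop ℕ∞) ≤ ∞ := by exact_mod_cast le_top
  have hgc := continuous_gradSq hf i
  refine (slice_le i (F := fun x => ‖f x‖ ^ 2 / dist (x i) (x j))
    (G := fun x => 1 / 2 * gradSq f i x + 1 / 2 * ‖f x‖ ^ 2) ?_ ?_ ?_ ?_ ?_ ?_ ?_ ?_).1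
  · exact Measurable.div (hfc.norm.pow 2).measurable
      ((continuous_apply i).dist (continuous_apply j)).measurable
  · exact (by fun_prop : Continuous _).measurable
  · intro x
    positivity
  · intro x
    have := gradSq_nonneg f i x
    positivity
  · intro x
    have := integrable_div_dist (contDiff_slice hf i x).continuous
      (hasCompactSupport_slice hc i x) (x j)
    simpa [slice, hij.symm] using this
  · intro x
    have h1 := integrable_gsq ((contDiff_slice hf i x).of_le h1i) (hasCompactSupport_slice hc i x)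
    have h2 := integrable_normSq (contDiff_slice hf i x).continuous
      (hasCompactSupport_slice hc i x)
    have h3 : gsq (slice f i x) = fun y => gradSq f i (Function.update x i y) :=
      funext fun y => gsq_slice hf i x y
    rw [h3] at h1
    exact (h1.const_mul _).add (h2.const_mul _)
  · intro x
    have h1 := integrable_gsq ((contDiff_slice hf i x).of_le h1i) (hasCompactSupport_slice hc i x)
    have h2 := integrable_normSq (contDiff_slice hf i x).continuous
      (hasCompactSupport_slice hc i x)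
    have h := hardy ((contDiff_slice hf i x).of_le h1i) (hasCompactSupport_slice hc i x)
      one_pos (x j)
    have h3 : gsq (slice f i x) = fun y => gradSq f i (Function.update x i y) :=
      funext fun y => gsq_slice hf i x y
    rw [h3] at h h1
    have e1 : ∫ y, (1 / 2 * gradSq f i (Function.update x i y) +
        1 / 2 * ‖f (Function.update x i y)‖ ^ 2) =
        1 / 2 * (∫ y, gradSq f i (Function.update x i y)) +
          1 / 2 * ∫ y, ‖f (Function.update x i y)‖ ^ 2 := by
      rw [← integral_const_mul, ← integral_const_mul]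
      exact integral_add (h1.const_mul _) (h2.const_mul _)
    rw [e1]
    simp only [slice] at h
    simp only [Function.update_self, Function.update_of_ne hij.symm]
    linarith
  · exact ((integrable_gradSq hf hc i).const_mul _).add
      ((integrable_normSqN hfc hc).const_mul _)

lemma vneg_nonneg {K : ℕ} {R : ℕ → E3} {ρ : ℝ} (hρ : 0 < ρ) {A : ℕ → ℝ}
    (hA0 : ∀ k ∈ Finset.range K, 2 * K / ρ ≤ A k - eb ρ) (x : E3) : 0 ≤ vneg K R ρ A x := by
  unfold vneg
  have h1 := CB_nonneg
  have h2 : 0 ≤ ∑ k ∈ Finset.range K,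
      (Metric.ball (R k) ρ).indicator (fun _ => A k - eb ρ - 2 * K / ρ) x := by
    apply Finset.sum_nonneg
    intro k hk
    apply Set.indicator_nonneg
    intro y _
    linarith [hA0 k hk]
  positivity

lemma integrable_vnegN {K : ℕ} {R : ℕ → E3} {ρ : ℝ} {A : ℕ → ℝ} {M : ℕ} {f : (Fin M → E3) → ℂ}
    (hf : Continuous f) (hc : HasCompactSupport f) (i : Fin M) :
    Integrable (fun x => vneg K R ρ A (x i) * ‖f x‖ ^ 2) := by
  have hI := integrable_normSqN hf hc
  unfold vneg
  simp only [add_mul, Finset.sum_mul]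
  refine ((hI.const_mul _).add (hI.const_mul _)).add (integrable_finsetSum _ fun k _ => ?_)
  have : (fun x : Fin M → E3 => (Metric.ball (R k) ρ).indicator
      (fun _ => A k - eb ρ - 2 * K / ρ) (x i) * ‖f x‖ ^ 2) =
      ((fun x : Fin M → E3 => x i) ⁻¹' (Metric.ball (R k) ρ)).indicator
        (fun x => (A k - eb ρ - 2 * K / ρ) * ‖f x‖ ^ 2) := by
    funext x
    by_cases hx : x i ∈ Metric.ball (R k) ρ <;> simp [Set.indicator, hx]
  rw [this]
  exact (hI.const_mul _).indicator ((measurable_pi_apply i) measurableSet_ball)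

lemma attraction_le {K : ℕ} {R : ℕ → E3} {ρ : ℝ} (hρ : 0 < ρ) {A : ℕ → ℝ}
    (hA : ∀ k ∈ Finset.range K, ∀ x, dist x (R k) < ρ →
      ∑ l ∈ (Finset.range K).erase k, 1 / dist x (R l) ≤ A k)
    (hA0 : ∀ k ∈ Finset.range K, 2 * K / ρ ≤ A k - eb ρ)
    {M : ℕ} {f : (Fin M → E3) → ℂ} (hf : ContDiff ℝ ∞ f) (hc : HasCompactSupport f) (i : Fin M) :
    Integrable (fun x => ∑ k ∈ Finset.range K, ‖f x‖ ^ 2 / dist (x i) (R k)) ∧
    ∫ x, ∑ k ∈ Finset.range K, ‖f x‖ ^ 2 / dist (x i) (R k) ≤
      ∫ x, (1 / 2 * gradSq f i x + vneg K R ρ A (x i) * ‖f x‖ ^ 2) := by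
  have hfc := hf.continuous
  have h1i : (1 : WithTop ℕ∞) ≤ ∞ := by exact_mod_cast le_top
  have hgc := continuous_gradSq hf i
  have hvm := measurable_vneg K R ρ A
  have h3 : ∀ x, gsq (slice f i x) = fun y => gradSq f i (Function.update x i y) := fun x =>
    funext fun y => gsq_slice hf i x y
  have h1 : ∀ x, Integrable (fun y => gradSq f i (Function.update x i y)) := by
    intro x
    rw [← h3]
    exact integrable_gsq ((contDiff_slice hf i x).of_le h1i) (hasCompactSupport_slice hc i x)
  have h2 : ∀ x, Integrable (fun y => vneg K R ρ A y * ‖f (Function.update x i y)‖ ^ 2) :=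
    fun x => integrable_vneg (contDiff_slice hf i x).continuous (hasCompactSupport_slice hc i x)
  apply slice_le i
  · apply Finset.measurable_fun_sum
    intro k _
    exact Measurable.div (hfc.norm.pow 2).measurable
      ((continuous_apply i).dist continuous_const).measurable
  · apply Measurable.add
    · exact (continuous_const.mul hgc).measurable
    · exact (hvm.comp (measurable_pi_apply i)).mul (hfc.norm.pow 2).measurable
  · intro x
    positivity
  · intro x
    have := gradSq_nonneg f i x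
    have h4 := vneg_nonneg hρ hA0 (R := R) (x i)
    positivity
  · intro x
    apply integrable_finsetSum
    intro k _
    have := integrable_div_dist (contDiff_slice hf i x).continuous
      (hasCompactSupport_slice hc i x) (R k)
    simpa [slice] using this
  · intro x
    simp only [Function.update_self]
    exact ((h1 x).const_mul _).add (h2 x)
  · intro x
    have h := oneBody_lower hρ hA hA0 (contDiff_slice hf i x) (hasCompactSupport_slice hc i x)
    rw [h3] at h
    simp only [Function.update_self]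
    have e1 : ∫ y, (1 / 2 * gradSq f i (Function.update x i y) +
        vneg K R ρ A y * ‖f (Function.update x i y)‖ ^ 2) =
        1 / 2 * (∫ y, gradSq f i (Function.update x i y)) +
          ∫ y, vneg K R ρ A y * ‖f (Function.update x i y)‖ ^ 2 := by
      rw [← integral_const_mul]
      exact integral_add ((h1 x).const_mul _) (h2 x)
    rw [e1]
    exact h
  · exact ((integrable_gradSq hf hc i).const_mul _).add (integrable_vnegN hfc hc i)

lemma ae_distinct {M : ℕ} {i j : Fin M} (hij : i ≠ j) :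
    ∀ᵐ x : Fin M → E3, x i ≠ x j := by
  let S : Submodule ℝ (Fin M → E3) :=
    LinearMap.ker ((LinearMap.proj i : (Fin M → E3) →ₗ[ℝ] E3) - LinearMap.proj j)
  have hS : S ≠ ⊤ := by
    intro h
    have hm : (Pi.single i (EuclideanSpace.single 0 (1 : ℝ)) : Fin M → E3) ∈ S := by
      rw [h]
      trivial
    have h2 : (Pi.single i (EuclideanSpace.single 0 (1 : ℝ)) : Fin M → E3) i -
        (Pi.single i (EuclideanSpace.single 0 (1 : ℝ)) : Fin M → E3) j = 0 := hm
    rw [Pi.single_eq_same, Pi.single_eq_of_ne hij.symm, sub_zero] at h2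
    have h3 := congrArg (fun v : E3 => v 0) h2
    simp at h3
  have h0 : (volume : Measure (Fin M → E3)) (S : Set (Fin M → E3)) = 0 :=
    Measure.addHaar_submodule volume S hS
  refine (measure_eq_zero_iff_ae_notMem.mp h0).mono fun x hx h => ?_
  apply hx
  show x i - x j = 0
  rw [h, sub_self]

/-- many-body lower bound from a pointwise bound -/
theorem manyBody_lower {K : ℕ} {R : ℕ → E3} {ρ : ℝ} (hρ : 0 < ρ) {A : ℕ → ℝ}
    (hA : ∀ k ∈ Finset.range K, ∀ x, dist x (R k) < ρ →
      ∑ l ∈ (Finset.range K).erase k, 1 / dist x (R l) ≤ A k)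
    (hA0 : ∀ k ∈ Finset.range K, 2 * K / ρ ≤ A k - eb ρ)
    {M : ℕ} {L : ℝ}
    (hL : ∀ x : Fin M → E3, (∀ i j, i ≠ j → x i ≠ x j) →
      L ≤ (∑ i, ∑ j ∈ Finset.Ioi i, 1 / dist (x i) (x j)) - ∑ i, vneg K R ρ A (x i))
    {f : (Fin M → E3) → ℂ} (hf : ContDiff ℝ ∞ f) (hc : HasCompactSupport f) :
    L * (∫ x, ‖f x‖ ^ 2) ≤ ∫ x, (1 / 2 * ∑ i, gradSq f i x +
      (-(∑ i, ∑ k ∈ Finset.range K, 1 / dist (x i) (R k)) +
        ∑ i, ∑ j ∈ Finset.Ioi i, 1 / dist (x i) (x j)) * ‖f x‖ ^ 2) := by
  have hfc := hf.continuous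
  have hI := integrable_normSqN hfc hc
  have hatt := fun i => attraction_le hρ hA hA0 hf hc i
  have hrep : Integrable (fun x => ∑ i, ∑ j ∈ Finset.Ioi i, ‖f x‖ ^ 2 / dist (x i) (x j)) := by
    apply integrable_finsetSum
    intro i _
    apply integrable_finsetSum
    intro j hj
    exact integrable_rep hf hc (Finset.mem_Ioi.mp hj).ne
  have hgr : Integrable (fun x => 1 / 2 * ∑ i, gradSq f i x) :=
    (integrable_finsetSum _ fun i _ => integrable_gradSq hf hc i).const_mul _
  have hat : Integrable (fun x => ∑ i, ∑ k ∈ Finset.range K, ‖f x‖ ^ 2 / dist (x i) (R k)) :=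
    integrable_finsetSum _ fun i _ => (hatt i).1
  have hvn : Integrable (fun x => ∑ i, vneg K R ρ A (x i) * ‖f x‖ ^ 2) :=
    integrable_finsetSum _ fun i _ => integrable_vnegN hfc hc i
  have hsum : ∫ x, ∑ i, ∑ k ∈ Finset.range K, ‖f x‖ ^ 2 / dist (x i) (R k) ≤
      (∫ x, 1 / 2 * ∑ i, gradSq f i x) + ∫ x, ∑ i, vneg K R ρ A (x i) * ‖f x‖ ^ 2 := by
    rw [integral_finsetSum _ fun i _ => (hatt i).1, ← integral_add hgr hvn]
    have e : ∫ x, (1 / 2 * ∑ i, gradSq f i x + ∑ i, vneg K R ρ A (x i) * ‖f x‖ ^ 2) =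
        ∑ i, ∫ x, (1 / 2 * gradSq f i x + vneg K R ρ A (x i) * ‖f x‖ ^ 2) := by
      rw [← integral_finsetSum]
      · congr 1
        funext x
        rw [Finset.mul_sum, ← Finset.sum_add_distrib]
      · intro i _
        exact ((integrable_gradSq hf hc i).const_mul _).add (integrable_vnegN hfc hc i)
    rw [e]
    exact Finset.sum_le_sum fun i _ => (hatt i).2
  have hpt : L * (∫ x, ‖f x‖ ^ 2) ≤
      (∫ x, ∑ i, ∑ j ∈ Finset.Ioi i, ‖f x‖ ^ 2 / dist (x i) (x j)) -
        ∫ x, ∑ i, vneg K R ρ A (x i) * ‖f x‖ ^ 2 := by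
    rw [← integral_sub hrep hvn, ← integral_const_mul]
    apply integral_mono_ae (hI.const_mul _) (hrep.sub hvn)
    have hdist : ∀ᵐ x : Fin M → E3, ∀ i j, i ≠ j → x i ≠ x j := by
      rw [ae_all_iff]
      intro i
      rw [ae_all_iff]
      intro j
      by_cases hij : i = j
      · exact ae_of_all _ fun x h => absurd hij h
      · exact (ae_distinct hij).mono fun x hx _ => hx
    filter_upwards [hdist] with x hx
    have h1 := hL x hx
    have h2 : 0 ≤ ‖f x‖ ^ 2 := by positivity
    have h3 := mul_le_mul_of_nonneg_right h1 h2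
    simp only [sub_mul, Finset.sum_mul] at h3
    refine h3.trans (le_of_eq ?_)
    simp only [Pi.sub_apply]
    congr 1
    refine Finset.sum_congr rfl fun i _ => Finset.sum_congr rfl fun j _ => ?_
    ring
  have e2 : ∫ x, (1 / 2 * ∑ i, gradSq f i x +
      (-(∑ i, ∑ k ∈ Finset.range K, 1 / dist (x i) (R k)) +
        ∑ i, ∑ j ∈ Finset.Ioi i, 1 / dist (x i) (x j)) * ‖f x‖ ^ 2) =
      (∫ x, 1 / 2 * ∑ i, gradSq f i x) -
      (∫ x, ∑ i, ∑ k ∈ Finset.range K, ‖f x‖ ^ 2 / dist (x i) (R k)) +
      ∫ x, ∑ i, ∑ j ∈ Finset.Ioi i, ‖f x‖ ^ 2 / dist (x i) (x j) := by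
    have hga : Integrable (fun x => 1 / 2 * ∑ i, gradSq f i x -
        ∑ i, ∑ k ∈ Finset.range K, ‖f x‖ ^ 2 / dist (x i) (R k)) := hgr.sub hat
    rw [← integral_sub hgr hat, ← integral_add hga hrep]
    congr 1
    funext x
    simp only [add_mul, neg_mul, Finset.sum_mul]
    have a1 : ∑ i, ∑ k ∈ Finset.range K, 1 / dist (x i) (R k) * ‖f x‖ ^ 2 =
        ∑ i, ∑ k ∈ Finset.range K, ‖f x‖ ^ 2 / dist (x i) (R k) :=
      Finset.sum_congr rfl fun i _ => Finset.sum_congr rfl fun j _ => by ring
    have a2 : ∑ i, ∑ j ∈ Finset.Ioi i, 1 / dist (x i) (x j) * ‖f x‖ ^ 2 =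
        ∑ i, ∑ j ∈ Finset.Ioi i, ‖f x‖ ^ 2 / dist (x i) (x j) :=
      Finset.sum_congr rfl fun i _ => Finset.sum_congr rfl fun j _ => by ring
    rw [a1, a2]
    ring
  rw [e2]
  linarith

end Pool.Agent.Lib.MP_9fcec4_mp
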