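import Pool.Agent.Lib.MP_9fcec4_mp.Ground

open MeasureTheory Filter Topology
open scoped ContDiff

namespace Pool.Agent.Lib.MP_9fcec4_mp

/-- first coordinates of the ten sites -/
def px : ℕ → ℤ
  | 0 => 15
  | 1 => -15
  | 2 => 6
  | 3 => -6
  | 6 => 21
  | 7 => -21
  | _ => 0

/-- second coordinates of the ten sites -/
def py : ℕ → ℤ
  | 4 => 7
  | 5 => -7
  | 8 => 16
  | 9 => -16
  | _ => 0

/-- the ten sites -/
noncomputable def site (k : ℕ) : E3 := !₂[(px k : ℝ), (py k : ℝ), 0]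

/-- squared distances -/
def d2 (k l : ℕ) : ℕ := ((px k - px l) ^ 2 + (py k - py l) ^ 2).toNat

/-- integer part of `10 ^ 6 / √n` at the values of `n` that occur -/
def lo : ℕ → ℕ
  | 36 => 166666
  | 81 => 111111
  | 85 => 108465
  | 144 => 83333
  | 196 => 71428
  | 225 => 66666
  | 274 => 60412
  | 292 => 58520
  | 441 => 47619
  | 481 => 45596
  | 490 => 45175
  | 529 => 43478
  | 697 => 37877
  | 729 => 37037
  | 900 => 33333
  | 1024 => 31250
  | 1296 => 27777
  | 1764 => 23809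
  | _ => 0

lemma lo_spec : ∀ k < 10, ∀ l < 10, k ≠ l → 1 ≤ d2 k l ∧
    (lo (d2 k l)) ^ 2 * d2 k l ≤ 10 ^ 12 ∧ 10 ^ 12 ≤ (lo (d2 k l) + 1) ^ 2 * d2 k l := by
  decide

lemma dist_site (k l : ℕ) : dist (site k) (site l) = √(d2 k l : ℝ) := by
  rw [EuclideanSpace.dist_eq]
  congr 1
  have h : ((d2 k l : ℤ) : ℝ) = ((px k - px l) ^ 2 + (py k - py l) ^ 2 : ℤ) := by
    unfold d2
    rw [Int.toNat_of_nonneg (by positivity)]
  have h2 : ((d2 k l : ℕ) : ℝ) = ((px k : ℝ) - px l) ^ 2 + ((py k : ℝ) - py l) ^ 2 := by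
    have : ((d2 k l : ℕ) : ℝ) = ((d2 k l : ℤ) : ℝ) := by norm_cast
    rw [this, h]
    push_cast
    ring
  rw [h2, Fin.sum_univ_three]
  simp [site, Real.dist_eq, sq_abs]

lemma inv_dist_bounds {k l : ℕ} (hk : k < 10) (hl : l < 10) (hkl : k ≠ l) :
    (lo (d2 k l) : ℝ) / 10 ^ 6 ≤ 1 / dist (site k) (site l) ∧
      1 / dist (site k) (site l) ≤ ((lo (d2 k l) : ℝ) + 1) / 10 ^ 6 := by
  obtain ⟨h1, h2, h3⟩ := lo_spec k hk l hl hkl
  rw [dist_site]
  have h1' : (1 : ℝ) ≤ (d2 k l : ℝ) := by exact_mod_cast h1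
  have h2' : (lo (d2 k l) : ℝ) ^ 2 * (d2 k l : ℝ) ≤ 10 ^ 12 := by exact_mod_cast h2
  have h3' : (10 : ℝ) ^ 12 ≤ ((lo (d2 k l) : ℝ) + 1) ^ 2 * (d2 k l : ℝ) := by exact_mod_cast h3
  have hq0 : 0 ≤ (lo (d2 k l) : ℝ) := by positivity
  generalize (d2 k l : ℝ) = n at *
  generalize (lo (d2 k l) : ℝ) = q at *
  have hs : 0 < √n := Real.sqrt_pos.mpr (by linarith)
  have hsq : √n ^ 2 = n := Real.sq_sqrt (by linarith)
  constructor
  · rw [div_le_div_iff₀ (by norm_num) hs]
    have : (q * √n) ^ 2 ≤ (10 ^ 6) ^ 2 := by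
      rw [mul_pow, hsq]
      norm_num
      linarith
    have h5 : q * √n ≤ 10 ^ 6 := abs_le_of_sq_le_sq' this (by norm_num) |>.2
    linarith
  · rw [div_le_div_iff₀ hs (by norm_num)]
    have : (10 ^ 6) ^ 2 ≤ ((q + 1) * √n) ^ 2 := by
      rw [mul_pow, hsq]
      norm_num
      linarith
    have h5 : 10 ^ 6 ≤ (q + 1) * √n := abs_le_of_sq_le_sq' this (by positivity) |>.2
    linarith

lemma site_sep : ∀ k ∈ Finset.range 10, ∀ l ∈ Finset.range 10, k ≠ l →
    1 ≤ dist (site k) (site l) := by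
  intro k hk l hl hkl
  have h := (lo_spec k (Finset.mem_range.mp hk) l (Finset.mem_range.mp hl) hkl).1
  rw [dist_site]
  apply Real.one_le_sqrt.mpr
  exact_mod_cast h

lemma Uc_le_ten : ∀ k ∈ Finset.range 10, Uc 10 site k ≤ 10 := by
  intro k hk
  unfold Uc
  calc ∑ l ∈ (Finset.range 10).erase k, 1 / dist (site k) (site l)
      ≤ ∑ l ∈ (Finset.range 10).erase k, (1 : ℝ) := by
        apply Finset.sum_le_sum
        intro l hl
        have hl' := Finset.mem_erase.mp hl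
        have := site_sep k hk l hl'.2 hl'.1.symm
        rw [div_le_one (by linarith)]
        exact this
    _ ≤ 10 := by
        rw [Finset.sum_const, nsmul_eq_mul, mul_one]
        have : ((Finset.range 10).erase k).card ≤ 10 := by
          calc ((Finset.range 10).erase k).card ≤ (Finset.range 10).card :=
                Finset.card_erase_le
            _ = 10 := Finset.card_range 10
        exact_mod_cast this

/-- upper integer bound for `10 ^ 6 * Uc` -/
def Uhi (k : ℕ) : ℕ := ∑ l ∈ (Finset.range 10).erase k, (lo (d2 k l) + 1)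

/-- lower integer bound for `10 ^ 6 * Uc` -/
def Ulo (k : ℕ) : ℕ := ∑ l ∈ (Finset.range 10).erase k, lo (d2 k l)

lemma Uc_bounds {k : ℕ} (hk : k < 10) :
    (Ulo k : ℝ) / 10 ^ 6 ≤ Uc 10 site k ∧ Uc 10 site k ≤ (Uhi k : ℝ) / 10 ^ 6 := by
  unfold Uc Uhi Ulo
  push_cast
  rw [Finset.sum_div, Finset.sum_div]
  constructor
  · apply Finset.sum_le_sum
    intro l hl
    have hl' := Finset.mem_erase.mp hl
    exact (inv_dist_bounds hk (Finset.mem_range.mp hl'.2) hl'.1.symm).1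
  · apply Finset.sum_le_sum
    intro l hl
    have hl' := Finset.mem_erase.mp hl
    exact (inv_dist_bounds hk (Finset.mem_range.mp hl'.2) hl'.1.symm).2

lemma check_three : ∀ a ∈ Finset.range 10, ∀ b ∈ Finset.range 10, ∀ c ∈ Finset.range 10,
    a ≠ b → a ≠ c → b ≠ c →
    (Uhi a + Uhi b + Uhi c : ℕ) ≤ lo (d2 a b) + lo (d2 a c) + lo (d2 b c) + 1716000 := by
  decide +kernel

lemma Cc_three_lower (s : Fin 3 → ℕ) (hs : ∀ i, s i ∈ Finset.range 10)
    (hinj : Function.Injective s) : -1.716 ≤ Cc 10 site s := by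
  have h0 := Finset.mem_range.mp (hs 0)
  have h1 := Finset.mem_range.mp (hs 1)
  have h2 := Finset.mem_range.mp (hs 2)
  have h01 : s 0 ≠ s 1 := fun h => absurd (hinj h) (by decide)
  have h02 : s 0 ≠ s 2 := fun h => absurd (hinj h) (by decide)
  have h12 : s 1 ≠ s 2 := fun h => absurd (hinj h) (by decide)
  have hchk := check_three _ (hs 0) _ (hs 1) _ (hs 2) h01 h02 h12
  have hchk' : ((Uhi (s 0) : ℝ) + Uhi (s 1) + Uhi (s 2)) ≤
      lo (d2 (s 0) (s 1)) + lo (d2 (s 0) (s 2)) + lo (d2 (s 1) (s 2)) + 1716000 := by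
    exact_mod_cast hchk
  have b01 := (inv_dist_bounds h0 h1 h01).1
  have b02 := (inv_dist_bounds h0 h2 h02).1
  have b12 := (inv_dist_bounds h1 h2 h12).1
  have u0 := (Uc_bounds h0).2
  have u1 := (Uc_bounds h1).2
  have u2 := (Uc_bounds h2).2
  have e0 : Finset.Ioi (0 : Fin 3) = {1, 2} := by decide
  have e1 : Finset.Ioi (1 : Fin 3) = {2} := by decide
  have e2 : Finset.Ioi (2 : Fin 3) = ∅ := by decide
  unfold Cc
  rw [Fin.sum_univ_three, Fin.sum_univ_three, e0, e1, e2, Finset.sum_pair (by decide),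
    Finset.sum_singleton, Finset.sum_empty]
  linarith

/-- the optimal four sites -/
def sA : Fin 4 → ℕ := ![0, 1, 4, 5]

/-- the optimal two sites -/
def sB : Fin 2 → ℕ := ![2, 3]

lemma sA_mem : ∀ i, sA i ∈ Finset.range 10 := by decide

lemma sA_inj : Function.Injective sA := by decide

lemma sB_mem : ∀ i, sB i ∈ Finset.range 10 := by decide

lemma sB_inj : Function.Injective sB := by decide

lemma check_four : lo (d2 0 1) + 1 + (lo (d2 0 4) + 1) + (lo (d2 0 5) + 1) + (lo (d2 1 4) + 1) +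
    (lo (d2 1 5) + 1) + (lo (d2 4 5) + 1) + 2158800 ≤ Ulo 0 + Ulo 1 + Ulo 4 + Ulo 5 := by
  decide +kernel

lemma check_two : lo (d2 2 3) + 1 + 1276100 ≤ Ulo 2 + Ulo 3 := by
  decide +kernel

lemma Cc_four_upper : Cc 10 site sA ≤ -2.1588 := by
  have hchk : ((lo (d2 0 1) : ℝ) + 1 + (lo (d2 0 4) + 1) + (lo (d2 0 5) + 1) +
      (lo (d2 1 4) + 1) + (lo (d2 1 5) + 1) + (lo (d2 4 5) + 1) + 2158800) ≤
      Ulo 0 + Ulo 1 + Ulo 4 + Ulo 5 := by exact_mod_cast check_four
  have b01 := (inv_dist_bounds (k := 0) (l := 1) (by norm_num) (by norm_num) (by norm_num)).2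
  have b04 := (inv_dist_bounds (k := 0) (l := 4) (by norm_num) (by norm_num) (by norm_num)).2
  have b05 := (inv_dist_bounds (k := 0) (l := 5) (by norm_num) (by norm_num) (by norm_num)).2
  have b14 := (inv_dist_bounds (k := 1) (l := 4) (by norm_num) (by norm_num) (by norm_num)).2
  have b15 := (inv_dist_bounds (k := 1) (l := 5) (by norm_num) (by norm_num) (by norm_num)).2
  have b45 := (inv_dist_bounds (k := 4) (l := 5) (by norm_num) (by norm_num) (by norm_num)).2
  have u0 := (Uc_bounds (k := 0) (by norm_num)).1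
  have u1 := (Uc_bounds (k := 1) (by norm_num)).1
  have u4 := (Uc_bounds (k := 4) (by norm_num)).1
  have u5 := (Uc_bounds (k := 5) (by norm_num)).1
  have e0 : Finset.Ioi (0 : Fin 4) = {1, 2, 3} := by decide
  have e1 : Finset.Ioi (1 : Fin 4) = {2, 3} := by decide
  have e2 : Finset.Ioi (2 : Fin 4) = {3} := by decide
  have e3 : Finset.Ioi (3 : Fin 4) = ∅ := by decide
  have a0 : sA 0 = 0 := rfl
  have a1 : sA 1 = 1 := rfl
  have a2 : sA 2 = 4 := rfl
  have a3 : sA 3 = 5 := rfl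
  unfold Cc
  rw [Fin.sum_univ_four, Fin.sum_univ_four, e0, e1, e2, e3, Finset.sum_insert (by decide),
    Finset.sum_pair (by decide), Finset.sum_pair (by decide),
    Finset.sum_singleton, Finset.sum_empty, a0, a1, a2, a3]
  linarith

lemma Cc_two_upper : Cc 10 site sB ≤ -1.2761 := by
  have hchk : ((lo (d2 2 3) : ℝ) + 1 + 1276100) ≤ Ulo 2 + Ulo 3 := by
    exact_mod_cast check_two
  have b23 := (inv_dist_bounds (k := 2) (l := 3) (by norm_num) (by norm_num) (by norm_num)).2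
  have u2 := (Uc_bounds (k := 2) (by norm_num)).1
  have u3 := (Uc_bounds (k := 3) (by norm_num)).1
  have e0 : Finset.Ioi (0 : Fin 2) = {1} := by decide
  have e1 : Finset.Ioi (1 : Fin 2) = ∅ := by decide
  have a0 : sB 0 = 2 := rfl
  have a1 : sB 1 = 3 := rfl
  unfold Cc
  rw [Fin.sum_univ_two, Fin.sum_univ_two, e0, e1, Finset.sum_singleton, Finset.sum_empty, a0, a1]
  linarith

/-- a crude lower bound for the classical energy -/
lemma Cc_crude {M : ℕ} (s : Fin M → ℕ) (hs : ∀ i, s i ∈ Finset.range 10) :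
    -(M * 10 : ℝ) ≤ Cc 10 site s := by
  unfold Cc
  have h1 : 0 ≤ ∑ i, ∑ j ∈ Finset.Ioi i, 1 / dist (site (s i)) (site (s j)) :=
    Finset.sum_nonneg fun i _ => Finset.sum_nonneg fun j _ => by positivity
  have h2 : ∑ i, Uc 10 site (s i) ≤ ∑ _i : Fin M, (10 : ℝ) :=
    Finset.sum_le_sum fun i _ => Uc_le_ten _ (hs i)
  simp only [Finset.sum_const, Finset.card_univ, Fintype.card_fin, nsmul_eq_mul] at h2
  linarith

lemma site_inj : Function.Injective (fun k : Fin 10 => site k) := by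
  intro k l h
  by_contra hkl
  have h1 := site_sep k (Finset.mem_range.mpr k.2) l (Finset.mem_range.mpr l.2)
    (fun h2 => hkl (Fin.ext h2))
  have h2 : dist (site k) (site l) = 0 := by
    have : site k = site l := h
    rw [this, dist_self]
  linarith

theorem main : ∃ t₀ : ℝ, ∀ t ≥ t₀, 0 < t ∧
    ionization (fun k : Fin 10 => t • site k) (fun _ => 1) 3 <
      ionization (fun k : Fin 10 => t • site k) (fun _ => 1) 4 ∧
    0 < ionization (fun k : Fin 10 => t • site k) (fun _ => 1) 4 := by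
  obtain ⟨ρ₀, hρ₀, c0, hc0, heb⟩ := eb_neg
  set δ : ℝ := 1 / 10 ^ 6 with hδ
  refine ⟨1 + ρ₀ * 10 ^ 6 + 10 ^ 9 / c0 + 10 ^ 17 * (CB + 1), fun t ht => ?_⟩
  have hCB := CB_nonneg
  have hδ0 : 0 < δ := by positivity
  have hδ' : δ ≤ 1 / 4 := by
    rw [hδ]
    norm_num
  have hq1 : 0 < 10 ^ 9 / c0 := by positivity
  have hq2 : 0 < ρ₀ * 10 ^ 6 := by positivity
  have hq3 : 0 < 10 ^ 17 * (CB + 1) := by positivity
  have ht0 : 0 < t := by linarith
  have htρ : ρ₀ ≤ δ * t := by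
    have : ρ₀ * 10 ^ 6 ≤ t := by linarith
    rw [hδ]
    linarith
  obtain ⟨hebt, hne⟩ := heb (δ * t) htρ
  have htc : 10 ^ 9 / c0 ≤ t := by linarith
  have htCB : 10 ^ 17 * (CB + 1) ≤ t := by linarith
  have hη : 0 < δ / t := by positivity
  -- size conditions
  have hcond1 : ∀ M : ℕ, M ≤ 4 →
      2 * ((10 : ℕ) : ℝ) / (δ * t) + M * ((10 + 2 * ((10 : ℕ) : ℝ) * δ) / t) ≤ c0 := by
    intro M hM
    have hM' : (M : ℝ) ≤ 4 := by exact_mod_cast hM
    have h1 : 10 ^ 9 / t ≤ c0 := by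
      rw [div_le_iff₀ ht0]
      rw [div_le_iff₀ hc0] at htc
      linarith
    have h2 : 2 * ((10 : ℕ) : ℝ) / (δ * t) = (2 * 10 ^ 7) / t := by
      rw [hδ]
      push_cast
      field_simp
    have h3 : M * ((10 + 2 * ((10 : ℕ) : ℝ) * δ) / t) ≤ 100 / t := by
      rw [← mul_div_assoc]
      apply div_le_div_of_nonneg_right _ ht0.le
      rw [hδ]
      push_cast
      nlinarith
    calc 2 * ((10 : ℕ) : ℝ) / (δ * t) + M * ((10 + 2 * ((10 : ℕ) : ℝ) * δ) / t)
        ≤ (2 * 10 ^ 7) / t + 100 / t := by linarith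
      _ = (2 * 10 ^ 7 + 100) / t := by ring
      _ ≤ 10 ^ 9 / t := by
          apply div_le_div_of_nonneg_right _ ht0.le
          norm_num
      _ ≤ c0 := h1
  have hcond2 : ∀ M : ℕ, M ≤ 4 →
      M * (10 + 2 * ((10 : ℕ) : ℝ) * δ) ≤ 1 / (2 * δ) := by
    intro M hM
    have hM' : (M : ℝ) ≤ 4 := by exact_mod_cast hM
    have : 1 / (2 * δ) = 500000 := by
      rw [hδ]
      norm_num
    rw [this, hδ]
    push_cast
    nlinarith
  have hlow : ∀ M : ℕ, M ≤ 4 → ∀ F : ℝ, F ≤ 0 →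
      (∀ s : Fin M → ℕ, (∀ i, s i ∈ Finset.range 10) → Function.Injective s →
        F ≤ Cc 10 site s) →
      ∀ e ∈ eset 10 (fun k => t • site k) M,
        M * eb (δ * t) + (F - (2 * ((10 : ℕ) : ℝ) * M + 2 * M ^ 2) * δ) / t -
          M * (((10 : ℕ) : ℝ) * (CB / (δ * t) ^ 2) / 2) ≤ e := by
    intro M hM F hF0 hF
    exact eset_lower (Um := 10) ht0 hδ0 hδ' site_sep Uc_le_ten (by norm_num) hF0 hF hebt
      (hcond1 M hM) (hcond2 M hM)
  have hbdd : ∀ M : ℕ, M ≤ 4 → BddBelow (eset 10 (fun k => t • site k) M) := by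
    intro M hM
    refine ⟨_, fun e he => hlow M hM (-(M * 10)) ?_ (fun s hs _ => Cc_crude s hs) e he⟩
    have : (0 : ℝ) ≤ M * 10 := by positivity
    linarith
  have E4 : groundEnergy (fun k : Fin 10 => t • site k) (fun _ => 1) 4 ≤
      4 * (eb (δ * t) + δ / t) + (-2.1588 + 104 * δ) / t := by
    obtain ⟨e, he, hle⟩ := eset_upper (η := δ / t) ht0 hδ0 hδ' hη site_sep sA_mem sA_inj hne
    have h1 : groundEnergy (fun k : Fin 10 => t • site k) (fun _ => 1) 4 ≤ e :=
      csInf_le (hbdd 4 le_rfl) he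
    refine h1.trans (hle.trans ?_)
    have h2 := Cc_four_upper
    have h3 : (Cc 10 site sA + (((10 : ℕ) : ℝ) * ((4 : ℕ) : ℝ) + 4 * ((4 : ℕ) : ℝ) ^ 2) * δ) / t ≤
        (-2.1588 + 104 * δ) / t := by
      apply div_le_div_of_nonneg_right _ ht0.le
      push_cast
      linarith
    push_cast at h3 ⊢
    linarith
  have E2 : groundEnergy (fun k : Fin 10 => t • site k) (fun _ => 1) 2 ≤
      2 * (eb (δ * t) + δ / t) + (-1.2761 + 36 * δ) / t := by
    obtain ⟨e, he, hle⟩ := eset_upper (η := δ / t) ht0 hδ0 hδ' hη site_sep sB_mem sB_inj hne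
    have h1 : groundEnergy (fun k : Fin 10 => t • site k) (fun _ => 1) 2 ≤ e :=
      csInf_le (hbdd 2 (by norm_num)) he
    refine h1.trans (hle.trans ?_)
    have h2 := Cc_two_upper
    have h3 : (Cc 10 site sB + (((10 : ℕ) : ℝ) * ((2 : ℕ) : ℝ) + 4 * ((2 : ℕ) : ℝ) ^ 2) * δ) / t ≤
        (-1.2761 + 36 * δ) / t := by
      apply div_le_div_of_nonneg_right _ ht0.le
      push_cast
      linarith
    push_cast at h3 ⊢
    linarith
  have E3 : 3 * eb (δ * t) + (-1.716 - 78 * δ) / t - 3 * (10 * (CB / (δ * t) ^ 2) / 2) ≤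
      groundEnergy (fun k : Fin 10 => t • site k) (fun _ => 1) 3 := by
    have hne3 : (eset 10 (fun k => t • site k) 3).Nonempty := by
      obtain ⟨e, he, _⟩ := eset_upper (s := fun i : Fin 3 => (i : ℕ)) (η := δ / t) ht0 hδ0 hδ' hη
        site_sep (fun i => Finset.mem_range.mpr (by omega)) (fun i j h => Fin.ext h) hne
      exact ⟨e, he⟩
    apply le_csInf hne3
    intro e he
    have h := hlow 3 (by norm_num) (-1.716) (by norm_num) Cc_three_lower e he
    refine le_trans (le_of_eq ?_) h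
    push_cast
    ring
  -- localisation error
  have herr : 30 * (CB / (δ * t) ^ 2) ≤ (1 / 1000) / t := by
    have h1 : 30 * (CB / (δ * t) ^ 2) = (30 * 10 ^ 12 * CB / t) / t := by
      rw [hδ]
      field_simp
    rw [h1]
    apply div_le_div_of_nonneg_right _ ht0.le
    rw [div_le_iff₀ ht0]
    nlinarith
  have herr0 : 0 ≤ CB / (δ * t) ^ 2 := by positivity
  have ht1 : 0 < 1 / t := by positivity
  refine ⟨ht0, ?_, ?_⟩
  · unfold ionization
    simp only [show (3 : ℕ) - 1 = 2 from rfl, show (4 : ℕ) - 1 = 3 from rfl]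
    have h1 : 4 * (eb (δ * t) + δ / t) + (-2.1588 + 104 * δ) / t +
        (2 * (eb (δ * t) + δ / t) + (-1.2761 + 36 * δ) / t) <
        2 * (3 * eb (δ * t) + (-1.716 - 78 * δ) / t - 3 * (10 * (CB / (δ * t) ^ 2) / 2)) := by
      have h2 : (-2.1588 + 104 * δ) / t + (-1.2761 + 36 * δ) / t + 6 * (δ / t) -
          2 * ((-1.716 - 78 * δ) / t) = (-0.0029 + 302 * δ) * (1 / t) := by
        ring
      have h3 : (-0.0029 + 302 * δ) ≤ -0.002 := by
        rw [hδ]
        norm_num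
      have h4 : (-0.0029 + 302 * δ) * (1 / t) ≤ -0.002 * (1 / t) :=
        mul_le_mul_of_nonneg_right h3 ht1.le
      have h5 : (1 / 1000) / t = 0.001 * (1 / t) := by
        ring
      rw [h5] at herr
      linarith
    linarith
  · unfold ionization
    simp only [show (4 : ℕ) - 1 = 3 from rfl]
    have h2 : (-1.716 - 78 * δ) / t - (-2.1588 + 104 * δ) / t - 4 * (δ / t) =
        (0.4428 - 186 * δ) * (1 / t) := by
      ring
    have h3 : 0.4 ≤ (0.4428 - 186 * δ) := by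
      rw [hδ]
      norm_num
    have h4 : 0.4 * (1 / t) ≤ (0.4428 - 186 * δ) * (1 / t) :=
      mul_le_mul_of_nonneg_right h3 ht1.le
    have h5 : (1 / 1000) / t = 0.001 * (1 / t) := by
      ring
    rw [h5] at herr
    have h6 : 4 * (eb (δ * t) + δ / t) + (-2.1588 + 104 * δ) / t <
        3 * eb (δ * t) + (-1.716 - 78 * δ) / t - 3 * (10 * (CB / (δ * t) ^ 2) / 2) := by
      have h7 : 0.4 * (1 / t) ≤
        (-1.716 - 78 * δ) / t - (-2.1588 + 104 * δ) / t - 4 * (δ / t) := h4.trans h2.symm.le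
      clear h2 h3 h4 hcond1 hcond2 hlow hbdd E4 E2 E3
      generalize CB / (δ * t) ^ 2 = X at *
      generalize (-1.716 - 78 * δ) / t = a at *
      generalize (-2.1588 + 104 * δ) / t = b at *
      generalize eb (δ * t) = e at *
      generalize δ / t = d at *
      generalize 1 / t = q at *
      linarith
    linarith

end Pool.Agent.Lib.MP_9fcec4_mp
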