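import Pool.Agent.Lib.MP_9fcec4_mp.Defs

open MeasureTheory Filter Topology
open scoped ContDiff

namespace Pool.Agent.Lib.MP_9fcec4_mp

/-- Coordinate direction. -/
noncomputable abbrev ed (c : Fin 3) : E3 := EuclideanSpace.single c (1 : ℝ)

/-- Squared gradient of a function of one particle. -/
noncomputable def gsq (g : E3 → ℂ) (x : E3) : ℝ := ∑ c : Fin 3, ‖fderiv ℝ g x (ed c)‖ ^ 2

lemma gsq_nonneg (g : E3 → ℂ) (x : E3) : 0 ≤ gsq g x :=
  Finset.sum_nonneg fun _ _ => by positivity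

lemma continuous_gsq {g : E3 → ℂ} (hg : ContDiff ℝ 1 g) : Continuous (gsq g) := by
  unfold gsq
  have h := hg.continuous_fderiv (by norm_num)
  fun_prop

lemma hasCompactSupport_gsq {g : E3 → ℂ} (hc : HasCompactSupport g) :
    HasCompactSupport (gsq g) := by
  have h := hc.fderiv ℝ
  apply h.mono
  intro x hx
  rw [Function.mem_support] at hx ⊢
  intro h0
  apply hx
  simp [gsq, h0]

lemma integrable_gsq {g : E3 → ℂ} (hg : ContDiff ℝ 1 g) (hc : HasCompactSupport g) :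
    Integrable (gsq g) :=
  (continuous_gsq hg).integrable_of_hasCompactSupport (hasCompactSupport_gsq hc)

lemma integrable_normSq {g : E3 → ℂ} (hg : Continuous g) (hc : HasCompactSupport g) :
    Integrable (fun x => ‖g x‖ ^ 2) := by
  apply Continuous.integrable_of_hasCompactSupport (by fun_prop)
  apply hc.mono
  intro x hx
  rw [Function.mem_support] at hx ⊢
  intro h0
  apply hx
  simp [h0]

/-- derivative of the regularised radial field -/
lemma hasFDerivAt_field {ε : ℝ} (hε : 0 < ε) (c : Fin 3) (x : E3) :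
    HasFDerivAt (fun y : E3 => y c * (√(‖y‖ ^ 2 + ε ^ 2))⁻¹)
      ((x c) • (-(√(‖x‖ ^ 2 + ε ^ 2) ^ 2)⁻¹ • ((1 / (2 * √(‖x‖ ^ 2 + ε ^ 2))) • (2 • (innerSL ℝ x)))) +
        (√(‖x‖ ^ 2 + ε ^ 2))⁻¹ • (EuclideanSpace.proj c : E3 →L[ℝ] ℝ)) x := by
  have hq : 0 < ‖x‖ ^ 2 + ε ^ 2 := by positivity
  have h1 : HasFDerivAt (fun y : E3 => ‖y‖ ^ 2 + ε ^ 2) (2 • (innerSL ℝ x)) x := by
    have := (hasFDerivAt_id (𝕜 := ℝ) x).norm_sq
    simpa using this.add_const (ε ^ 2)
  have h2 := h1.sqrt hq.ne'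
  have h3 := (hasDerivAt_inv (Real.sqrt_pos.mpr hq).ne').comp_hasFDerivAt x h2
  have h4 : HasFDerivAt (fun y : E3 => y c) (EuclideanSpace.proj c : E3 →L[ℝ] ℝ) x :=
    (EuclideanSpace.proj c : E3 →L[ℝ] ℝ).hasFDerivAt
  exact h4.mul h3

lemma fderiv_field {ε : ℝ} (hε : 0 < ε) (c : Fin 3) (x : E3) :
    fderiv ℝ (fun y : E3 => y c * (√(‖y‖ ^ 2 + ε ^ 2))⁻¹) x (ed c) =
      (√(‖x‖ ^ 2 + ε ^ 2))⁻¹ - (x c) ^ 2 * ((√(‖x‖ ^ 2 + ε ^ 2)) ^ 3)⁻¹ := by
  have hq : 0 < ‖x‖ ^ 2 + ε ^ 2 := by positivity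
  have hs := Real.sqrt_pos.mpr hq
  rw [(hasFDerivAt_field hε c x).fderiv]
  simp [ed, EuclideanSpace.inner_single_right]
  field_simp
  ring

lemma contDiff_field {ε : ℝ} (hε : 0 < ε) (c : Fin 3) :
    ContDiff ℝ 1 (fun y : E3 => y c * (√(‖y‖ ^ 2 + ε ^ 2))⁻¹) := by
  apply ContDiff.mul
  · exact (EuclideanSpace.proj c : E3 →L[ℝ] ℝ).contDiff
  · apply ContDiff.inv
    · apply ContDiff.sqrt
      · exact (contDiff_norm_sq ℝ).add contDiff_const
      · intro x
        positivity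
    · intro x
      have hq : 0 < ‖x‖ ^ 2 + ε ^ 2 := by positivity
      exact (Real.sqrt_pos.mpr hq).ne'

lemma fderiv_normSq {g : E3 → ℂ} (hg : ContDiff ℝ 1 g) (x v : E3) :
    fderiv ℝ (fun y => ‖g y‖ ^ 2) x v = 2 * inner ℝ (g x) (fderiv ℝ g x v) := by
  have h := ((hg.differentiable (by norm_num)) x).hasFDerivAt.norm_sq
  rw [h.fderiv]
  simp
  ring

lemma sum_sq_coord (x : E3) : ∑ c : Fin 3, (x c) ^ 2 = ‖x‖ ^ 2 := by
  rw [EuclideanSpace.norm_sq_eq]
  simp

lemma hardy_reg {g : E3 → ℂ} (hg : ContDiff ℝ 1 g) (hc : HasCompactSupport g) {ε s : ℝ}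
    (hε : 0 < ε) (hs : 0 < s) :
    ∫ x, 2 * (√(‖x‖ ^ 2 + ε ^ 2))⁻¹ * ‖g x‖ ^ 2 ≤
      s * (∫ x, gsq g x) + s⁻¹ * ∫ x, ‖g x‖ ^ 2 := by
  set F : Fin 3 → E3 → ℝ := fun c y => y c * (√(‖y‖ ^ 2 + ε ^ 2))⁻¹ with hF
  set h : E3 → ℝ := fun x => ‖g x‖ ^ 2 with hh
  have hh1 : ContDiff ℝ 1 h := hg.norm_sq ℝ
  have hhc : HasCompactSupport h := by
    apply hc.mono
    intro x hx
    rw [Function.mem_support] at hx ⊢
    intro h0
    apply hx
    simp [hh, h0]
  have hF1 : ∀ c, ContDiff ℝ 1 (F c) := fun c => contDiff_field hε c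
  have hcF : ∀ c, Continuous (F c) := fun c => (hF1 c).continuous
  have hcF' : ∀ c, Continuous (fun x => fderiv ℝ (F c) x (ed c)) := fun c =>
    ((hF1 c).continuous_fderiv (by norm_num)).clm_apply continuous_const
  have hch' : ∀ c, Continuous (fun x => fderiv ℝ h x (ed c)) := fun c =>
    (hh1.continuous_fderiv (by norm_num)).clm_apply continuous_const
  have hhc' : ∀ c, HasCompactSupport (fun x => fderiv ℝ h x (ed c)) := fun c =>
    hhc.fderiv_apply ℝ (ed c)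
  have i1 : ∀ c, Integrable (fun x => fderiv ℝ (F c) x (ed c) * h x) := fun c =>
    ((hcF' c).mul hh1.continuous).integrable_of_hasCompactSupport hhc.mul_left
  have i2 : ∀ c, Integrable (fun x => F c x * fderiv ℝ h x (ed c)) := fun c =>
    ((hcF c).mul (hch' c)).integrable_of_hasCompactSupport (hhc' c).mul_left
  have i3 : ∀ c, Integrable (fun x => F c x * h x) := fun c =>
    ((hcF c).mul hh1.continuous).integrable_of_hasCompactSupport hhc.mul_left
  have ibp : ∀ c, ∫ x, F c x * fderiv ℝ h x (ed c) = - ∫ x, fderiv ℝ (F c) x (ed c) * h x :=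
    fun c => integral_mul_fderiv_eq_neg_fderiv_mul_of_integrable (i1 c) (i2 c) (i3 c)
      (fun x _ => ((hF1 c).differentiable (by norm_num)) x)
      (fun x _ => (hh1.differentiable (by norm_num)) x)
  have hdiv : ∀ x, 2 * (√(‖x‖ ^ 2 + ε ^ 2))⁻¹ * ‖g x‖ ^ 2 ≤
      ∑ c, fderiv ℝ (F c) x (ed c) * h x := by
    intro x
    have hq : 0 < ‖x‖ ^ 2 + ε ^ 2 := by positivity
    have hsq := Real.sqrt_pos.mpr hq
    rw [← Finset.sum_mul]
    have : ∑ c, fderiv ℝ (F c) x (ed c) =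
        3 * (√(‖x‖ ^ 2 + ε ^ 2))⁻¹ - ‖x‖ ^ 2 * ((√(‖x‖ ^ 2 + ε ^ 2)) ^ 3)⁻¹ := by
      simp only [hF, fderiv_field hε]
      rw [Finset.sum_sub_distrib, ← Finset.sum_mul, sum_sq_coord]
      simp
    rw [this]
    apply mul_le_mul_of_nonneg_right _ (by positivity)
    have h3 : ‖x‖ ^ 2 * ((√(‖x‖ ^ 2 + ε ^ 2)) ^ 3)⁻¹ ≤ (√(‖x‖ ^ 2 + ε ^ 2))⁻¹ := by
      rw [← div_eq_mul_inv, div_le_iff₀ (by positivity)]
      have : (√(‖x‖ ^ 2 + ε ^ 2))⁻¹ * √(‖x‖ ^ 2 + ε ^ 2) ^ 3 = √(‖x‖ ^ 2 + ε ^ 2) ^ 2 := by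
        field_simp
      rw [this, Real.sq_sqrt hq.le]
      nlinarith
    linarith
  have hgrad : ∀ x, -(∑ c, F c x * fderiv ℝ h x (ed c)) ≤ s * gsq g x + s⁻¹ * ‖g x‖ ^ 2 := by
    intro x
    have hq : 0 < ‖x‖ ^ 2 + ε ^ 2 := by positivity
    have hsq := Real.sqrt_pos.mpr hq
    have hFs : ∑ c, (F c x) ^ 2 ≤ 1 := by
      simp only [hF, mul_pow]
      rw [← Finset.sum_mul, sum_sq_coord, inv_pow, Real.sq_sqrt hq.le, ← div_eq_mul_inv,
        div_le_one hq]
      nlinarith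
    have hterm : ∀ c, -(F c x * fderiv ℝ h x (ed c)) ≤
        s * ‖fderiv ℝ g x (ed c)‖ ^ 2 + s⁻¹ * ‖g x‖ ^ 2 * (F c x) ^ 2 := by
      intro c
      have e1 : fderiv ℝ h x (ed c) = 2 * inner ℝ (g x) (fderiv ℝ g x (ed c)) :=
        fderiv_normSq hg x (ed c)
      rw [e1]
      have e2 := abs_real_inner_le_norm (g x) (fderiv ℝ g x (ed c))
      generalize ‖g x‖ = a at *
      generalize ‖fderiv ℝ g x (ed c)‖ = b at *
      generalize inner ℝ (g x) (fderiv ℝ g x (ed c)) = t at *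
      generalize F c x = f at *
      have e3 : -(f * (2 * t)) ≤ 2 * |f| * (a * b) := by
        have : -(f * (2 * t)) ≤ |f * (2 * t)| := neg_le_abs _
        rw [abs_mul, abs_mul, abs_two] at this
        nlinarith [abs_nonneg f]
      have e4 : 2 * |f| * (a * b) ≤ s * b ^ 2 + s⁻¹ * a ^ 2 * f ^ 2 := by
        have : s * b ^ 2 + s⁻¹ * a ^ 2 * f ^ 2 - 2 * |f| * (a * b) =
            s * (b - s⁻¹ * a * |f|) ^ 2 := by
          have h5 : |f| ^ 2 = f ^ 2 := sq_abs _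
          rw [← h5]
          field_simp
          ring
        have h6 : 0 ≤ s * (b - s⁻¹ * a * |f|) ^ 2 := by positivity
        linarith
      linarith
    calc -(∑ c, F c x * fderiv ℝ h x (ed c)) = ∑ c, -(F c x * fderiv ℝ h x (ed c)) := by
          rw [Finset.sum_neg_distrib]
      _ ≤ ∑ c, (s * ‖fderiv ℝ g x (ed c)‖ ^ 2 + s⁻¹ * ‖g x‖ ^ 2 * (F c x) ^ 2) :=
          Finset.sum_le_sum fun c _ => hterm c
      _ = s * gsq g x + s⁻¹ * ‖g x‖ ^ 2 * ∑ c, (F c x) ^ 2 := by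
          rw [Finset.sum_add_distrib, ← Finset.mul_sum, ← Finset.mul_sum]
          rfl
      _ ≤ s * gsq g x + s⁻¹ * ‖g x‖ ^ 2 := by
          have : 0 ≤ s⁻¹ * ‖g x‖ ^ 2 := by positivity
          nlinarith
  have hI : Integrable (fun x => 2 * (√(‖x‖ ^ 2 + ε ^ 2))⁻¹ * ‖g x‖ ^ 2) := by
    apply Continuous.integrable_of_hasCompactSupport
    · apply Continuous.mul _ hh1.continuous
      apply continuous_const.mul
      apply Continuous.inv₀ (by fun_prop)
      intro x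
      have hq : 0 < ‖x‖ ^ 2 + ε ^ 2 := by positivity
      exact (Real.sqrt_pos.mpr hq).ne'
    · exact hhc.mul_left
  calc ∫ x, 2 * (√(‖x‖ ^ 2 + ε ^ 2))⁻¹ * ‖g x‖ ^ 2
      ≤ ∫ x, ∑ c, fderiv ℝ (F c) x (ed c) * h x :=
        integral_mono hI (integrable_finsetSum _ fun c _ => i1 c) hdiv
    _ = ∑ c, ∫ x, fderiv ℝ (F c) x (ed c) * h x := integral_finsetSum _ fun c _ => i1 c
    _ = - ∑ c, ∫ x, F c x * fderiv ℝ h x (ed c) := by
        simp only [ibp, Finset.sum_neg_distrib, neg_neg]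
    _ = ∫ x, -(∑ c, F c x * fderiv ℝ h x (ed c)) := by
        rw [integral_neg, integral_finsetSum _ fun c _ => i2 c]
    _ ≤ ∫ x, (s * gsq g x + s⁻¹ * ‖g x‖ ^ 2) := by
        apply integral_mono
        · exact (integrable_finsetSum _ fun c _ => i2 c).neg
        · exact ((integrable_gsq hg hc).const_mul _).add
            ((integrable_normSq hg.continuous hc).const_mul _)
        · exact hgrad
    _ = s * (∫ x, gsq g x) + s⁻¹ * ∫ x, ‖g x‖ ^ 2 := by
        rw [integral_add ((integrable_gsq hg hc).const_mul _)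
          ((integrable_normSq hg.continuous hc).const_mul _), integral_const_mul,
          integral_const_mul]

lemma locallyIntegrable_inv_norm : LocallyIntegrable (fun x : E3 => ‖x‖⁻¹) := by
  intro x
  refine ⟨Metric.ball 0 (‖x‖ + 1), ?_, ?_⟩
  · apply Metric.isOpen_ball.mem_nhds
    simp
  · rw [integrableOn_fun_norm_addHaar volume (f := fun y : ℝ => y⁻¹)]
    have h3 : Module.finrank ℝ E3 - 1 = 2 := by simp [E3]
    rw [h3]
    have : IntegrableOn (fun y : ℝ => y) (Set.Ioo 0 (‖x‖ + 1)) :=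
      (continuous_id.integrableOn_Icc).mono_set Set.Ioo_subset_Icc_self
    apply this.congr_fun _ measurableSet_Ioo
    intro y hy
    have hy0 : y ≠ 0 := hy.1.ne'
    simp only [smul_eq_mul]
    field_simp

lemma integrable_div_norm {g : E3 → ℂ} (hg : Continuous g) (hc : HasCompactSupport g) :
    Integrable (fun x => ‖g x‖ ^ 2 / ‖x‖) := by
  have hcs : HasCompactSupport (fun x => ‖g x‖ ^ 2) := by
    apply hc.mono
    intro x hx
    rw [Function.mem_support] at hx ⊢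
    intro h0
    apply hx
    simp [h0]
  have := locallyIntegrable_inv_norm.integrable_smul_left_of_hasCompactSupport
    (g := fun x => ‖g x‖ ^ 2) (by fun_prop) hcs
  simpa [div_eq_mul_inv] using this

lemma hardy_zero {g : E3 → ℂ} (hg : ContDiff ℝ 1 g) (hc : HasCompactSupport g) {s : ℝ}
    (hs : 0 < s) :
    2 * ∫ x, ‖g x‖ ^ 2 / ‖x‖ ≤ s * (∫ x, gsq g x) + s⁻¹ * ∫ x, ‖g x‖ ^ 2 := by
  set e : ℕ → ℝ := fun n => 1 / ((n : ℝ) + 1) with he
  have he0 : ∀ n, 0 < e n := fun n => by positivity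
  have het : Tendsto e atTop (𝓝 0) := tendsto_one_div_add_atTop_nhds_zero_nat
  have hI := integrable_div_norm hg.continuous hc
  have hae : ∀ᵐ x : E3, x ≠ 0 := by
    have : (volume : Measure E3) {0} = 0 := measure_singleton 0
    exact (measure_eq_zero_iff_ae_notMem.mp this).mono fun x hx => by simpa using hx
  have hlim : Tendsto (fun n => ∫ x, 2 * (√(‖x‖ ^ 2 + e n ^ 2))⁻¹ * ‖g x‖ ^ 2) atTop
      (𝓝 (∫ x, 2 * (‖g x‖ ^ 2 / ‖x‖))) := by
    apply tendsto_integral_of_dominated_convergence (fun x => 2 * (‖g x‖ ^ 2 / ‖x‖))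
    · intro n
      apply Continuous.aestronglyMeasurable
      apply Continuous.mul _ (hg.continuous.norm.pow 2)
      apply continuous_const.mul
      apply Continuous.inv₀ (by fun_prop)
      intro x
      have hq : 0 < ‖x‖ ^ 2 + e n ^ 2 := by have := he0 n; positivity
      exact (Real.sqrt_pos.mpr hq).ne'
    · exact hI.const_mul 2
    · intro n
      filter_upwards [hae] with x hx
      have hx0 : 0 < ‖x‖ := norm_pos_iff.mpr hx
      have hle : ‖x‖ ≤ √(‖x‖ ^ 2 + e n ^ 2) := by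
        apply Real.le_sqrt_of_sq_le
        have := he0 n
        nlinarith
      rw [Real.norm_of_nonneg (by positivity), mul_assoc]
      apply mul_le_mul_of_nonneg_left _ (by norm_num)
      rw [div_eq_mul_inv, mul_comm]
      apply mul_le_mul_of_nonneg_left _ (by positivity)
      exact inv_anti₀ hx0 hle
    · filter_upwards [hae] with x hx
      have hx0 : 0 < ‖x‖ := norm_pos_iff.mpr hx
      have h1 : Tendsto (fun n => √(‖x‖ ^ 2 + e n ^ 2)) atTop (𝓝 (√(‖x‖ ^ 2 + 0 ^ 2))) :=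
        ((het.pow 2).const_add _).sqrt
      have h2 : √(‖x‖ ^ 2 + 0 ^ 2) = ‖x‖ := by
        rw [zero_pow two_ne_zero, add_zero, Real.sqrt_sq hx0.le]
      rw [h2] at h1
      have h3 := ((h1.inv₀ hx0.ne').const_mul 2).mul_const (‖g x‖ ^ 2)
      convert! h3 using 2
      ring
  rw [integral_const_mul] at hlim
  exact le_of_tendsto' hlim fun n => hardy_reg hg hc (he0 n) hs

lemma gsq_comp_add (g : E3 → ℂ) (a x : E3) : gsq (fun y => g (y + a)) x = gsq g (x + a) := by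
  unfold gsq
  simp only [fderiv_comp_add_right]

lemma hasCompactSupport_comp_add {g : E3 → ℂ} (hc : HasCompactSupport g) (a : E3) :
    HasCompactSupport (fun y => g (y + a)) :=
  hc.comp_homeomorph (Homeomorph.addRight a)

lemma integrable_div_dist {g : E3 → ℂ} (hg : Continuous g) (hc : HasCompactSupport g) (a : E3) :
    Integrable (fun x => ‖g x‖ ^ 2 / dist x a) := by
  have h := integrable_div_norm (g := fun y => g (y + a)) (by fun_prop)
    (hasCompactSupport_comp_add hc a)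
  have h2 := h.comp_sub_right a
  simpa [dist_eq_norm] using h2

lemma hardy {g : E3 → ℂ} (hg : ContDiff ℝ 1 g) (hc : HasCompactSupport g) {s : ℝ}
    (hs : 0 < s) (a : E3) :
    2 * ∫ x, ‖g x‖ ^ 2 / dist x a ≤ s * (∫ x, gsq g x) + s⁻¹ * ∫ x, ‖g x‖ ^ 2 := by
  have h := hardy_zero (g := fun y => g (y + a)) (by fun_prop)
    (hasCompactSupport_comp_add hc a) hs
  simp only [gsq_comp_add] at h
  have e1 : ∫ x, ‖g (x + a)‖ ^ 2 / ‖x‖ = ∫ x, ‖g x‖ ^ 2 / dist x a := by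
    rw [← integral_add_right_eq_self (fun x => ‖g x‖ ^ 2 / dist x a) a]
    simp [dist_eq_norm]
  have e2 : ∫ x, gsq g (x + a) = ∫ x, gsq g x := integral_add_right_eq_self (gsq g) a
  have e3 : ∫ x, ‖g (x + a)‖ ^ 2 = ∫ x, ‖g x‖ ^ 2 :=
    integral_add_right_eq_self (fun x => ‖g x‖ ^ 2) a
  rw [e1, e2, e3] at h
  exact h

/-- One-particle energy form of the hydrogen atom with nucleus at `a`. -/
noncomputable def hform (g : E3 → ℂ) (a : E3) : ℝ :=
  1 / 2 * (∫ x, gsq g x) - ∫ x, ‖g x‖ ^ 2 / dist x a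

/-- Energies of normalised smooth functions supported in the open ball of radius `ρ`. -/
def ballSet (ρ : ℝ) : Set ℝ :=
  {e : ℝ | ∃ g : E3 → ℂ, ContDiff ℝ ∞ g ∧ (∀ x, g x ≠ 0 → dist x 0 < ρ) ∧
    (∫ x, ‖g x‖ ^ 2) = 1 ∧ e = hform g 0}

/-- The Dirichlet ground state energy of hydrogen in a ball of radius `ρ`. -/
noncomputable def eb (ρ : ℝ) : ℝ := sInf (ballSet ρ)

lemma hasCompactSupport_of_ball {g : E3 → ℂ} {a : E3} {ρ : ℝ} (h : ∀ x, g x ≠ 0 → dist x a < ρ) :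
    HasCompactSupport g :=
  HasCompactSupport.of_support_subset_isCompact (isCompact_closedBall a ρ)
    (fun x hx => Metric.mem_closedBall.mpr (h x hx).le)

lemma gsq_const_smul (g : E3 → ℂ) (hg : ContDiff ℝ 1 g) (c : ℝ) (x : E3) :
    gsq (fun y => (c : ℂ) * g y) x = c ^ 2 * gsq g x := by
  unfold gsq
  have h : fderiv ℝ (fun y => (c : ℂ) * g y) x = (c : ℂ) • fderiv ℝ g x :=
    fderiv_const_mul (hg.differentiable (by norm_num) x) (c : ℂ)
  rw [h, Finset.mul_sum]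
  refine Finset.sum_congr rfl fun i _ => ?_
  simp [mul_pow]

lemma hform_const_smul (g : E3 → ℂ) (hg : ContDiff ℝ 1 g) (c : ℝ) (a : E3) :
    hform (fun y => (c : ℂ) * g y) a = c ^ 2 * hform g a := by
  unfold hform
  simp only [gsq_const_smul g hg c]
  have : ∀ x, ‖(c : ℂ) * g x‖ ^ 2 / dist x a = c ^ 2 * (‖g x‖ ^ 2 / dist x a) := by
    intro x
    simp [mul_pow]
    ring
  simp only [this, integral_const_mul]
  ring

lemma hform_comp_add (g : E3 → ℂ) (a b : E3) :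
    hform (fun y => g (y + a)) b = hform g (b + a) := by
  unfold hform
  simp only [gsq_comp_add]
  have e2 : ∫ x, gsq g (x + a) = ∫ x, gsq g x := integral_add_right_eq_self (gsq g) a
  rw [e2]
  congr 1
  rw [← integral_add_right_eq_self (fun x => ‖g x‖ ^ 2 / dist x (b + a)) a]
  simp

lemma hform_lower {g : E3 → ℂ} (hg : ContDiff ℝ 1 g) (hc : HasCompactSupport g) (a : E3) :
    -(1 / 2) * (∫ x, ‖g x‖ ^ 2) ≤ hform g a := by
  have h := hardy hg hc one_pos a
  unfold hform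
  linarith

lemma ballSet_bddBelow (ρ : ℝ) : BddBelow (ballSet ρ) := by
  refine ⟨-(1 / 2), ?_⟩
  rintro e ⟨g, hg, hs, hn, rfl⟩
  have h := hform_lower (hg.of_le (by exact_mod_cast le_top)) (hasCompactSupport_of_ball hs) 0
  rw [hn] at h
  linarith

lemma eq_zero_of_normSq_eq_zero {g : E3 → ℂ} (hg : Continuous g) (hc : HasCompactSupport g)
    (h0 : (∫ x, ‖g x‖ ^ 2) = 0) : ∀ x, g x = 0 := by
  intro x
  by_contra hx
  have hcs : HasCompactSupport (fun x => ‖g x‖ ^ 2) := by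
    apply hc.mono
    intro x hx
    rw [Function.mem_support] at hx ⊢
    intro h0
    apply hx
    simp [h0]
  have := Continuous.integral_pos_of_hasCompactSupport_nonneg_nonzero (μ := volume)
    (f := fun x => ‖g x‖ ^ 2) (x := x) (by fun_prop) hcs (fun x => by positivity)
    (by simpa using hx)
  exact this.ne' h0

lemma eb_le_hform {ρ : ℝ} {g : E3 → ℂ} (hg : ContDiff ℝ ∞ g) (a : E3)
    (hs : ∀ x, g x ≠ 0 → dist x a < ρ) :
    eb ρ * (∫ x, ‖g x‖ ^ 2) ≤ hform g a := by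
  have hg1 : ContDiff ℝ 1 g := hg.of_le (by exact_mod_cast le_top)
  have hc := hasCompactSupport_of_ball hs
  rcases (integral_nonneg (μ := volume) (f := fun x => ‖g x‖ ^ 2)
    (fun x => by positivity)).lt_or_eq' with hpos | hzero
  · set n := ∫ x, ‖g x‖ ^ 2 with hn
    set c : ℝ := (√n)⁻¹ with hcdef
    have hc2 : c ^ 2 = n⁻¹ := by
      rw [hcdef, inv_pow, Real.sq_sqrt hpos.le]
    set f : E3 → ℂ := fun y => (c : ℂ) * g (y + a) with hf
    have hf1 : ContDiff ℝ 1 (fun y => g (y + a)) := by fun_prop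
    have hmem : hform f 0 ∈ ballSet ρ := by
      refine ⟨f, ?_, ?_, ?_, rfl⟩
      · have : ContDiff ℝ ∞ (fun y => g (y + a)) := hg.comp (contDiff_id.add contDiff_const)
        exact contDiff_const.mul this
      · intro x hx
        have : g (x + a) ≠ 0 := by
          intro h0
          apply hx
          simp [hf, h0]
        simpa using hs _ this
      · have : ∀ x, ‖f x‖ ^ 2 = c ^ 2 * ‖g (x + a)‖ ^ 2 := by
          intro x
          simp [hf, mul_pow]
        simp only [this, integral_const_mul]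
        rw [integral_add_right_eq_self (fun x => ‖g x‖ ^ 2) a, hc2, ← hn]
        exact inv_mul_cancel₀ hpos.ne'
    have h1 : eb ρ ≤ hform f 0 := csInf_le (ballSet_bddBelow ρ) hmem
    rw [hf, hform_const_smul _ hf1, hform_comp_add, zero_add, hc2] at h1
    rw [← div_eq_inv_mul, le_div_iff₀ hpos] at h1
    exact h1
  · have h0 := eq_zero_of_normSq_eq_zero hg.continuous hc hzero
    have hg0 : g = fun _ => 0 := funext h0
    subst hg0
    simp [hform, gsq]

/-- A fixed smooth bump. -/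
noncomputable def bump : ContDiffBump (0 : E3) := ⟨1, 2, one_pos, one_lt_two⟩

/-- A complex valued bump. -/
noncomputable def cb (x : E3) : ℂ := ((bump x : ℝ) : ℂ)

lemma contDiff_cb : ContDiff ℝ ∞ cb :=
  Complex.ofRealCLM.contDiff.comp bump.contDiff

lemma cb_support {x : E3} (hx : cb x ≠ 0) : dist x 0 < 2 := by
  have : bump x ≠ 0 := by
    intro h
    apply hx
    simp [cb, h]
  have h2 : x ∈ Function.support bump := this
  rw [bump.support_eq] at h2
  simpa [bump] using h2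

lemma cb_zero : cb 0 = 1 := by
  have : bump 0 = 1 := bump.one_of_mem_closedBall (by simp [bump])
  simp [cb, this]

lemma cb_normSq_pos : 0 < ∫ x, ‖cb x‖ ^ 2 := by
  have hc : HasCompactSupport cb := hasCompactSupport_of_ball (fun x hx => cb_support hx)
  have h0 := integral_nonneg (μ := volume) (f := fun x => ‖cb x‖ ^ 2) (fun x => by positivity)
  rcases h0.lt_or_eq' with h | h
  · exact h
  · have := eq_zero_of_normSq_eq_zero contDiff_cb.continuous hc h 0
    rw [cb_zero] at this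
    exact absurd this one_ne_zero

lemma ae_ne (a : E3) : ∀ᵐ x : E3, x ≠ a := by
  have : (volume : Measure E3) {a} = 0 := measure_singleton a
  exact (measure_eq_zero_iff_ae_notMem.mp this).mono fun x hx => by simpa using hx

lemma cb_attraction_pos : 0 < ∫ x, ‖cb x‖ ^ 2 / dist x 0 := by
  have hc : HasCompactSupport cb := hasCompactSupport_of_ball (fun x hx => cb_support hx)
  have hI := integrable_div_dist contDiff_cb.continuous hc 0
  have hI2 := integrable_normSq contDiff_cb.continuous hc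
  have h : ∫ x, ‖cb x‖ ^ 2 / 2 ≤ ∫ x, ‖cb x‖ ^ 2 / dist x 0 := by
    apply integral_mono_ae (hI2.div_const 2) hI
    filter_upwards [ae_ne 0] with x hx
    by_cases hcx : cb x = 0
    · simp [hcx]
    · have := cb_support hcx
      have h0 : 0 < dist x 0 := dist_pos.mpr hx
      exact div_le_div_of_nonneg_left (by positivity) h0 this.le
  have h2 := cb_normSq_pos
  rw [integral_div] at h
  linarith

lemma gsq_comp_smul (g : E3 → ℂ) (c : ℝ) (x : E3) :
    gsq (fun y => g (c • y)) x = c ^ 2 * gsq g (c • x) := by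
  unfold gsq
  rw [Finset.mul_sum]
  refine Finset.sum_congr rfl fun i _ => ?_
  rw [fderiv_comp_smul]
  simp [mul_pow]

lemma finrank_E3 : Module.finrank ℝ E3 = 3 := by simp [E3]

/-- There is a compactly supported trial function with negative energy. -/
lemma exists_neg : ∃ ρ₀ > 0, ∃ c₀ > 0, ∃ g : E3 → ℂ, ContDiff ℝ ∞ g ∧
    (∀ x, g x ≠ 0 → dist x 0 < ρ₀) ∧ (∫ x, ‖g x‖ ^ 2) = 1 ∧ hform g 0 ≤ -c₀ := by
  set N := ∫ x, ‖cb x‖ ^ 2 with hN
  set T := ∫ x, gsq cb x with hT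
  set V := ∫ x, ‖cb x‖ ^ 2 / dist x 0 with hV
  have hNp : 0 < N := cb_normSq_pos
  have hVp : 0 < V := cb_attraction_pos
  have hTp : 0 ≤ T := integral_nonneg (fun x => gsq_nonneg _ _)
  set l : ℝ := V / (T + 1) with hl
  have hlp : 0 < l := by positivity
  have hlT : l * T ≤ V := by
    rw [hl, div_mul_eq_mul_div, div_le_iff₀ (by positivity)]
    nlinarith
  set f : E3 → ℂ := fun x => cb (l • x) with hf
  have hfs : ContDiff ℝ ∞ f := contDiff_cb.comp (contDiff_const_smul l)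
  have hf1 : ContDiff ℝ 1 f := hfs.of_le (by exact_mod_cast le_top)
  have hsup : ∀ x, f x ≠ 0 → dist x 0 < 2 / l := by
    intro x hx
    have := cb_support hx
    rw [dist_zero_right, norm_smul, Real.norm_of_nonneg hlp.le] at this
    rw [dist_zero_right, lt_div_iff₀ hlp]
    linarith
  have hcs (φ : E3 → ℝ) : ∫ x, φ (l • x) = (l ^ 3)⁻¹ * ∫ x, φ x := by
    have := Measure.integral_comp_smul (volume : Measure E3) φ l
    rw [this, finrank_E3, abs_of_pos (by positivity)]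
    rfl
  have eN : ∫ x, ‖f x‖ ^ 2 = (l ^ 3)⁻¹ * N := hcs (fun x => ‖cb x‖ ^ 2)
  have eT : ∫ x, gsq f x = l ^ 2 * ((l ^ 3)⁻¹ * T) := by
    have : ∀ x, gsq f x = l ^ 2 * gsq cb (l • x) := fun x => gsq_comp_smul cb l x
    simp only [this, integral_const_mul]
    rw [hcs (gsq cb)]
  have eV : ∫ x, ‖f x‖ ^ 2 / dist x 0 = l * ((l ^ 3)⁻¹ * V) := by
    have : ∀ x, ‖f x‖ ^ 2 / dist x 0 = l * (‖cb (l • x)‖ ^ 2 / dist (l • x) 0) := by
      intro x
      rw [dist_zero_right, dist_zero_right, norm_smul, Real.norm_of_nonneg hlp.le]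
      by_cases hx : ‖x‖ = 0
      · simp [hx]
      · field_simp
        rfl
    simp only [this, integral_const_mul]
    rw [hcs (fun x => ‖cb x‖ ^ 2 / dist x 0)]
  set n := (l ^ 3)⁻¹ * N with hn
  have hnp : 0 < n := by positivity
  have hfe : hform f 0 ≤ - (l * V / 2) * (l ^ 3)⁻¹ := by
    unfold hform
    rw [eT, eV]
    have hi : 0 < (l ^ 3)⁻¹ := by positivity
    have : 1 / 2 * (l ^ 2 * ((l ^ 3)⁻¹ * T)) - l * ((l ^ 3)⁻¹ * V) =
      (l ^ 3)⁻¹ * l * (1 / 2 * (l * T) - V) := by ring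
    rw [this]
    have h2 : 1 / 2 * (l * T) - V ≤ - (V / 2) := by linarith
    have h3 : 0 ≤ (l ^ 3)⁻¹ * l := by positivity
    calc (l ^ 3)⁻¹ * l * (1 / 2 * (l * T) - V) ≤ (l ^ 3)⁻¹ * l * (- (V / 2)) :=
          mul_le_mul_of_nonneg_left h2 h3
      _ = _ := by ring
  refine ⟨2 / l, by positivity, l * V / (2 * N), by positivity,
    fun x => (((√n)⁻¹ : ℝ) : ℂ) * f x, contDiff_const.mul hfs, ?_, ?_, ?_⟩
  · intro x hx
    exact hsup x (right_ne_zero_of_mul hx)
  · have : ∀ x, ‖(((√n)⁻¹ : ℝ) : ℂ) * f x‖ ^ 2 = n⁻¹ * ‖f x‖ ^ 2 := by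
      intro x
      rw [norm_mul, mul_pow, Complex.norm_real, Real.norm_of_nonneg (by positivity), inv_pow,
        Real.sq_sqrt hnp.le]
    simp only [this, integral_const_mul]
    rw [eN]
    exact inv_mul_cancel₀ hnp.ne'
  · rw [hform_const_smul f hf1, inv_pow, Real.sq_sqrt hnp.le]
    calc n⁻¹ * hform f 0 ≤ n⁻¹ * (- (l * V / 2) * (l ^ 3)⁻¹) :=
          mul_le_mul_of_nonneg_left hfe (by positivity)
      _ = - (l * V / (2 * N)) := by
          rw [hn]
          field_simp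

lemma eb_neg : ∃ ρ₀ > 0, ∃ c₀ > 0, ∀ ρ ≥ ρ₀, eb ρ ≤ -c₀ ∧ (ballSet ρ).Nonempty := by
  obtain ⟨ρ₀, hρ₀, c₀, hc₀, g, hg, hs, hn, hle⟩ := exists_neg
  refine ⟨ρ₀, hρ₀, c₀, hc₀, fun ρ hρ => ?_⟩
  have hmem : hform g 0 ∈ ballSet ρ := ⟨g, hg, fun x hx => (hs x hx).trans_le hρ, hn, rfl⟩
  exact ⟨(csInf_le (ballSet_bddBelow ρ) hmem).trans hle, ⟨_, hmem⟩⟩

lemma exists_near_eb {ρ : ℝ} (hne : (ballSet ρ).Nonempty) {η : ℝ} (hη : 0 < η) :
    ∃ g : E3 → ℂ, ContDiff ℝ ∞ g ∧ (∀ x, g x ≠ 0 → dist x 0 < ρ) ∧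
      (∫ x, ‖g x‖ ^ 2) = 1 ∧ hform g 0 ≤ eb ρ + η := by
  obtain ⟨e, he, hlt⟩ := exists_lt_of_csInf_lt hne (lt_add_of_pos_right (sInf (ballSet ρ)) hη)
  obtain ⟨g, hg, hs, hn, rfl⟩ := he
  exact ⟨g, hg, hs, hn, hlt.le⟩

end Pool.Agent.Lib.MP_9fcec4_mp
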