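import Pool.Agent.Lib.MP_9fcec4_mp.Ground

open MeasureTheory Filter Topology
open scoped ContDiff

namespace Pool.Agent.Lib.MP_9fcec4_mp

/-- With no electrons the energy is zero. -/
theorem groundEnergy_zero {K : ℕ} (R : Fin K → E3) (Z : Fin K → ℕ) : groundEnergy R Z 0 = 0 := by
  have h : energySet R Z 0 = {0} := by
    ext e
    simp only [energySet, Set.mem_ofPred_eq, Set.mem_singleton_iff]
    constructor
    · rintro ⟨ψ, _, _, rfl⟩
      simp [energy, potential]
    · rintro rfl
      refine ⟨fun _ _ => 1, ⟨fun _ => contDiff_const, fun _ => ?_, fun π x σ => ?_⟩, ?_, ?_⟩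
      · exact HasCompactSupport.of_compactSpace _
      · have : π = 1 := Subsingleton.elim _ _
        simp [this]
      · have h1 : (volume : Measure (Fin 0 → E3)) Set.univ = 1 := by
          rw [volume_pi, Measure.pi_of_empty (x := fun i => i.elim0)]
          simp
        simp [normSq, measureReal_def, h1]
      · simp [energy, potential]
  unfold groundEnergy
  rw [h, csInf_singleton]

/-- Hardy-type inequality for one particle in a many-particle function. -/
lemma hardyN {M : ℕ} {f : (Fin M → E3) → ℂ} (hf : ContDiff ℝ ∞ f)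
    (hc : HasCompactSupport f) (i : Fin M) (a : E3) {s : ℝ} (hs : 0 < s) :
    2 * ∫ x, ‖f x‖ ^ 2 / dist (x i) a ≤ s * (∫ x, gradSq f i x) + s⁻¹ * ∫ x, ‖f x‖ ^ 2 := by
  have hfc := hf.continuous
  have h1i : (1 : WithTop ℕ∞) ≤ ∞ := by exact_mod_cast le_top
  have hgc := continuous_gradSq hf i
  have h3 : ∀ x, gsq (slice f i x) = fun y => gradSq f i (Function.update x i y) := fun x =>
    funext fun y => gsq_slice hf i x y
  have h1 : ∀ x, Integrable (fun y => gradSq f i (Function.update x i y)) := by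
    intro x
    rw [← h3]
    exact integrable_gsq ((contDiff_slice hf i x).of_le h1i) (hasCompactSupport_slice hc i x)
  have h2 : ∀ x, Integrable (fun y => ‖f (Function.update x i y)‖ ^ 2) := fun x =>
    integrable_normSq (contDiff_slice hf i x).continuous (hasCompactSupport_slice hc i x)
  have key := (slice_le i (F := fun x => ‖f x‖ ^ 2 / dist (x i) a)
    (G := fun x => s / 2 * gradSq f i x + s⁻¹ / 2 * ‖f x‖ ^ 2) ?_ ?_ ?_ ?_ ?_ ?_ ?_ ?_).2
  · rw [integral_add ((integrable_gradSq hf hc i).const_mul _)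
      ((integrable_normSqN hfc hc).const_mul _), integral_const_mul, integral_const_mul] at key
    linarith
  · exact Measurable.div (hfc.norm.pow 2).measurable
      ((continuous_apply i).dist continuous_const).measurable
  · exact (by fun_prop : Continuous _).measurable
  · intro x
    positivity
  · intro x
    have := gradSq_nonneg f i x
    positivity
  · intro x
    have := integrable_div_dist (contDiff_slice hf i x).continuous
      (hasCompactSupport_slice hc i x) a
    simpa [slice] using this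
  · intro x
    exact ((h1 x).const_mul _).add ((h2 x).const_mul _)
  · intro x
    have h := hardy ((contDiff_slice hf i x).of_le h1i) (hasCompactSupport_slice hc i x)
      hs a
    rw [h3] at h
    have e1 : ∫ y, (s / 2 * gradSq f i (Function.update x i y) +
        s⁻¹ / 2 * ‖f (Function.update x i y)‖ ^ 2) =
        s / 2 * (∫ y, gradSq f i (Function.update x i y)) +
          s⁻¹ / 2 * ∫ y, ‖f (Function.update x i y)‖ ^ 2 := by
      rw [← integral_const_mul, ← integral_const_mul]
      exact integral_add ((h1 x).const_mul _) ((h2 x).const_mul _)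
    rw [e1]
    simp only [slice] at h
    simp only [Function.update_self]
    linarith
  · exact ((integrable_gradSq hf hc i).const_mul _).add
      ((integrable_normSqN hfc hc).const_mul _)

/-- The energy form is bounded below: the ground-state energy is a genuine infimum. -/
theorem energySet_bddBelow {K : ℕ} (R : Fin K → E3) (Z : Fin K → ℕ) (M : ℕ) :
    BddBelow (energySet R Z M) := by
  set Q : ℝ := ∑ k, (Z k : ℝ) with hQ
  have hQ0 : 0 ≤ Q := by positivity
  set s : ℝ := 1 / (Q + 1) with hs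
  have hs0 : 0 < s := by positivity
  have hsQ : Q * s ≤ 1 := by
    rw [hs, mul_one_div, div_le_one (by positivity)]
    linarith
  refine ⟨-(M * (Q * (s⁻¹ / 2))), ?_⟩
  rintro e ⟨ψ, hψ, hn, rfl⟩
  have key : ∀ σ, -(M * (Q * (s⁻¹ / 2))) * (∫ x, ‖ψ x σ‖ ^ 2) ≤
      ∫ x, ((1 / 2) * ∑ i, gradSq (fun y => ψ y σ) i x + potential R Z x * ‖ψ x σ‖ ^ 2) := by
    intro σ
    set f : (Fin M → E3) → ℂ := fun x => ψ x σ with hfdef
    have hf : ContDiff ℝ ∞ f := hψ.smooth σ
    have hc : HasCompactSupport f := hψ.compact σ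
    have hI := integrable_normSqN hf.continuous hc
    have hgr : Integrable (fun x => 1 / 2 * ∑ i, gradSq f i x) :=
      (integrable_finsetSum _ fun i _ => integrable_gradSq hf hc i).const_mul _
    have hatk : ∀ i : Fin M, ∀ k : Fin K,
        Integrable (fun x => (Z k : ℝ) * (‖f x‖ ^ 2 / dist (x i) (R k))) := fun i k =>
      (integrable_att hf hc i (R k)).const_mul _
    have hat : Integrable (fun x => ∑ i, ∑ k, (Z k : ℝ) * (‖f x‖ ^ 2 / dist (x i) (R k))) :=
      integrable_finsetSum _ fun i _ => integrable_finsetSum _ fun k _ => hatk i k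
    have hrep : Integrable (fun x => ∑ i, ∑ j ∈ Finset.Ioi i, ‖f x‖ ^ 2 / dist (x i) (x j)) := by
      apply integrable_finsetSum
      intro i _
      apply integrable_finsetSum
      intro j hj
      exact integrable_rep hf hc (Finset.mem_Ioi.mp hj).ne
    have hrep0 : 0 ≤ ∫ x, ∑ i, ∑ j ∈ Finset.Ioi i, ‖f x‖ ^ 2 / dist (x i) (x j) :=
      integral_nonneg fun x => Finset.sum_nonneg fun i _ => Finset.sum_nonneg fun j _ => by
        positivity
    have e2 : ∫ x, ((1 / 2) * ∑ i, gradSq f i x + potential R Z x * ‖f x‖ ^ 2) =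
        (∫ x, 1 / 2 * ∑ i, gradSq f i x) -
        (∫ x, ∑ i, ∑ k, (Z k : ℝ) * (‖f x‖ ^ 2 / dist (x i) (R k))) +
        ∫ x, ∑ i, ∑ j ∈ Finset.Ioi i, ‖f x‖ ^ 2 / dist (x i) (x j) := by
      have hga : Integrable (fun x => 1 / 2 * ∑ i, gradSq f i x -
          ∑ i, ∑ k, (Z k : ℝ) * (‖f x‖ ^ 2 / dist (x i) (R k))) := hgr.sub hat
      rw [← integral_sub hgr hat, ← integral_add hga hrep]
      congr 1
      funext x
      simp only [potential, add_mul, neg_mul, Finset.sum_mul]
      have a1 : ∑ i, ∑ k, (Z k : ℝ) / dist (x i) (R k) * ‖f x‖ ^ 2 =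
          ∑ i, ∑ k, (Z k : ℝ) * (‖f x‖ ^ 2 / dist (x i) (R k)) :=
        Finset.sum_congr rfl fun i _ => Finset.sum_congr rfl fun j _ => by ring
      have a2 : ∑ i, ∑ j ∈ Finset.Ioi i, 1 / dist (x i) (x j) * ‖f x‖ ^ 2 =
          ∑ i, ∑ j ∈ Finset.Ioi i, ‖f x‖ ^ 2 / dist (x i) (x j) :=
        Finset.sum_congr rfl fun i _ => Finset.sum_congr rfl fun j _ => by ring
      rw [a1, a2]
      ring
    have e3 : ∫ x, 1 / 2 * ∑ i, gradSq f i x = ∑ i, 1 / 2 * ∫ x, gradSq f i x := by
      rw [integral_const_mul, integral_finsetSum _ fun i _ => integrable_gradSq hf hc i,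
        Finset.mul_sum]
    have e4 : ∫ x, ∑ i, ∑ k, (Z k : ℝ) * (‖f x‖ ^ 2 / dist (x i) (R k)) =
        ∑ i, ∑ k, (Z k : ℝ) * ∫ x, ‖f x‖ ^ 2 / dist (x i) (R k) := by
      rw [integral_finsetSum _ fun i _ => integrable_finsetSum _ fun k _ => hatk i k]
      refine Finset.sum_congr rfl fun i _ => ?_
      rw [integral_finsetSum _ fun k _ => hatk i k]
      refine Finset.sum_congr rfl fun k _ => ?_
      rw [integral_const_mul]
    have hN0 : 0 ≤ ∫ x, ‖f x‖ ^ 2 := integral_nonneg fun x => by positivity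
    have hi : ∀ i : Fin M, ∑ k, (Z k : ℝ) * (∫ x, ‖f x‖ ^ 2 / dist (x i) (R k)) ≤
        1 / 2 * (∫ x, gradSq f i x) + Q * (s⁻¹ / 2) * ∫ x, ‖f x‖ ^ 2 := by
      intro i
      have hG0 : 0 ≤ ∫ x, gradSq f i x := integral_nonneg fun x => gradSq_nonneg f i x
      calc ∑ k, (Z k : ℝ) * (∫ x, ‖f x‖ ^ 2 / dist (x i) (R k))
          ≤ ∑ k, (Z k : ℝ) * (s / 2 * (∫ x, gradSq f i x) + s⁻¹ / 2 * ∫ x, ‖f x‖ ^ 2) := by
            apply Finset.sum_le_sum
            intro k _
            apply mul_le_mul_of_nonneg_left _ (by positivity)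
            have := hardyN hf hc i (R k) hs0
            linarith
        _ = Q * s / 2 * (∫ x, gradSq f i x) + Q * (s⁻¹ / 2) * ∫ x, ‖f x‖ ^ 2 := by
            rw [← Finset.sum_mul]
            ring
        _ ≤ _ := by
            have : Q * s / 2 * (∫ x, gradSq f i x) ≤ 1 / 2 * (∫ x, gradSq f i x) := by
              apply mul_le_mul_of_nonneg_right _ hG0
              linarith
            linarith
    have hsum := Finset.sum_le_sum fun i (_ : i ∈ (Finset.univ : Finset (Fin M))) => hi i
    rw [Finset.sum_add_distrib, Finset.sum_const, Finset.card_univ, Fintype.card_fin,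
      nsmul_eq_mul] at hsum
    rw [e2, e3, e4]
    linarith
  calc -(M * (Q * (s⁻¹ / 2))) = -(M * (Q * (s⁻¹ / 2))) * normSq ψ := by rw [hn, mul_one]
    _ = ∑ σ, -(M * (Q * (s⁻¹ / 2))) * (∫ x, ‖ψ x σ‖ ^ 2) := by
        unfold normSq
        rw [Finset.mul_sum]
    _ ≤ _ := Finset.sum_le_sum fun σ _ => key σ

/-- There are normalised wave functions for every number of electrons. -/
theorem energySet_nonempty {K : ℕ} (R : Fin K → E3) (Z : Fin K → ℕ) (M : ℕ) :
    (energySet R Z M).Nonempty := by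
  obtain ⟨ρ₀, hρ₀, c0, _, heb⟩ := eb_neg
  obtain ⟨_, hne⟩ := heb (1 / 4 * (4 * ρ₀)) (by linarith)
  have hsep : ∀ k ∈ Finset.range M, ∀ l ∈ Finset.range M, k ≠ l →
      1 ≤ dist ((fun n : ℕ => (EuclideanSpace.single 0 (n : ℝ) : E3)) k)
        ((fun n : ℕ => (EuclideanSpace.single 0 (n : ℝ) : E3)) l) := by
    intro k _ l _ hkl
    have h0 : dist (EuclideanSpace.single (0 : Fin 3) (k : ℝ)) (EuclideanSpace.single 0 (l : ℝ)) =
        dist (k : ℝ) (l : ℝ) := PiLp.dist_single_same 2 (fun _ => ℝ) 0 (k : ℝ) (l : ℝ)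
    show 1 ≤ dist (EuclideanSpace.single (0 : Fin 3) (k : ℝ)) (EuclideanSpace.single 0 (l : ℝ))
    rw [h0, Real.dist_eq]
    have h1 : (k : ℤ) - l ≠ 0 := by omega
    have h2 : 1 ≤ |(k : ℤ) - l| := Int.one_le_abs h1
    exact_mod_cast h2
  obtain ⟨e, ⟨ψ, hψ, hn, _⟩, _⟩ := eset_upper (K := M) (M := M)
    (y := fun n : ℕ => (EuclideanSpace.single 0 (n : ℝ) : E3)) (t := 4 * ρ₀) (δ := 1 / 4) (η := 1)
    (by linarith) (by norm_num) le_rfl one_pos hsep (s := fun i => (i : ℕ))
    (fun i => Finset.mem_range.mpr i.2) (fun i j h => Fin.ext h) hne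
  exact ⟨_, ψ, hψ, hn, rfl⟩

end Pool.Agent.Lib.MP_9fcec4_mp
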