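import Pool.Agent.Lib.MP_9fcec4_mp.Classical

open MeasureTheory Filter Topology
open scoped ContDiff

namespace Pool.Agent.Lib.MP_9fcec4_mp

/-- product wave function -/
noncomputable def Pf {M : ℕ} (w : Fin M → E3 → ℂ) (x : Fin M → E3) : ℂ := ∏ i, w i (x i)

lemma contDiff_Pf {M : ℕ} {w : Fin M → E3 → ℂ} (hw : ∀ i, ContDiff ℝ ∞ (w i)) :
    ContDiff ℝ ∞ (Pf w) := by
  unfold Pf
  apply contDiff_prod
  intro i _
  exact (hw i).comp (contDiff_apply ℝ E3 i)

lemma normSq_Pf {M : ℕ} (w : Fin M → E3 → ℂ) (x : Fin M → E3) :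
    ‖Pf w x‖ ^ 2 = ∏ i, ‖w i (x i)‖ ^ 2 := by
  unfold Pf
  rw [norm_prod, Finset.prod_pow]

lemma gradSq_Pf {M : ℕ} {w : Fin M → E3 → ℂ} (hw : ∀ i, ContDiff ℝ ∞ (w i)) (i : Fin M)
    (x : Fin M → E3) : gradSq (Pf w) i x =
      gsq (w i) (x i) * ∏ j ∈ Finset.univ.erase i, ‖w j (x j)‖ ^ 2 := by
  have hd : HasFDerivAt (Pf w) (∑ k, (∏ j ∈ Finset.univ.erase k, w j (x j)) •
      ((fderiv ℝ (w k) (x k)).comp (ContinuousLinearMap.proj k : (Fin M → E3) →L[ℝ] E3))) x := by
    apply HasFDerivAt.finsetProd (u := Finset.univ) (g := fun k (x : Fin M → E3) => w k (x k))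
    intro k _
    have h1 := ((hw k).differentiable (by norm_num) (x k)).hasFDerivAt
    exact h1.comp x (ContinuousLinearMap.proj k : (Fin M → E3) →L[ℝ] E3).hasFDerivAt
  unfold gradSq gsq
  rw [Finset.sum_mul]
  refine Finset.sum_congr rfl fun c _ => ?_
  rw [hd.fderiv]
  have : (∑ k, (∏ j ∈ Finset.univ.erase k, w j (x j)) •
      ((fderiv ℝ (w k) (x k)).comp (ContinuousLinearMap.proj k : (Fin M → E3) →L[ℝ] E3)))
      (Pi.single i (EuclideanSpace.single c (1 : ℝ))) =
      (∏ j ∈ Finset.univ.erase i, w j (x j)) * fderiv ℝ (w i) (x i) (ed c) := by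
    rw [sum_apply, Finset.sum_eq_single i]
    · simp
    · intro k _ hk
      simp [hk]
    · simp
  rw [this, norm_mul, mul_pow, norm_prod, ← Finset.prod_pow]
  ring

lemma integral_single_prod {M : ℕ} (h : E3 → ℝ) (n : Fin M → E3 → ℝ) (i : Fin M)
    (hn : ∀ j, ∫ z, n j z = 1) :
    ∫ x : Fin M → E3, h (x i) * ∏ j ∈ Finset.univ.erase i, n j (x j) = ∫ z, h z := by
  have h1 : ∀ x : Fin M → E3, h (x i) * ∏ j ∈ Finset.univ.erase i, n j (x j) =
      ∏ j, (if j = i then h else n j) (x j) := by
    intro x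
    rw [← Finset.mul_prod_erase Finset.univ _ (Finset.mem_univ i)]
    simp only [if_true]
    congr 1
    refine Finset.prod_congr rfl fun j hj => ?_
    rw [if_neg (Finset.mem_erase.mp hj).1]
  simp only [h1]
  rw [integral_fintype_prod_volume_eq_prod (fun j => (if j = i then h else n j))]
  rw [← Finset.mul_prod_erase Finset.univ _ (Finset.mem_univ i)]
  simp only [if_true]
  have : ∏ j ∈ Finset.univ.erase i, ∫ z, (if j = i then h else n j) z = 1 := by
    apply Finset.prod_eq_one
    intro j hj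
    rw [if_neg (Finset.mem_erase.mp hj).1]
    exact hn j
  rw [this, mul_one]

lemma integral_normSq_Pf {M : ℕ} {w : Fin M → E3 → ℂ} (hn : ∀ j, ∫ z, ‖w j z‖ ^ 2 = 1) :
    ∫ x, ‖Pf w x‖ ^ 2 = 1 := by
  simp only [normSq_Pf]
  rw [integral_fintype_prod_volume_eq_prod (fun j z => ‖w j z‖ ^ 2)]
  exact Finset.prod_eq_one fun j _ => hn j

lemma integral_gradSq_Pf {M : ℕ} {w : Fin M → E3 → ℂ} (hw : ∀ i, ContDiff ℝ ∞ (w i))
    (hn : ∀ j, ∫ z, ‖w j z‖ ^ 2 = 1) (i : Fin M) :
    ∫ x, gradSq (Pf w) i x = ∫ z, gsq (w i) z := by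
  simp only [gradSq_Pf hw]
  exact integral_single_prod (gsq (w i)) (fun j z => ‖w j z‖ ^ 2) i hn

lemma integral_att_Pf {M : ℕ} {w : Fin M → E3 → ℂ}
    (hn : ∀ j, ∫ z, ‖w j z‖ ^ 2 = 1) (i : Fin M) (a : E3) :
    ∫ x, ‖Pf w x‖ ^ 2 / dist (x i) a = ∫ z, ‖w i z‖ ^ 2 / dist z a := by
  have h1 : ∀ x, ‖Pf w x‖ ^ 2 / dist (x i) a =
      (‖w i (x i)‖ ^ 2 / dist (x i) a) * ∏ j ∈ Finset.univ.erase i, ‖w j (x j)‖ ^ 2 := by
    intro x
    rw [normSq_Pf, ← Finset.mul_prod_erase Finset.univ _ (Finset.mem_univ i)]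
    ring
  simp only [h1]
  exact integral_single_prod (fun z => ‖w i z‖ ^ 2 / dist z a) (fun j z => ‖w j z‖ ^ 2) i hn

/-- Coulomb singularities are integrable against smooth functions: nuclei. -/
lemma integrable_att {M : ℕ} {f : (Fin M → E3) → ℂ} (hf : ContDiff ℝ ∞ f)
    (hc : HasCompactSupport f) (i : Fin M) (a : E3) :
    Integrable (fun x => ‖f x‖ ^ 2 / dist (x i) a) := by
  have hfc := hf.continuous
  have h1i : (1 : WithTop ℕ∞) ≤ ∞ := by exact_mod_cast le_top
  have hgc := continuous_gradSq hf i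
  have h3 : ∀ x, gsq (slice f i x) = fun y => gradSq f i (Function.update x i y) := fun x =>
    funext fun y => gsq_slice hf i x y
  have h1 : ∀ x, Integrable (fun y => gradSq f i (Function.update x i y)) := by
    intro x
    rw [← h3]
    exact integrable_gsq ((contDiff_slice hf i x).of_le h1i) (hasCompactSupport_slice hc i x)
  have h2 : ∀ x, Integrable (fun y => ‖f (Function.update x i y)‖ ^ 2) := fun x =>
    integrable_normSq (contDiff_slice hf i x).continuous (hasCompactSupport_slice hc i x)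
  refine (slice_le i (F := fun x => ‖f x‖ ^ 2 / dist (x i) a)
    (G := fun x => 1 / 2 * gradSq f i x + 1 / 2 * ‖f x‖ ^ 2) ?_ ?_ ?_ ?_ ?_ ?_ ?_ ?_).1
  · exact Measurable.div (hfc.norm.pow 2).measurable
      ((continuous_apply i).dist continuous_const).measurable
  · exact (by fun_prop : Continuous _).measurable
  · intro x
    positivity
  · intro x
    have := gradSq_nonneg f i x
    positivity
  · intro x
    have := integrable_div_dist (contDiff_slice hf i x).continuous
      (hasCompactSupport_slice hc i x) a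
    simpa [slice] using this
  · intro x
    exact ((h1 x).const_mul _).add ((h2 x).const_mul _)
  · intro x
    have h := hardy ((contDiff_slice hf i x).of_le h1i) (hasCompactSupport_slice hc i x)
      one_pos a
    rw [h3] at h
    have e1 : ∫ y, (1 / 2 * gradSq f i (Function.update x i y) +
        1 / 2 * ‖f (Function.update x i y)‖ ^ 2) =
        1 / 2 * (∫ y, gradSq f i (Function.update x i y)) +
          1 / 2 * ∫ y, ‖f (Function.update x i y)‖ ^ 2 := by
      rw [← integral_const_mul, ← integral_const_mul]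
      exact integral_add ((h1 x).const_mul _) ((h2 x).const_mul _)
    rw [e1]
    simp only [slice] at h
    simp only [Function.update_self]
    linarith
  · exact ((integrable_gradSq hf hc i).const_mul _).add
      ((integrable_normSqN hfc hc).const_mul _)

/-- sums of functions with disjoint supports -/
lemma disjoint_sum {M : ℕ} {ι : Type} [Fintype ι] {P : ι → (Fin M → E3) → ℂ} {c : ι → ℂ}
    (hc : ∀ p, ‖c p‖ = 1) (hdisj : ∀ p q, p ≠ q → Disjoint (tsupport (P p)) (tsupport (P q)))
    (x : Fin M → E3) :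
    ‖∑ p, c p * P p x‖ ^ 2 = ∑ p, ‖P p x‖ ^ 2 ∧
    ∀ i, gradSq (fun y => ∑ p, c p * P p y) i x = ∑ p, gradSq (P p) i x := by
  classical
  have hz : ∀ p, x ∉ tsupport (P p) → P p x = 0 ∧ ∀ i, gradSq (P p) i x = 0 := by
    intro p hp
    rw [notMem_tsupport_iff_eventuallyEq] at hp
    refine ⟨hp.self_of_nhds, fun i => ?_⟩
    have h1 := hp.fderiv_eq (𝕜 := ℝ)
    have h2 : fderiv ℝ (0 : (Fin M → E3) → ℂ) x = 0 := by
      simp
    unfold gradSq
    rw [h1, h2]
    simp
  by_cases h : ∃ p, x ∈ tsupport (P p)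
  · obtain ⟨p, hp⟩ := h
    have hq : ∀ q, q ≠ p → x ∉ tsupport (P q) := fun q hqp hxq =>
      Set.disjoint_left.mp (hdisj q p hqp) hxq hp
    constructor
    · rw [Finset.sum_eq_single p, Finset.sum_eq_single p]
      · rw [norm_mul, hc, one_mul]
      · intro q _ hqp
        rw [(hz q (hq q hqp)).1]
        simp
      · simp
      · intro q _ hqp
        rw [(hz q (hq q hqp)).1]
        simp
      · simp
    · intro i
      rw [Finset.sum_eq_single p]
      · have hev : (fun y => ∑ p, c p * P p y) =ᶠ[𝓝 x] (fun y => c p * P p y) := by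
          have h1 : ∀ q, q ≠ p → ∀ᶠ y in 𝓝 x, P q y = 0 := fun q hqp =>
            notMem_tsupport_iff_eventuallyEq.mp (hq q hqp)
          have h2 : ∀ᶠ y in 𝓝 x, ∀ q, q ≠ p → P q y = 0 := by
            rw [eventually_all]
            intro q
            by_cases hqp : q = p
            · exact Eventually.of_forall fun y hne => absurd hqp hne
            · exact (h1 q hqp).mono fun y hy _ => hy
          filter_upwards [h2] with y hy
          rw [Finset.sum_eq_single p]
          · intro q _ hqp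
            rw [hy q hqp, mul_zero]
          · simp
        unfold gradSq
        rw [hev.fderiv_eq]
        refine Finset.sum_congr rfl fun c' _ => ?_
        have h3 : fderiv ℝ (fun y => c p * P p y) x = c p • fderiv ℝ (P p) x := by
          exact congrFun (fderiv_const_smul_field (𝕜 := ℝ) (f := P p) (c p)) x
        rw [h3, smul_apply, norm_smul, hc, one_mul]
      · intro q _ hqp
        exact (hz q (hq q hqp)).2 i
      · simp
  · push Not at h
    constructor
    · rw [Finset.sum_eq_zero, Finset.sum_eq_zero]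
      · simp
      · intro q _
        rw [(hz q (h q)).1]
        simp
      · intro q _
        rw [(hz q (h q)).1]
        simp
    · intro i
      have hev : (fun y => ∑ p, c p * P p y) =ᶠ[𝓝 x] (fun _ => 0) := by
        have h2 : ∀ᶠ y in 𝓝 x, ∀ q, P q y = 0 := by
          rw [eventually_all]
          intro q
          exact notMem_tsupport_iff_eventuallyEq.mp (h q)
        filter_upwards [h2] with y hy
        exact Finset.sum_eq_zero fun q _ => by rw [hy q, mul_zero]
      unfold gradSq
      rw [hev.fderiv_eq]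
      symm
      have : ∀ q, ∑ c, ‖(fderiv ℝ (P q) x) (Pi.single i (EuclideanSpace.single c (1 : ℝ)))‖ ^ 2 = 0 :=
        fun q => (hz q (h q)).2 i
      rw [Finset.sum_eq_zero fun q _ => this q]
      simp

/-- energy density for unit charges at `R k`, `k < K` -/
noncomputable def edens (K : ℕ) (R : ℕ → E3) {M : ℕ} (f : (Fin M → E3) → ℂ) (x : Fin M → E3) : ℝ :=
  1 / 2 * ∑ i, gradSq f i x +
      (-(∑ i, ∑ k ∈ Finset.range K, 1 / dist (x i) (R k)) +
        ∑ i, ∑ j ∈ Finset.Ioi i, 1 / dist (x i) (x j)) * ‖f x‖ ^ 2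

lemma integrable_edens {K : ℕ} {R : ℕ → E3} {M : ℕ} {f : (Fin M → E3) → ℂ}
    (hf : ContDiff ℝ ∞ f) (hc : HasCompactSupport f) : Integrable (edens K R f) := by
  have hrep : Integrable (fun x => ∑ i, ∑ j ∈ Finset.Ioi i, ‖f x‖ ^ 2 / dist (x i) (x j)) := by
    apply integrable_finsetSum
    intro i _
    apply integrable_finsetSum
    intro j hj
    exact integrable_rep hf hc (Finset.mem_Ioi.mp hj).ne
  have hgr : Integrable (fun x => 1 / 2 * ∑ i, gradSq f i x) :=
    (integrable_finsetSum _ fun i _ => integrable_gradSq hf hc i).const_mul _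
  have hat : Integrable (fun x => ∑ i, ∑ k ∈ Finset.range K, ‖f x‖ ^ 2 / dist (x i) (R k)) :=
    integrable_finsetSum _ fun i _ => integrable_finsetSum _ fun k _ => integrable_att hf hc i (R k)
  have h := (hgr.sub hat).add hrep
  refine h.congr (ae_of_all _ fun x => ?_)
  simp only [Pi.add_apply, Pi.sub_apply, edens, add_mul, neg_mul, Finset.sum_mul]
  have a1 : ∑ i, ∑ k ∈ Finset.range K, 1 / dist (x i) (R k) * ‖f x‖ ^ 2 =
      ∑ i, ∑ k ∈ Finset.range K, ‖f x‖ ^ 2 / dist (x i) (R k) :=
    Finset.sum_congr rfl fun i _ => Finset.sum_congr rfl fun j _ => by ring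
  have a2 : ∑ i, ∑ j ∈ Finset.Ioi i, 1 / dist (x i) (x j) * ‖f x‖ ^ 2 =
      ∑ i, ∑ j ∈ Finset.Ioi i, ‖f x‖ ^ 2 / dist (x i) (x j) :=
    Finset.sum_congr rfl fun i _ => Finset.sum_congr rfl fun j _ => by ring
  rw [a1, a2]
  ring

lemma hasCompactSupport_Pf {M : ℕ} {w : Fin M → E3 → ℂ} {a : Fin M → E3} {ρ : ℝ}
    (hs : ∀ i z, w i z ≠ 0 → dist z (a i) < ρ) : HasCompactSupport (Pf w) := by
  apply HasCompactSupport.of_support_subset_isCompact
    (isCompact_univ_pi fun i => isCompact_closedBall (a i) ρ)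
  intro x hx i _
  have h : ∏ i, w i (x i) ≠ 0 := hx
  have h2 := Finset.prod_ne_zero_iff.mp h i (Finset.mem_univ i)
  exact (hs i _ h2).le

lemma tsupport_Pf_subset {M : ℕ} {w : Fin M → E3 → ℂ} {a : Fin M → E3} {ρ : ℝ}
    (hs : ∀ i z, w i z ≠ 0 → dist z (a i) < ρ) :
    tsupport (Pf w) ⊆ Set.univ.pi fun i => Metric.closedBall (a i) ρ := by
  apply closure_minimal
  · intro x hx i _
    have h : ∏ i, w i (x i) ≠ 0 := hx
    have h2 := Finset.prod_ne_zero_iff.mp h i (Finset.mem_univ i)
    exact (hs i _ h2).le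
  · exact isClosed_set_pi fun i _ => Metric.isClosed_closedBall

lemma energy_Pf_le {K M : ℕ} {y : ℕ → E3} {t δ e : ℝ} (ht : 0 < t) (hδ : 0 < δ)
    (hδ' : δ ≤ 1 / 4)
    (hsep : ∀ k ∈ Finset.range K, ∀ l ∈ Finset.range K, k ≠ l → 1 ≤ dist (y k) (y l))
    {s : Fin M → ℕ} (hsK : ∀ i, s i ∈ Finset.range K) (hsi : Function.Injective s)
    {w : Fin M → E3 → ℂ} (hw : ∀ i, ContDiff ℝ ∞ (w i))
    (hws : ∀ i z, w i z ≠ 0 → dist z (t • y (s i)) < δ * t)
    (hn : ∀ j, ∫ z, ‖w j z‖ ^ 2 = 1) (he : ∀ i, hform (w i) (t • y (s i)) ≤ e) :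
    ∫ x, edens K (fun k => t • y k) (Pf w) x ≤
      M * e + (Cc K y s + (K * M + 4 * M ^ 2) * δ) / t := by
  have hPs := contDiff_Pf hw
  have hPc := hasCompactSupport_Pf hws
  set C' : ℝ := (Cc K y s + (K * M + 4 * M ^ 2) * δ) / t with hC'
  have hpt : ∀ x, edens K (fun k => t • y k) (Pf w) x ≤
      ∑ i, (1 / 2 * gradSq (Pf w) i x - ‖Pf w x‖ ^ 2 / dist (x i) (t • y (s i))) +
        C' * ‖Pf w x‖ ^ 2 := by
    intro x
    rw [Finset.sum_sub_distrib, ← Finset.mul_sum]
    unfold edens
    by_cases h0 : Pf w x = 0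
    · simp [h0]
    · have hxi : ∀ i, dist (x i) (t • y (s i)) < δ * t := fun i =>
        hws i _ (Finset.prod_ne_zero_iff.mp h0 i (Finset.mem_univ i))
      have e1 : ∑ i, ‖Pf w x‖ ^ 2 / dist (x i) (t • y (s i)) =
          (∑ i, 1 / dist (x i) (t • y (s i))) * ‖Pf w x‖ ^ 2 := by
        rw [Finset.sum_mul]
        exact Finset.sum_congr rfl fun i _ => by ring
      rw [e1]
      have key : -(∑ i, ∑ k ∈ Finset.range K, 1 / dist (x i) (t • y k)) +
          ∑ i, ∑ j ∈ Finset.Ioi i, 1 / dist (x i) (x j) ≤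
          -(∑ i, 1 / dist (x i) (t • y (s i))) + C' := by
        have h1 : ∀ i, 1 / dist (x i) (t • y (s i)) + (Uc K y (s i) - K * δ) / t ≤
            ∑ k ∈ Finset.range K, 1 / dist (x i) (t • y k) := by
          intro i
          rw [← Finset.add_sum_erase _ (fun k => 1 / dist (x i) (t • y k)) (hsK i)]
          apply add_le_add le_rfl
          have h2 : ∀ l ∈ (Finset.range K).erase (s i),
              (1 / dist (y (s i)) (y l) - δ) / t ≤ 1 / dist (x i) (t • y l) := by
            intro l hl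
            have hl' := Finset.mem_erase.mp hl
            exact le_inv_dist2 ht hδ' (hsep _ (hsK i) l hl'.2 hl'.1.symm) (hxi i)
          refine le_trans ?_ (Finset.sum_le_sum h2)
          rw [← Finset.sum_div]
          apply div_le_div_of_nonneg_right _ ht.le
          rw [Finset.sum_sub_distrib, Finset.sum_const, nsmul_eq_mul]
          have h2 : ((Finset.range K).erase (s i)).card ≤ K := by
            calc ((Finset.range K).erase (s i)).card ≤ (Finset.range K).card :=
                  Finset.card_erase_le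
              _ = K := Finset.card_range K
          have h3 : (((Finset.range K).erase (s i)).card : ℝ) ≤ K := by exact_mod_cast h2
          have h4 : Uc K y (s i) =
            ∑ l ∈ (Finset.range K).erase (s i), 1 / dist (y (s i)) (y l) := rfl
          rw [h4]
          nlinarith
        have h2 : ∑ i, ∑ j ∈ Finset.Ioi i, 1 / dist (x i) (x j) ≤
            ∑ i, ∑ j ∈ Finset.Ioi i, (1 / dist (y (s i)) (y (s j)) + 4 * δ) / t := by
          apply Finset.sum_le_sum
          intro i _
          apply Finset.sum_le_sum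
          intro j hj
          have hij : i ≠ j := (Finset.mem_Ioi.mp hj).ne
          exact inv_dist_le2 ht hδ' (hsep _ (hsK i) _ (hsK j) (fun h => hij (hsi h)))
            (hxi i) (hxi j)
        have e2 : ∑ i, ∑ j ∈ Finset.Ioi i, (1 / dist (y (s i)) (y (s j)) + 4 * δ) / t =
            ((∑ i, ∑ j ∈ Finset.Ioi i, 1 / dist (y (s i)) (y (s j))) +
              (∑ i : Fin M, ∑ j ∈ Finset.Ioi i, 4 * δ)) / t := by
          simp only [← Finset.sum_div, Finset.sum_add_distrib]
        have e3 : (∑ i : Fin M, ∑ j ∈ Finset.Ioi i, 4 * δ) ≤ M ^ 2 * (4 * δ) := by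
          calc (∑ i : Fin M, ∑ j ∈ Finset.Ioi i, 4 * δ) ≤ ∑ i : Fin M, ∑ j : Fin M, 4 * δ := by
                apply Finset.sum_le_sum
                intro i _
                apply Finset.sum_le_sum_of_subset_of_nonneg (Finset.subset_univ _)
                intro _ _ _
                positivity
            _ = _ := by
                simp
                ring
        have h3 := Finset.sum_le_sum fun i (_ : i ∈ Finset.univ) => h1 i
        rw [Finset.sum_add_distrib, ← Finset.sum_div, Finset.sum_sub_distrib] at h3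
        simp only [Finset.sum_const, Finset.card_univ, Fintype.card_fin, nsmul_eq_mul] at h3
        rw [e2] at h2
        have h5 : ((∑ i, ∑ j ∈ Finset.Ioi i, 1 / dist (y (s i)) (y (s j))) +
              (∑ i : Fin M, ∑ j ∈ Finset.Ioi i, 4 * δ)) / t -
            (∑ i, Uc K y (s i) - M * (K * δ)) / t ≤ C' := by
          rw [← sub_div, hC']
          apply div_le_div_of_nonneg_right _ ht.le
          unfold Cc
          linarith
        linarith
      have h2 : 0 ≤ ‖Pf w x‖ ^ 2 := by positivity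
      have h3 := mul_le_mul_of_nonneg_right key h2
      linarith
  have hIg : ∀ i, Integrable (fun x => 1 / 2 * gradSq (Pf w) i x -
      ‖Pf w x‖ ^ 2 / dist (x i) (t • y (s i))) := fun i =>
    ((integrable_gradSq hPs hPc i).const_mul _).sub (integrable_att hPs hPc i _)
  have hIn := integrable_normSqN hPs.continuous hPc
  calc ∫ x, edens K (fun k => t • y k) (Pf w) x
      ≤ ∫ x, (∑ i, (1 / 2 * gradSq (Pf w) i x - ‖Pf w x‖ ^ 2 / dist (x i) (t • y (s i))) +
        C' * ‖Pf w x‖ ^ 2) := by
        apply integral_mono (integrable_edens hPs hPc) _ hpt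
        exact (integrable_finsetSum _ fun i _ => hIg i).add (hIn.const_mul _)
    _ = ∑ i, hform (w i) (t • y (s i)) + C' * 1 := by
        rw [integral_add (integrable_finsetSum _ fun i _ => hIg i) (hIn.const_mul _),
          integral_finsetSum _ fun i _ => hIg i, integral_const_mul, integral_normSq_Pf hn]
        congr 1
        refine Finset.sum_congr rfl fun i _ => ?_
        rw [integral_sub ((integrable_gradSq hPs hPc i).const_mul _) (integrable_att hPs hPc i _),
          integral_const_mul, integral_gradSq_Pf hw hn, integral_att_Pf hn]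
        rfl
    _ ≤ M * e + C' := by
        have : ∑ i, hform (w i) (t • y (s i)) ≤ ∑ _i : Fin M, e :=
          Finset.sum_le_sum fun i _ => he i
        simp only [Finset.sum_const, Finset.card_univ, Fintype.card_fin, nsmul_eq_mul] at this
        linarith

end Pool.Agent.Lib.MP_9fcec4_mp
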